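import Pool.Agent.Y709.Gen.LatB
import Mathlib.LinearAlgebra.Dual.Lemmas
import Mathlib.LinearAlgebra.FreeModule.Finite.CardQuotient

/-!
The number of polynomials orthogonal to a saturated module.
-/

set_option autoImplicit false
set_option linter.unusedSectionVars false

open Polynomial

namespace Pool.Agent.Y709.Gen

variable {k : Type} [Field k] {q r : ℕ}

theorem func_zero (hq : 0 < q) {v : Fin r → k[X]} {n : Fin r → k[X]}
    (hn : ∀ j, SatW q v (n j) ∧ n j ≠ 0)
    (hcl : ∀ i j, i ≠ j → ¬ (n i).natDegree ≡ (n j).natDegree [MOD q])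
    (hrep : ∀ u, SatW q v u → ∃ A : Fin r → k[X], u = ∑ j, expand k q (A j) * n j ∧
      ∀ j, A j = 0 ∨ q * (A j).natDegree + (n j).natDegree ≤ u.natDegree)
    {N : ℕ} (hN : ∑ j, (N + 1 + (n j).natDegree) / q < (r + 1) * ((N + 1) / q))
    (lam : (Σ j : Fin r, Fin ((N + 1 + (n j).natDegree) / q)) → k)
    (hlam : ∀ d ≤ N, ∑ x, lam x * (X ^ d * n x.1).coeff (q * (x.2 : ℕ) + (q - 1)) = 0) :
    lam = 0 := by
  classical
  set bj : Fin r → ℕ := fun j => (N + 1 + (n j).natDegree) / q with hbj
  set b := ∑ j, bj j with hb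
  have hle : ∀ j, bj j ≤ b := fun j =>
    Finset.single_le_sum (f := bj) (fun _ _ => Nat.zero_le _) (Finset.mem_univ j)
  have hjlt : ∀ j (i : Fin (bj j)), (i : ℕ) < b := fun j i => lt_of_lt_of_le i.2 (hle j)
  let Λ : Fin r → k[X] := fun j => ∑ i : Fin (bj j), C (lam ⟨j, i⟩) * X ^ (b - 1 - (i : ℕ))
  have hΛco : ∀ j (i : Fin (bj j)), (Λ j).coeff (b - 1 - (i : ℕ)) = lam ⟨j, i⟩ := by
    intro j i
    show (∑ i : Fin (bj j), C (lam ⟨j, i⟩) * X ^ (b - 1 - (i : ℕ))).coeff _ = _
    rw [finsetSum_coeff, Finset.sum_eq_single i]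
    · rw [coeff_C_mul, coeff_X_pow, if_pos rfl, mul_one]
    · intro l _ hl
      have h1 := hjlt j i
      have h2 := hjlt j l
      have h3 : (i : ℕ) ≠ l := fun h => hl (Fin.ext h.symm)
      rw [coeff_C_mul, coeff_X_pow, if_neg (by omega), mul_zero]
    · intro h
      exact absurd (Finset.mem_univ _) h
  set U := ∑ j, expand k q (Λ j) * n j with hU
  have hUeq : U = ∑ x : (Σ j : Fin r, Fin (bj j)),
      C (lam x) * (X ^ (q * (b - 1 - (x.2 : ℕ))) * n x.1) := by
    rw [Fintype.sum_sigma, hU]
    refine Finset.sum_congr rfl fun j _ => ?_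
    show expand k q (∑ i : Fin (bj j), C (lam ⟨j, i⟩) * X ^ (b - 1 - (i : ℕ))) * n j = _
    rw [map_sum, Finset.sum_mul]
    refine Finset.sum_congr rfl fun i _ => ?_
    rw [map_mul, expand_C, map_pow, expand_X, ← pow_mul, mul_assoc]
  have hUco : ∀ d ≤ N, d + 1 ≤ q * b → U.coeff (q * b - 1 - d) = 0 := by
    intro d hd hdb
    rw [hUeq, finsetSum_coeff, ← hlam d hd]
    refine Finset.sum_congr rfl fun x _ => ?_
    rw [coeff_C_mul]
    congr 1
    have h1 := hjlt x.1 x.2
    have h2 : q * (b - 1 - (x.2 : ℕ)) + (q * (x.2 : ℕ) + q) = q * b := by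
      have h3 : b = (b - 1 - (x.2 : ℕ)) + ((x.2 : ℕ) + 1) := by omega
      conv_rhs => rw [h3]
      ring
    rw [coeff_X_pow_mul', coeff_X_pow_mul']
    by_cases h3 : d ≤ q * (x.2 : ℕ) + (q - 1)
    · rw [if_pos (by omega), if_pos h3]
      congr 1
      omega
    · rw [if_neg (by omega), if_neg h3]
  have hmon : (X ^ (q * b) : k[X]).Monic := monic_X_pow _
  set ε := U %ₘ X ^ (q * b) with hε
  set P := U /ₘ X ^ (q * b) with hP
  have hUP : U = X ^ (q * b) * P + ε := by
    rw [add_comm]
    exact (modByMonic_add_div U (X ^ (q * b))).symm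
  have hεd : ε = 0 ∨ ε.natDegree + N + 2 ≤ q * b := by
    by_cases h0 : ε = 0
    · exact Or.inl h0
    right
    have h1 : ε.natDegree < q * b := by
      have h2 : ε.degree < (X ^ (q * b) : k[X]).degree := degree_modByMonic_lt U hmon
      rw [degree_X_pow, degree_eq_natDegree h0] at h2
      exact_mod_cast h2
    have h2 : ε.coeff ε.natDegree = U.coeff ε.natDegree := by
      conv_rhs => rw [hUP]
      rw [coeff_add, coeff_X_pow_mul', if_neg (by omega), zero_add]
    by_contra h3
    have h4 := hUco (q * b - 1 - ε.natDegree) (by omega) (by omega)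
    have h5 : q * b - 1 - (q * b - 1 - ε.natDegree) = ε.natDegree := by omega
    rw [h5, ← h2] at h4
    exact h0 (leadingCoeff_eq_zero.1 h4)
  by_cases hPW : SatW q v P
  · obtain ⟨A, hA, _⟩ := hrep P hPW
    by_contra hne
    obtain ⟨⟨j, i⟩, hx⟩ := Function.ne_iff.1 hne
    rw [Pi.zero_apply] at hx
    have h1 : ε = ∑ j, expand k q (Λ j - X ^ b * A j) * n j := by
      have h2 : ε = U - X ^ (q * b) * P := by
        rw [hUP]
        ring
      rw [h2, hA, hU, Finset.mul_sum, ← Finset.sum_sub_distrib]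
      refine Finset.sum_congr rfl fun j _ => ?_
      rw [map_sub, map_mul, map_pow, expand_X, ← pow_mul]
      ring
    have h2 : (Λ j - X ^ b * A j).coeff (b - 1 - (i : ℕ)) ≠ 0 := by
      have h3 := hjlt j i
      rw [coeff_sub, hΛco, coeff_X_pow_mul', if_neg (by omega), sub_zero]
      exact hx
    have h3 : Λ j - X ^ b * A j ≠ 0 := by
      intro h
      rw [h, coeff_zero] at h2
      exact h2 rfl
    have h4 := le_natDegree_of_ne_zero h2
    obtain ⟨h5, h6⟩ := deg_sum (fun j => (hn j).2) hcl hq (fun j => Λ j - X ^ b * A j) h3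
    rw [← h1] at h5 h6
    have h7 := hεd.resolve_left h5
    have h8 : q * (b - 1 - (i : ℕ)) ≤ q * (Λ j - X ^ b * A j).natDegree :=
      Nat.mul_le_mul_left q h4
    have h9 := hjlt j i
    have h10 : q * (b - 1 - (i : ℕ)) + q * ((i : ℕ) + 1) = q * b := by
      rw [← mul_add]
      congr 1
      omega
    have h11 : q * ((i : ℕ) + 1) ≤ q * bj j := Nat.mul_le_mul_left q i.2
    have h12 : q * bj j ≤ N + 1 + (n j).natDegree := Nat.mul_div_le _ _
    omega
  · exfalso
    refine no_outside (fun j => (hn j).2) hcl hq (N := N) (b := b) ?_ Λ hUP hεd ?_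
    · have h1 : ∀ j, (N + 1) / q + (n j).natDegree / q ≤ bj j := fun j =>
        Nat.div_add_div_le_add_div
      have h2 : ∑ j : Fin r, ((N + 1) / q + (n j).natDegree / q) ≤ ∑ j, bj j :=
        Finset.sum_le_sum fun j _ => h1 j
      rw [Finset.sum_add_distrib, Finset.sum_const, Finset.card_univ, Fintype.card_fin,
        smul_eq_mul] at h2
      have h3 : (r + 1) * ((N + 1) / q) = r * ((N + 1) / q) + (N + 1) / q := by ring
      omega
    · intro B hB A h
      apply hPW
      refine sat_sat v hB ?_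
      rw [h]
      exact (lat_sat v).sum (sat_zero v) _ _ _ fun j => (hn j).1

theorem latGen (k : Type) [Field k] [Finite k] (q : ℕ) (hq : 0 < q) (r : ℕ) : LatGen k q r := by
  classical
  intro v hv
  obtain ⟨n, hn, hcl, hrep⟩ := reduced_sat hq (v := v) hv
  have h1 := fun i => hrep (v i) (sat_mem v i)
  choose A hA hA2 using h1
  refine ⟨n, A, fun j => (hn j).2, hcl, hA, hA2, ?_⟩
  intro N hN
  let ι := Σ j : Fin r, Fin ((N + 1 + (n j).natDegree) / q)
  let T : degreeLT k (N + 1) →ₗ[k] (ι → k) := LinearMap.pi fun x =>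
    (lcoeff k (q * (x.2 : ℕ) + (q - 1))).comp ((LinearMap.mulRight k (n x.1)).comp
      (degreeLT k (N + 1)).subtype)
  have hT : ∀ D x, T D x = ((D : k[X]) * n x.1).coeff (q * (x.2 : ℕ) + (q - 1)) := fun _ _ => rfl
  have hsurj : LinearMap.range T = ⊤ := by
    by_contra hne
    obtain ⟨f, hf0, hf⟩ := Submodule.exists_le_ker_of_lt_top _ (lt_top_iff_ne_top.2 hne)
    apply hf0
    have h2 := func_zero hq hn hcl hrep hN (fun x => f (fun y => if x = y then 1 else 0)) (by
      intro d hd
      have h3 : (X ^ d : k[X]) ∈ degreeLT k (N + 1) := by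
        rw [mem_degreeLT, degree_X_pow]
        exact_mod_cast Nat.lt_succ_of_le hd
      have h4 : f (T ⟨X ^ d, h3⟩) = 0 := hf (LinearMap.mem_range_self T _)
      rw [LinearMap.pi_apply_eq_sum_univ f] at h4
      refine Eq.trans ?_ h4
      refine Finset.sum_congr rfl fun x _ => ?_
      rw [smul_eq_mul, mul_comm, hT])
    ext x
    rw [LinearMap.comp_apply, LinearMap.pi_apply_eq_sum_univ f]
    refine Finset.sum_eq_zero fun y _ => ?_
    have := congrFun h2 y
    simp only [Pi.zero_apply] at this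
    rw [this, smul_zero]
  have hfin : Module.Finite k (degreeLT k (N + 1)) :=
    Module.Finite.equiv (degreeLTEquiv k (N + 1)).symm
  have hd : Module.finrank k (degreeLT k (N + 1)) = N + 1 := by
    rw [(degreeLTEquiv k (N + 1)).finrank_eq, Module.finrank_fintype_fun_eq_card, Fintype.card_fin]
  have hr := LinearMap.finrank_range_add_finrank_ker T
  rw [hsurj, finrank_top, Module.finrank_fintype_fun_eq_card, Fintype.card_sigma, hd] at hr
  simp only [Fintype.card_fin] at hr
  have hfink : Finite (degreeLT k (N + 1)) := Module.finite_of_finite k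
  have hcard : Nat.card (LinearMap.ker T) = Nat.card k ^ Module.finrank k (LinearMap.ker T) :=
    Module.natCard_eq_pow_finrank (K := k) (V := LinearMap.ker T)
  have hle : Nat.card {D : k[X] // D.natDegree ≤ N ∧ ∀ i, cart q (D * v i) = 0} ≤
      Nat.card (LinearMap.ker T) := by
    have h2 : ∀ D : {D : k[X] // D.natDegree ≤ N ∧ ∀ i, cart q (D * v i) = 0},
        (D : k[X]) ∈ degreeLT k (N + 1) := by
      intro D
      rw [mem_degreeLT]
      exact lt_of_le_of_lt degree_le_natDegree (by exact_mod_cast Nat.lt_succ_of_le D.2.1)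
    have h3 : ∀ D : {D : k[X] // D.natDegree ≤ N ∧ ∀ i, cart q (D * v i) = 0},
        T ⟨D, h2 D⟩ = 0 := by
      intro D
      funext x
      rw [hT, Pi.zero_apply]
      obtain ⟨a, ha, c, hc⟩ := (hn x.1).1
      have h4 : a * cart q ((D : k[X]) * n x.1) = 0 := by
        rw [← cart_expand_mul hq, mul_left_comm, hc, Finset.mul_sum]
        have h5 : ∀ s : Finset (Fin r), cart q (∑ i ∈ s, (D : k[X]) * (expand k q (c i) * v i)) =
            0 := by
          intro s
          induction s using Finset.induction_on with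
          | empty => rw [Finset.sum_empty, cart_zero hq]
          | insert i s hi ih =>
            rw [Finset.sum_insert hi, cart_add hq, ih, add_zero, mul_left_comm,
              cart_expand_mul hq, D.2.2 i, mul_zero]
        exact h5 _
      have h5 := (mul_eq_zero.1 h4).resolve_left ha
      have h6 := coeff_cart hq ((D : k[X]) * n x.1) x.2
      rw [h5, coeff_zero] at h6
      exact h6.symm
    refine Nat.card_le_card_of_injective (fun D => (⟨⟨D, h2 D⟩, LinearMap.mem_ker.2 (h3 D)⟩ :
      LinearMap.ker T)) ?_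
    intro D D' h
    apply Subtype.ext
    have := congrArg (fun z : LinearMap.ker T => ((z : degreeLT k (N + 1)) : k[X])) h
    exact this
  refine (Nat.mul_le_mul_right _ hle).trans ?_
  rw [hcard, ← pow_add, add_comm (Module.finrank k (LinearMap.ker T)), hr]

end Pool.Agent.Y709.Gen
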