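import Pool.Agent.Y709.Gen.Two

/-!
The number of the vanishing twists from a bound of the number of the polynomials with a fixed vector.
-/

set_option autoImplicit false
set_option linter.unusedSectionVars false

open Polynomial

namespace Pool.Agent.Y709.Gen

open Pool.Agent.W313.Hyp Pool.Agent.W343.BSD

/-- vanishing gives a fixed vector of the minor -/
theorem fixed_minor {k : Type} [Field k] [Fintype k] {q r : ℕ} (hk : Fintype.card k = q)
    (h5 : 5 ≤ q) (B : k[X]) (b : Fin (r + 1) → k[X])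
    (m : Fin (r + 1) → ℕ) (hm : ∀ i, 0 < m i)
    (hinv : ∀ i : ℕ, i < ∑ l, m l → ((i : k) + 1) ≠ 0) (hmq : ∑ i, m i < q - 1)
    (D : k[X]) (χ : MulChar k ℂ) (hχ : orderOf χ = q - 1) (G : ℂ[X])
    (hG : LG χ (D * B) b m = (((1 - C (q : ℂ) * X) * G : ℂ[X]) : PowerSeries ℂ)) :
    ∃ w : Fin r → k[X], w ≠ 0 ∧ ∀ i, cart q (D * ∑ j, minor B b m i j * w j) = w i := by
  obtain ⟨w, hw0, hw⟩ := fixed_of_vanishG hk h5 χ hχ (D * B) b hm hmq hinv 0 G hG
  have hw00 : w 0 = 0 := by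
    have h8 : ∑ j, D * B * phi k b m 0 0 j * w j = 0 := by
      refine Finset.sum_eq_zero fun j _ => ?_
      rw [phi_row k _ _ rfl, mul_zero, zero_mul]
    rw [← hw 0, h8, cart_zero (by omega)]
  refine ⟨fun i => w i.succ, ?_, ?_⟩
  · intro h9
    apply hw0
    funext i
    refine Fin.cases hw00 (fun i => ?_) i
    exact congrFun h9 i
  · intro i
    show cart q (D * ∑ j, minor B b m i j * w j.succ) = w i.succ
    refine Eq.trans ?_ (hw i.succ)
    have h10 : D * ∑ j : Fin r, minor B b m i j * w j.succ =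
        ∑ j : Fin (r + 1), D * B * phi k b m 0 i.succ j * w j := by
      rw [Fin.sum_univ_succ, hw00, mul_zero, zero_add, Finset.mul_sum]
      refine Finset.sum_congr rfl fun j _ => ?_
      unfold minor
      rw [Matrix.of_apply]
      ring
    rw [h10]

theorem countE_of_bound {k : Type} [Field k] [Fintype k] {q r : ℕ} (hk : Fintype.card k = q)
    (h5 : 5 ≤ q) (B : k[X]) (b : Fin (r + 1) → k[X])
    (m : Fin (r + 1) → ℕ) (hm : ∀ i, 0 < m i)
    (hinv : ∀ i : ℕ, i < ∑ l, m l → ((i : k) + 1) ≠ 0) (hmq : ∑ i, m i < q - 1) (N K e : ℕ)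
    (he : e ∣ q - 1)
    (hK : Nat.card {D : k[X] // D.natDegree ≤ N ∧ ∃ w : Fin r → k[X], w ≠ 0 ∧
      ∀ i, cart q (D * ∑ j, minor B b m i j * w j) = w i} ≤ K) :
    {D : k[X] | D.natDegree ≤ N ∧ ∃ χ : MulChar k ℂ, orderOf χ = q - 1 ∧ ∃ ζ : ℂ, ζ ^ e = 1 ∧
      ∃ G : ℂ[X], LG χ (D * B) b m =
        (((1 - C ((q : ℂ) * ζ) * X) * G : ℂ[X]) : PowerSeries ℂ)}.ncard ≤ e * K := by
  classical
  set V := {D : k[X] | D.natDegree ≤ N ∧ ∃ χ : MulChar k ℂ, orderOf χ = q - 1 ∧ ∃ G : ℂ[X],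
      LG χ (D * B) b m = (((1 - C (q : ℂ) * X) * G : ℂ[X]) : PowerSeries ℂ)} with hV
  have hVf : V.Finite := (finite_natDegree_le N).subset fun D hD => hD.1
  have hVc : V.ncard ≤ K := by
    refine le_trans ?_ hK
    have h7 : {D : k[X] | D.natDegree ≤ N ∧ ∃ w : Fin r → k[X], w ≠ 0 ∧
        ∀ i, cart q (D * ∑ j, minor B b m i j * w j) = w i}.Finite :=
      (finite_natDegree_le N).subset fun D hD => hD.1
    refine (Set.ncard_le_ncard ?_ h7).trans (le_of_eq (Nat.card_coe_set_eq _).symm)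
    rintro D ⟨hD, χ, hχ, G, hG⟩
    exact ⟨hD, fixed_minor hk h5 B b m hm hinv hmq D χ hχ G hG⟩
  have hq1 : 0 < q - 1 := by omega
  have hnz : NeZero (q - 1) := ⟨hq1.ne'⟩
  have he0 : 0 < e := Nat.pos_of_dvd_of_pos he hq1
  set S : Finset k := (Polynomial.nthRoots e (1 : k)).toFinset with hS
  have hSc : S.card ≤ e := (Multiset.toFinset_card_le _).trans (card_nthRoots e 1)
  have hsub : {D : k[X] | D.natDegree ≤ N ∧ ∃ χ : MulChar k ℂ, orderOf χ = q - 1 ∧
      ∃ ζ : ℂ, ζ ^ e = 1 ∧ ∃ G : ℂ[X], LG χ (D * B) b m =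
        (((1 - C ((q : ℂ) * ζ) * X) * G : ℂ[X]) : PowerSeries ℂ)} ⊆
      ⋃ u ∈ S, (fun D => C u * D) '' V := by
    rintro D ⟨hD, χ, hχ, ζ, hζ, G, hG⟩
    obtain ⟨g, hg⟩ := IsCyclic.exists_generator (α := kˣ)
    have hprim := prim_of_order χ hq1 hχ hg
    have hζ0 : ζ ≠ 0 := by
      intro h
      rw [h, zero_pow he0.ne'] at hζ
      exact zero_ne_one hζ
    have hζ' : ζ ^ (q - 1) = 1 := by
      obtain ⟨c, hc⟩ := he
      rw [hc, pow_mul, hζ, one_pow]
    obtain ⟨i, _, hi⟩ := hprim.eq_pow_of_pow_eq_one hζ'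
    have hgq : ((g : k)) ^ (i * e) = 1 := by
      have h6 : (χ (g : k)) ^ (i * e) = 1 := by rw [pow_mul, hi, hζ]
      have h7 := hprim.dvd_of_pow_eq_one _ h6
      obtain ⟨c, hc⟩ := h7
      rw [hc, pow_mul, ← hk, FiniteField.pow_card_sub_one_eq_one _ g.ne_zero, one_pow]
    have hu0 : ((g : k)) ^ i ≠ 0 := pow_ne_zero _ g.ne_zero
    rw [Set.mem_iUnion₂]
    refine ⟨(g : k) ^ i, ?_, C (((g : k) ^ i)⁻¹) * D, ?_, ?_⟩
    · rw [hS, Multiset.mem_toFinset, Polynomial.mem_nthRoots he0, ← pow_mul]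
      exact hgq
    · refine ⟨(natDegree_C_mul_le _ _).trans hD, χ, hχ, G.comp (C ζ⁻¹ * X), ?_⟩
      have h6 : χ (((g : k) ^ i)⁻¹) = ζ⁻¹ := by
        have h7 : χ (((g : k) ^ i)⁻¹) * χ ((g : k) ^ i) = 1 := by
          rw [← map_mul, inv_mul_cancel₀ hu0, map_one]
        rw [map_pow, hi] at h7
        exact eq_inv_of_mul_eq_one_left h7
      rw [mul_assoc, LG_C_mul, hG, h6]
      have h8 : ∀ H : ℂ[X], PowerSeries.rescale ζ⁻¹ (H : PowerSeries ℂ) =
          ((H.comp (C ζ⁻¹ * X) : ℂ[X]) : PowerSeries ℂ) := by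
        intro H
        ext n
        rw [PowerSeries.coeff_rescale, Polynomial.coeff_coe, Polynomial.coeff_coe,
          comp_C_mul_X_coeff, mul_comm]
      rw [h8]
      congr 1
      rw [mul_comp, sub_comp, one_comp, mul_comp, C_comp, X_comp, C_mul]
      congr 2
      rw [mul_assoc, ← mul_assoc (C ζ), ← C_mul, mul_inv_cancel₀ hζ0, C_1, one_mul]
    · show C ((g : k) ^ i) * (C (((g : k) ^ i)⁻¹) * D) = D
      rw [← mul_assoc, ← C_mul, mul_inv_cancel₀ hu0, C_1, one_mul]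
  have hfin : (⋃ u ∈ S, (fun D => C u * D) '' V).Finite :=
    S.finite_toSet.biUnion fun u _ => hVf.image _
  refine (Set.ncard_le_ncard hsub hfin).trans ?_
  have h6 : (⋃ u ∈ S, (fun D => C u * D) '' V).ncard ≤ ∑ u ∈ S, V.ncard := by
    refine (Finset.set_ncard_biUnion_le S _).trans (Finset.sum_le_sum fun u _ => ?_)
    exact Set.ncard_image_le hVf
  refine h6.trans ?_
  rw [Finset.sum_const, smul_eq_mul]
  exact Nat.mul_le_mul hSc hVc

/-- **the number of vanishing twists of the family `x ^ m₀ (x - 1) ^ m₁ (x - t) ^ m₂`** -/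
theorem two_count {k : Type} [Field k] [Fintype k] {q : ℕ} (hk : Fintype.card k = q)
    (hcount : CountTwo k q) (m : Fin 3 → ℕ) (hm : ∀ i, 0 < m i)
    (hinv : ∀ i : ℕ, i < ∑ l, m l → ((i : k) + 1) ≠ 0) (g : ℕ) (hg1 : m 1 ≤ g) (hg2 : m 2 ≤ g)
    (hg : m 0 + m 2 + 2 * g + 40 ≤ q) (ρ M N e : ℕ) (he : e ∣ q - 1) (hρ : 3 ≤ ρ)
    (hρg : m 0 + m 2 + g + ρ ≤ q - 1) (hM : q ≤ M) (hN : N + 1 = (q - 1) * M + ρ) :
    {D : k[X] | D.natDegree ≤ N ∧ ∃ χ : MulChar k ℂ, orderOf χ = q - 1 ∧ ∃ ζ : ℂ, ζ ^ e = 1 ∧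
      ∃ G : ℂ[X], LG χ (D * 1) (bt k) m =
        (((1 - C ((q : ℂ) * ζ) * X) * G : ℂ[X]) : PowerSeries ℂ)}.ncard ≤ e * (4 * q ^ N) := by
  obtain ⟨p, hp⟩ := CharP.exists k
  have hpf : Fact (Nat.Prime p) := ⟨CharP.char_is_prime k p⟩
  obtain ⟨s, _, hqs⟩ := FiniteField.card k p
  rw [hk] at hqs
  have hsum : ∑ i, m i = m 0 + m 1 + m 2 := Fin.sum_univ_three m
  have hmle : ∀ i, m i < q := by
    intro i
    fin_cases i
    · show m 0 < q
      omega
    · show m 1 < q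
      omega
    · show m 2 < q
      omega
  have hdet := det_minor (k := k) hqs s.pos (one_ne_zero (α := k[X])) (bt_inj (k := k)) hm hmle hinv
  have hmq : ∑ i, m i < q - 1 := by
    rw [hsum]
    omega
  refine countE_of_bound hk (by omega) 1 (bt k) m hm hinv hmq N _ e he ?_
  have hmin : ∀ i j : Fin 2, minor 1 (bt k) m i j = phi k (bt k) m 0 i.succ j.succ := by
    intro i j
    unfold minor
    rw [Matrix.of_apply, one_mul]
  refine hcount (minor 1 (bt k) m) (m 0 + m 2) g ρ M N hdet (fun j => ?_) (fun j => ?_)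
    (fun j => ?_) hg hρ hρg hM hN
  · rw [hmin]
    exact (phi_one m hm _).trans hg2
  · rw [hmin]
    exact phi_two_dvd m hm _
  · rw [hmin]
    have h1 := natDegree_phi (k := k) (d := 1) (b := bt k) (fun i => by
      fin_cases i <;> simp [bt]) hm 0 (Fin.succ 1) j.succ
    rw [one_mul, hsum] at h1
    omega

end Pool.Agent.Y709.Gen
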