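import Pool.Agent.Y709.Gen.Lag
import Pool.Agent.Y709.Wt
import Mathlib.NumberTheory.MulChar.Lemmas
import Mathlib.Algebra.BigOperators.Field
import Mathlib.Tactic.LinearCombination

/-!
Character sums over the monic polynomials: the functional equation.
-/

set_option autoImplicit false
set_option linter.unusedSectionVars false

open Polynomial

namespace Pool.Agent.Y709.Gen

open Pool.Agent.W313.Hyp

section defs

variable {F : Type} [Field F] {ι : Type} [Fintype ι]

/-- the product of the powers of the coordinates -/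
def mp (μ : ι → ℕ) (y : ι → F) : F := ∏ l, y l ^ μ l

theorem mp_mul (μ : ι → ℕ) (y z : ι → F) : mp μ (fun l => y l * z l) = mp μ y * mp μ z := by
  unfold mp
  rw [← Finset.prod_mul_distrib]
  exact Finset.prod_congr rfl fun l _ => mul_pow _ _ _

theorem mp_smul (μ : ι → ℕ) (a : F) (z : ι → F) :
    mp μ (fun l => a * z l) = a ^ (∑ l, μ l) * mp μ z := by
  unfold mp
  rw [← Finset.prod_pow_eq_pow_sum, ← Finset.prod_mul_distrib]
  exact Finset.prod_congr rfl fun l _ => mul_pow _ _ _

theorem mp_ne_zero {μ : ι → ℕ} {y : ι → F} (hy : ∀ l, y l ≠ 0) : mp μ y ≠ 0 :=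
  Finset.prod_ne_zero_iff.2 fun l _ => pow_ne_zero _ (hy l)

theorem mp_eq_zero {μ : ι → ℕ} (hμ : ∀ l, 0 < μ l) {y : ι → F} {l : ι} (hy : y l = 0) :
    mp μ y = 0 :=
  Finset.prod_eq_zero (Finset.mem_univ l) (by rw [hy, zero_pow (hμ l).ne'])

end defs

variable {F : Type} [Field F] [Fintype F] [DecidableEq F] {R : Type} [CommRing R] [IsDomain R]
  {ι : Type} [Fintype ι] [DecidableEq ι]

theorem exists_ne {χ : MulChar F R} (hχ : χ ≠ 1) : ∃ a : Fˣ, χ a ≠ 1 := by
  by_contra h
  push Not at h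
  apply hχ
  apply MulChar.ext
  intro a
  rw [h a, MulChar.one_apply_coe]

/-- homogeneous sums vanish -/
theorem sum_homog' {μ : ι → ℕ} (hμ : 0 < ∑ l, μ l) {χ : MulChar F R} (hχ : χ ^ (∑ l, μ l) ≠ 1)
    (c : (ι → F) → R) (hc : ∀ (a : F) (z : ι → F), a ≠ 0 → c (fun l => a * z l) = c z) :
    ∑ z : ι → F, c z * χ (mp μ z) = 0 := by
  obtain ⟨a, ha⟩ := exists_ne hχ
  have ha0 : (a : F) ≠ 0 := a.ne_zero
  have h1 : ∑ z : ι → F, c z * χ (mp μ z) =
      ∑ z : ι → F, c (fun l => (a : F) * z l) * χ (mp μ (fun l => (a : F) * z l)) := by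
    refine (Fintype.sum_equiv (Equiv.piCongrRight fun _ : ι => Equiv.mulLeft₀ (a : F) ha0) _ _
      fun z => ?_).symm
    rfl
  have h2 : ∑ z : ι → F, c (fun l => (a : F) * z l) * χ (mp μ (fun l => (a : F) * z l)) =
      (χ ^ (∑ l, μ l)) a * ∑ z : ι → F, c z * χ (mp μ z) := by
    rw [Finset.mul_sum]
    refine Finset.sum_congr rfl fun z _ => ?_
    rw [hc a z ha0, mp_smul, MulChar.pow_apply' χ hμ.ne', ← map_pow, map_mul]
    ring
  rw [h2] at h1
  have h3 : (1 - (χ ^ (∑ l, μ l)) a) * ∑ z : ι → F, c z * χ (mp μ z) = 0 := by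
    rw [sub_mul, one_mul, ← h1, sub_self]
  rcases mul_eq_zero.1 h3 with h | h
  · exact absurd (sub_eq_zero.1 h).symm ha
  · exact h

/-- the substitution in the coordinates -/
theorem sum_subst {μ : ι → ℕ} (hμ : ∀ l, 0 < μ l) {χ : MulChar F R} (hχ : ∀ l, χ ^ μ l ≠ 1)
    (α y : ι → F) :
    ∑ z : ι → F, (if ∑ l, α l * (y l * z l) = 1 then χ⁻¹ (mp μ z) else 0) =
      χ (mp μ y) * ∑ z : ι → F, (if ∑ l, α l * z l = 1 then χ⁻¹ (mp μ z) else 0) := by
  by_cases hy : ∀ l, y l ≠ 0
  · rw [Finset.mul_sum]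
    refine Fintype.sum_equiv (Equiv.piCongrRight fun l : ι => Equiv.mulLeft₀ (y l) (hy l)) _ _
      fun z => ?_
    show _ = χ (mp μ y) * (if ∑ l, α l * (y l * z l) = 1 then χ⁻¹ (mp μ (fun l => y l * z l)) else 0)
    rw [mul_ite, mul_zero, mp_mul, map_mul, ← mul_assoc, ← MulChar.mul_apply, mul_inv_cancel,
      MulChar.one_apply (isUnit_iff_ne_zero.2 (mp_ne_zero hy)), one_mul]
  · push Not at hy
    obtain ⟨l, hl⟩ := hy
    rw [mp_eq_zero hμ hl, MulChar.map_zero, zero_mul]
    have hχ' : (χ⁻¹) ^ μ l ≠ 1 := by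
      rw [inv_pow]
      exact inv_ne_one.2 (hχ l)
    obtain ⟨a, ha⟩ := exists_ne hχ'
    have ha0 : (a : F) ≠ 0 := a.ne_zero
    set S := ∑ z : ι → F, (if ∑ l, α l * (y l * z l) = 1 then χ⁻¹ (mp μ z) else 0) with hS
    have h1 : S = ((χ⁻¹) ^ μ l) a * S := by
      conv_lhs => rw [hS]
      conv_rhs => rw [hS]
      rw [Finset.mul_sum]
      symm
      refine Fintype.sum_equiv (Equiv.piCongrRight fun i : ι =>
        if i = l then Equiv.mulLeft₀ (a : F) ha0 else Equiv.refl F) _ _ fun z => ?_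
      set z' := (Equiv.piCongrRight fun i : ι =>
        if i = l then Equiv.mulLeft₀ (a : F) ha0 else Equiv.refl F) z with hz'
      have hz1 : z' l = a * z l := by
        rw [hz', Equiv.piCongrRight_apply, Pi.map_apply, if_pos rfl]
        rfl
      have hz2 : ∀ i, i ≠ l → z' i = z i := by
        intro i hi
        rw [hz', Equiv.piCongrRight_apply, Pi.map_apply, if_neg hi]
        rfl
      have h2 : ∑ i, α i * (y i * z' i) = ∑ i, α i * (y i * z i) := by
        refine Finset.sum_congr rfl fun i _ => ?_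
        by_cases hi : i = l
        · rw [hi, hl, zero_mul, zero_mul]
        · rw [hz2 i hi]
      have h3 : mp μ z' = (a : F) ^ μ l * mp μ z := by
        unfold mp
        rw [← Finset.mul_prod_erase Finset.univ (fun i => z' i ^ μ i) (Finset.mem_univ l),
          ← Finset.mul_prod_erase Finset.univ (fun i => z i ^ μ i) (Finset.mem_univ l), hz1,
          mul_pow, mul_assoc]
        congr 2
        refine Finset.prod_congr rfl fun i hi => ?_
        rw [hz2 i (Finset.ne_of_mem_erase hi)]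
      rw [h2, h3, map_mul, MulChar.pow_apply' _ (hμ l).ne', ← map_pow, mul_ite, mul_zero]
    have h3 : (1 - ((χ⁻¹) ^ μ l) a) * S = 0 := by
      rw [sub_mul, one_mul, ← h1, sub_self]
    rcases mul_eq_zero.1 h3 with h | h
    · exact absurd (sub_eq_zero.1 h).symm ha
    · exact h

section mon

variable {m : ℕ} (hm : Fintype.card ι = m + 1) {β : ι → F} (hβ : Function.Injective β)

theorem degree_lt_of_mon {h : F[X]} {j : ℕ} (hmon : h.Monic) (hd : h.natDegree = j) (hj : j ≤ m) :
    h.degree < ((m + 1 : ℕ) : WithBot ℕ) := by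
  rw [degree_eq_natDegree hmon.ne_zero, hd]
  exact_mod_cast Nat.lt_succ_of_le hj

include hm hβ in
/-- the monic polynomials as vectors -/
theorem sum_mon {j : ℕ} (hj : j ≤ m) (f : (ι → F) → R) :
    ∑ h ∈ (finite_mon (F := F) j).toFinset, f (fun l => h.eval (β l)) =
      ∑ z : ι → F, if (interp β z).natDegree ≤ j ∧ (interp β z).coeff j = 1 then f z else 0 := by
  rw [← Finset.sum_filter]
  refine Finset.sum_bij' (fun h _ => fun l => h.eval (β l)) (fun z _ => interp β z)
    ?_ ?_ ?_ ?_ ?_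
  · intro h hh
    rw [Set.Finite.mem_toFinset] at hh
    rw [Finset.mem_filter, interp_eval hm hβ (degree_lt_of_mon hh.1 hh.2 hj)]
    refine ⟨Finset.mem_univ _, hh.2.le, ?_⟩
    rw [← hh.2]
    exact hh.1.coeff_natDegree
  · intro z hz
    rw [Finset.mem_filter] at hz
    rw [Set.Finite.mem_toFinset]
    have h1 := monic_of_natDegree_le_of_coeff_eq_one j hz.2.1 hz.2.2
    refine ⟨h1, le_antisymm hz.2.1 ?_⟩
    apply le_natDegree_of_ne_zero
    rw [hz.2.2]
    exact one_ne_zero
  · intro h hh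
    rw [Set.Finite.mem_toFinset] at hh
    exact interp_eval hm hβ (degree_lt_of_mon hh.1 hh.2 hj)
  · intro z _
    funext l
    exact eval_interp hβ z l
  · intro h _
    rfl

/-- the linear form -/
theorem form_eq {h : F[X]} {z : ι → F} (hd : (h * interp β z).degree < ((m + 1 : ℕ) : WithBot ℕ))
    (hm : Fintype.card ι = m + 1) (hβ : Function.Injective β) :
    ∑ l, (gd β l)⁻¹ * (h.eval (β l) * z l) = (h * interp β z).coeff m := by
  rw [← sum_res hm hβ hd]
  refine Finset.sum_congr rfl fun l _ => ?_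
  rw [eval_mul, eval_interp hβ, div_eq_mul_inv, mul_comm]

/-- the number of solutions -/
noncomputable def Nz (R : Type) [CommRing R] (β : ι → F) (j : ℕ) (z : ι → F) : R :=
  ∑ h ∈ (finite_mon (F := F) j).toFinset,
    if ∑ l, (gd β l)⁻¹ * (h.eval (β l) * z l) = 1 then 1 else 0

theorem sum_mon_one (j : ℕ) :
    ∑ _h ∈ (finite_mon (F := F) j).toFinset, (1 : R) = (Fintype.card F : R) ^ j := by
  rw [Finset.sum_const, nsmul_one]
  have h1 : (finite_mon (F := F) j).toFinset.card = Nat.card (Mon F j) := by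
    rw [← Set.ncard_eq_toFinset_card _ (finite_mon j)]
    exact (Nat.card_coe_set_eq _).symm
  rw [h1, card_mon, Nat.card_eq_fintype_card, Nat.cast_pow]

include hm hβ in
theorem Nz_small {j : ℕ} (hj : j ≤ m) {z : ι → F} (hz : (interp β z).natDegree ≤ m - j) :
    Nz R β j z = if (interp β z).coeff (m - j) = 1 then (Fintype.card F : R) ^ j else 0 := by
  unfold Nz
  have h1 : ∀ h ∈ (finite_mon (F := F) j).toFinset,
      ∑ l, (gd β l)⁻¹ * (h.eval (β l) * z l) = (interp β z).coeff (m - j) := by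
    intro h hh
    rw [Set.Finite.mem_toFinset] at hh
    have h2 := coeff_mul_add_eq_of_natDegree_le (f := h) (g := interp β z) (df := j) (dg := m - j)
      hh.2.le hz
    have h3 : h.coeff j = 1 := by
      rw [← hh.2]
      exact hh.1.coeff_natDegree
    rw [h3, one_mul, Nat.add_sub_cancel' hj] at h2
    rw [← h2]
    refine form_eq ?_ hm hβ
    refine lt_of_le_of_lt degree_le_natDegree ?_
    have h4 : (h * interp β z).natDegree ≤ j + (m - j) :=
      natDegree_mul_le.trans (Nat.add_le_add hh.2.le hz)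
    exact_mod_cast (by omega : (h * interp β z).natDegree < m + 1)
  rw [Finset.sum_congr rfl fun h hh => by rw [h1 h hh]]
  split_ifs
  · exact sum_mon_one j
  · exact Finset.sum_const_zero

include hm hβ in
theorem Nz_large {j : ℕ} (hj : j ≤ m) {z : ι → F} (hz : ¬ (interp β z).natDegree ≤ m - j) {a : F}
    (ha : a ≠ 0) : Nz R β j (fun l => a * z l) = Nz R β j z := by
  have hle : (interp β z).natDegree ≤ m := by
    have h1 := degree_interp hm β z
    by_cases h0 : interp β z = 0
    · rw [h0, natDegree_zero]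
      exact Nat.zero_le _
    · exact Nat.lt_succ_iff.1 ((natDegree_lt_iff_degree_lt h0).2 h1)
  set Z := interp β z with hZ
  set e := Z.natDegree with he
  have hZ0 : Z ≠ 0 := by
    intro h0
    apply hz
    rw [he, h0, natDegree_zero]
    exact Nat.zero_le _
  have hlc : Z.coeff e ≠ 0 := by
    rw [he]
    exact mt leadingCoeff_eq_zero.1 hZ0
  set c := Z.coeff e with hc
  -- the form of the monomial
  have h1 : ∑ l, (gd β l)⁻¹ * (((X : F[X]) ^ (m - e)).eval (β l) * z l) = c := by
    rw [form_eq (m := m) ?_ hm hβ, coeff_X_pow_mul', if_pos (by omega), ← hZ, hc]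
    · congr 1
      omega
    · refine lt_of_le_of_lt degree_le_natDegree ?_
      have h4 : ((X : F[X]) ^ (m - e) * interp β z).natDegree ≤ (m - e) + e := by
        refine natDegree_mul_le.trans ?_
        rw [natDegree_X_pow]
      exact_mod_cast (by omega : ((X : F[X]) ^ (m - e) * interp β z).natDegree < m + 1)
  have h2 : ∀ (t : F) (h : F[X]), ∑ l, (gd β l)⁻¹ * ((h + C t * X ^ (m - e)).eval (β l) * z l) =
      ∑ l, (gd β l)⁻¹ * (h.eval (β l) * z l) + t * c := by
    intro t h
    rw [← h1, Finset.mul_sum, ← Finset.sum_add_distrib]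
    refine Finset.sum_congr rfl fun l _ => ?_
    rw [eval_add, eval_mul, eval_C]
    ring
  have hdeg : ∀ (t : F) (h : F[X]), h.Monic → h.natDegree = j →
      (h + C t * X ^ (m - e)).Monic ∧ (h + C t * X ^ (m - e)).natDegree = j := by
    intro t h hh hhj
    have h3 : (C t * X ^ (m - e) : F[X]).degree < h.degree := by
      refine (degree_C_mul_X_pow_le _ _).trans_lt ?_
      rw [degree_eq_natDegree hh.ne_zero, hhj]
      exact_mod_cast (by omega : m - e < j)
    refine ⟨hh.add_of_left h3, ?_⟩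
    rw [natDegree_add_eq_left_of_degree_lt h3, hhj]
  unfold Nz
  refine Finset.sum_bij' (fun h _ => h + C ((1 - a⁻¹) / c) * X ^ (m - e))
    (fun h _ => h + C (-((1 - a⁻¹) / c)) * X ^ (m - e)) ?_ ?_ ?_ ?_ ?_
  · intro h hh
    rw [Set.Finite.mem_toFinset] at hh ⊢
    exact hdeg _ _ hh.1 hh.2
  · intro h hh
    rw [Set.Finite.mem_toFinset] at hh ⊢
    exact hdeg _ _ hh.1 hh.2
  · intro h _
    rw [C_neg]
    ring
  · intro h _
    rw [C_neg]
    ring
  · intro h _
    rw [h2, div_mul_cancel₀ _ hlc]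
    have h3 : ∑ l, (gd β l)⁻¹ * (h.eval (β l) * (a * z l)) =
        a * ∑ l, (gd β l)⁻¹ * (h.eval (β l) * z l) := by
      rw [Finset.mul_sum]
      refine Finset.sum_congr rfl fun l _ => ?_
      ring
    rw [h3]
    congr 1
    rw [eq_iff_iff]
    constructor
    · intro h4
      rw [← mul_right_inj' ha, mul_add, h4, mul_sub, mul_inv_cancel₀ ha]
      ring
    · intro h4
      have h5 : ∑ l, (gd β l)⁻¹ * (h.eval (β l) * z l) = a⁻¹ := by
        linear_combination h4
      rw [h5, mul_inv_cancel₀ ha]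

theorem interp_smul (a : F) (z : ι → F) : interp β (fun l => a * z l) = C a * interp β z := by
  unfold interp
  rw [Finset.mul_sum]
  refine Finset.sum_congr rfl fun l _ => ?_
  rw [mul_div_assoc, C_mul, mul_assoc]

include hm hβ in
/-- **the functional equation of the sums over the monic polynomials** -/
theorem mon_fe {μ : ι → ℕ} (hμ : ∀ l, 0 < μ l) {χ : MulChar F R} (hχ : ∀ l, χ ^ μ l ≠ 1)
    (hχn : χ ^ (∑ l, μ l) ≠ 1) {j : ℕ} (hj : j ≤ m) :
    monSum (fun h => χ (mp μ (fun l => h.eval (β l)))) j *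
      monSum (fun h => χ⁻¹ (mp μ (fun l => h.eval (β l)))) m =
    (Fintype.card F : R) ^ j *
      monSum (fun h => χ⁻¹ (mp μ (fun l => h.eval (β l)))) (m - j) := by
  have hne : Nonempty ι := Fintype.card_pos_iff.1 (by rw [hm]; omega)
  have hμ0 : 0 < ∑ l, μ l := Finset.sum_pos (fun l _ => hμ l) Finset.univ_nonempty
  have hχn' : (χ⁻¹) ^ (∑ l, μ l) ≠ 1 := by
    rw [inv_pow]
    exact inv_ne_one.2 hχn
  have hnd : ∀ z : ι → F, (interp β z).natDegree ≤ m := by
    intro z
    have h1 := degree_interp hm β z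
    by_cases h0 : interp β z = 0
    · rw [h0, natDegree_zero]
      exact Nat.zero_le _
    · exact Nat.lt_succ_iff.1 ((natDegree_lt_iff_degree_lt h0).2 h1)
  -- the top sum
  have hT : monSum (fun h => χ⁻¹ (mp μ (fun l => h.eval (β l)))) m =
      ∑ z : ι → F, (if ∑ l, (gd β l)⁻¹ * z l = 1 then χ⁻¹ (mp μ z) else 0) := by
    unfold monSum
    rw [sum_mon hm hβ le_rfl (fun z => χ⁻¹ (mp μ z))]
    refine Finset.sum_congr rfl fun z _ => ?_
    have h1 : (interp β z).coeff m = ∑ l, (gd β l)⁻¹ * z l := by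
      rw [coeff_interp hm]
      refine Finset.sum_congr rfl fun l _ => ?_
      rw [div_eq_mul_inv, mul_comm]
    rw [h1]
    simp only [hnd z, true_and]
  have h1 : monSum (fun h => χ (mp μ (fun l => h.eval (β l)))) j *
      monSum (fun h => χ⁻¹ (mp μ (fun l => h.eval (β l)))) m =
      ∑ z : ι → F, Nz R β j z * χ⁻¹ (mp μ z) := by
    rw [hT]
    unfold monSum Nz
    rw [Finset.sum_mul]
    have h2 : ∀ h : F[X], χ (mp μ (fun l => h.eval (β l))) *
        ∑ z : ι → F, (if ∑ l, (gd β l)⁻¹ * z l = 1 then χ⁻¹ (mp μ z) else 0) =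
        ∑ z : ι → F, (if ∑ l, (gd β l)⁻¹ * (h.eval (β l) * z l) = 1 then 1 else 0) *
          χ⁻¹ (mp μ z) := by
      intro h
      rw [← sum_subst hμ hχ]
      refine Finset.sum_congr rfl fun z _ => ?_
      rw [ite_mul, one_mul, zero_mul]
    rw [Finset.sum_congr rfl fun h _ => h2 h, Finset.sum_comm]
    refine Finset.sum_congr rfl fun z _ => ?_
    rw [Finset.sum_mul]
  rw [h1]
  have h2 : ∀ z : ι → F, Nz R β j z * χ⁻¹ (mp μ z) =
      (if (interp β z).natDegree ≤ m - j ∧ (interp β z).coeff (m - j) = 1 then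
        (Fintype.card F : R) ^ j * χ⁻¹ (mp μ z) else 0) +
      (if (interp β z).natDegree ≤ m - j then 0 else Nz R β j z) * χ⁻¹ (mp μ z) := by
    intro z
    by_cases hz : (interp β z).natDegree ≤ m - j
    · rw [Nz_small hm hβ hj hz, if_pos hz, zero_mul, add_zero]
      simp only [hz, true_and]
      rw [ite_mul, zero_mul]
    · rw [if_neg hz, if_neg (fun h => hz h.1), zero_add]
  rw [Finset.sum_congr rfl fun z _ => h2 z, Finset.sum_add_distrib,
    sum_homog' hμ0 hχn' (fun z => if (interp β z).natDegree ≤ m - j then 0 else Nz R β j z), add_zero,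
    ← sum_mon hm hβ (Nat.sub_le m j) (fun z => (Fintype.card F : R) ^ j * χ⁻¹ (mp μ z)),
    ← Finset.mul_sum]
  · rfl
  · intro a z ha
    have h3 : (interp β (fun l => a * z l)).natDegree = (interp β z).natDegree := by
      rw [interp_smul, natDegree_C_mul ha]
    rw [h3]
    split_ifs with h4
    · rfl
    · exact Nz_large hm hβ hj h4 ha

end mon

end Pool.Agent.Y709.Gen
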