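import Pool.Agent.Y709.Gen.Intg

/-!
The degrees of the entries of the matrix `Φ`.
-/

set_option autoImplicit false
set_option linter.unusedSectionVars false

open Polynomial

namespace Pool.Agent.Y709.Gen

variable {k : Type} [Field k]

/-- the weighted degree is at most `D` -/
def WB (d D : ℕ) (H : k[X][X]) : Prop :=
  ∀ e, H.coeff e = 0 ∨ (H.coeff e).natDegree + d * e ≤ D

theorem WB.mul {d D D' : ℕ} {H H' : k[X][X]} (h : WB d D H) (h' : WB d D' H') :
    WB d (D + D') (H * H') := by
  intro e
  rw [coeff_mul]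
  by_cases he : d * e ≤ D + D'
  · right
    have h1 : (∑ x ∈ Finset.antidiagonal e, H.coeff x.1 * H'.coeff x.2).natDegree ≤
        D + D' - d * e := by
      refine natDegree_sum_le_of_forall_le _ _ fun x hx => ?_
      rw [Finset.mem_antidiagonal] at hx
      rcases h x.1 with h1 | h1
      · rw [h1, zero_mul, natDegree_zero]
        exact Nat.zero_le _
      rcases h' x.2 with h2 | h2
      · rw [h2, mul_zero, natDegree_zero]
        exact Nat.zero_le _
      refine natDegree_mul_le.trans ?_
      have h3 : d * e = d * x.1 + d * x.2 := by rw [← hx, Nat.mul_add]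
      omega
    omega
  · left
    refine Finset.sum_eq_zero fun x hx => ?_
    rw [Finset.mem_antidiagonal] at hx
    rcases h x.1 with h1 | h1
    · rw [h1, zero_mul]
    rcases h' x.2 with h2 | h2
    · rw [h2, mul_zero]
    have h3 : d * e = d * x.1 + d * x.2 := by rw [← hx, Nat.mul_add]
    omega

theorem WB.one (d : ℕ) : WB d 0 (1 : k[X][X]) := by
  intro e
  rw [coeff_one]
  split_ifs with h
  · right
    rw [h, natDegree_one, mul_zero, add_zero]
  · left
    rfl

theorem WB.X_sub {d : ℕ} {b : k[X]} (hb : b.natDegree ≤ d) : WB d d (X - C b) := by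
  intro e
  rw [coeff_sub, coeff_X, coeff_C]
  rcases e with _ | e
  · right
    rw [if_neg one_ne_zero, if_pos rfl, zero_sub, natDegree_neg, mul_zero, add_zero]
    exact hb
  · rcases e with _ | e
    · right
      simp
    · left
      rw [if_neg (by omega), if_neg (by omega), sub_zero]

theorem WB.pow {d D : ℕ} {H : k[X][X]} (h : WB d D H) (n : ℕ) : WB d (D * n) (H ^ n) := by
  induction n with
  | zero =>
    rw [pow_zero, mul_zero]
    exact WB.one d
  | succ n ih =>
    rw [pow_succ, Nat.mul_succ]
    exact ih.mul h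

theorem WB.prod {d : ℕ} {κ : Type} (s : Finset κ) {D : κ → ℕ} {H : κ → k[X][X]}
    (h : ∀ i, WB d (D i) (H i)) : WB d (∑ i ∈ s, D i) (∏ i ∈ s, H i) := by
  classical
  induction s using Finset.induction_on with
  | empty =>
    rw [Finset.sum_empty, Finset.prod_empty]
    exact WB.one d
  | insert i s hi ih =>
    rw [Finset.sum_insert hi, Finset.prod_insert hi]
    exact (h i).mul ih

theorem WB.intg {d D : ℕ} {H : k[X][X]} (h : WB d D H) : WB d (D + d) (intg k H) := by
  intro e
  rcases e with _ | e
  · left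
    exact coeff_intg_zero k H
  · rw [coeff_intg_succ]
    rcases h e with h1 | h1
    · left
      rw [h1, mul_zero]
    · right
      have h2 : (algebraMap k k[X] (((e : k) + 1)⁻¹) * H.coeff e).natDegree ≤
          (H.coeff e).natDegree := by
        rw [algebraMap_eq]
        exact natDegree_C_mul_le _ _
      rw [Nat.mul_succ]
      omega

theorem WB.eval {d D : ℕ} {H : k[X][X]} (h : WB d D H) {b : k[X]} (hb : b.natDegree ≤ d) :
    (H.eval b).natDegree ≤ D := by
  rw [eval_eq_sum_range]
  refine natDegree_sum_le_of_forall_le _ _ fun e _ => ?_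
  rcases h e with h1 | h1
  · rw [h1, zero_mul, natDegree_zero]
    exact Nat.zero_le _
  · refine natDegree_mul_le.trans ?_
    have h2 : (b ^ e).natDegree ≤ e * d := natDegree_pow_le.trans (Nat.mul_le_mul_left e hb)
    rw [mul_comm] at h2
    omega

variable {κ : Type} [Fintype κ] [DecidableEq κ]

theorem natDegree_phi {d : ℕ} {b : κ → k[X]} (hb : ∀ i, (b i).natDegree ≤ d) {m : κ → ℕ}
    (hm : ∀ i, 0 < m i) (o i j : κ) : (phi k b m o i j).natDegree ≤ d * ∑ i, m i := by
  have h1 : WB d (d * (m j - 1) + ∑ i ∈ Finset.univ.erase j, d * m i) (gj b m j) :=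
    ((WB.X_sub (hb j)).pow _).mul (WB.prod _ fun i => (WB.X_sub (hb i)).pow _)
  have h2 : d * (m j - 1) + ∑ i ∈ Finset.univ.erase j, d * m i + d = d * ∑ i, m i := by
    rw [← Finset.mul_sum, ← Finset.add_sum_erase Finset.univ m (Finset.mem_univ j)]
    obtain ⟨a, ha⟩ : ∃ a, m j = a + 1 := ⟨m j - 1, by have := hm j; omega⟩
    rw [ha, Nat.add_sub_cancel]
    ring
  have h3 := h1.intg
  rw [h2] at h3
  unfold phi
  rw [Matrix.of_apply, natDegree_neg]
  refine natDegree_mul_le.trans ?_
  rw [natDegree_natCast, zero_add]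
  exact (natDegree_sub_le _ _).trans (max_le (h3.eval (hb i)) (h3.eval (hb o)))

end Pool.Agent.Y709.Gen
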