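import Mathlib.Algebra.Polynomial.Derivative
import Mathlib.Algebra.Polynomial.AlgebraMap
import Mathlib.Data.Matrix.Basic
import Mathlib.Algebra.Polynomial.BigOperators
import Mathlib.Algebra.Polynomial.Degree.Lemmas

/-!
Antiderivatives and the matrix `Φ`.
-/

set_option autoImplicit false
set_option linter.unusedSectionVars false

open Polynomial

namespace Pool.Agent.Y709.Gen

section intg

variable (k : Type) [Field k] {A B : Type} [CommRing A] [Algebra k A] [CommRing B] [Algebra k B]

/-- the antiderivative without constant term -/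
noncomputable def intg (H : A[X]) : A[X] :=
  ∑ i ∈ Finset.range (H.natDegree + 1),
    C (algebraMap k A (((i : k) + 1)⁻¹) * H.coeff i) * X ^ (i + 1)

theorem coeff_intg_zero (H : A[X]) : (intg k H).coeff 0 = 0 := by
  unfold intg
  rw [finsetSum_coeff]
  refine Finset.sum_eq_zero fun i _ => ?_
  rw [coeff_C_mul, coeff_X_pow, if_neg (Nat.succ_ne_zero i).symm, mul_zero]

theorem coeff_intg_succ (H : A[X]) (i : ℕ) :
    (intg k H).coeff (i + 1) = algebraMap k A (((i : k) + 1)⁻¹) * H.coeff i := by
  unfold intg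
  rw [finsetSum_coeff]
  by_cases h : i ≤ H.natDegree
  · rw [Finset.sum_eq_single i]
    · rw [coeff_C_mul, coeff_X_pow, if_pos rfl, mul_one]
    · intro j _ hj
      rw [coeff_C_mul, coeff_X_pow, if_neg, mul_zero]
      omega
    · intro h'
      exact absurd (Finset.mem_range.2 (by omega)) h'
  · rw [coeff_eq_zero_of_natDegree_lt (by omega : H.natDegree < i), mul_zero]
    refine Finset.sum_eq_zero fun j hj => ?_
    rw [Finset.mem_range] at hj
    rw [coeff_C_mul, coeff_X_pow, if_neg, mul_zero]
    omega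

theorem intg_add (H H' : A[X]) : intg k (H + H') = intg k H + intg k H' := by
  ext i
  rcases i with _ | i
  · rw [coeff_add, coeff_intg_zero, coeff_intg_zero, coeff_intg_zero, add_zero]
  · rw [coeff_add, coeff_intg_succ, coeff_intg_succ, coeff_intg_succ, coeff_add, mul_add]

theorem intg_C_mul (a : A) (H : A[X]) : intg k (C a * H) = C a * intg k H := by
  ext i
  rcases i with _ | i
  · rw [coeff_C_mul, coeff_intg_zero, coeff_intg_zero, mul_zero]
  · rw [coeff_C_mul, coeff_intg_succ, coeff_intg_succ, coeff_C_mul]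
    ring

theorem natDegree_intg (H : A[X]) : (intg k H).natDegree ≤ H.natDegree + 1 := by
  rw [natDegree_le_iff_coeff_eq_zero]
  intro n hn
  obtain ⟨i, rfl⟩ : ∃ i, n = i + 1 := ⟨n - 1, by omega⟩
  rw [coeff_intg_succ, coeff_eq_zero_of_natDegree_lt (by omega), mul_zero]

theorem derivative_intg (H : A[X]) (h : ∀ i, i ≤ H.natDegree → ((i : k) + 1) ≠ 0) :
    derivative (intg k H) = H := by
  ext i
  rw [coeff_derivative, coeff_intg_succ]
  by_cases hi : i ≤ H.natDegree
  · have h1 : algebraMap k A (((i : k) + 1)⁻¹) * ((i : A) + 1) = 1 := by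
      rw [← map_natCast (algebraMap k A) i, ← map_one (algebraMap k A), ← map_add, ← map_mul,
        inv_mul_cancel₀ (h i hi)]
    rw [mul_right_comm, h1, one_mul]
  · rw [coeff_eq_zero_of_natDegree_lt (by omega), mul_zero, zero_mul]

theorem map_intg (f : A →+* B) (hf : ∀ a : k, f (algebraMap k A a) = algebraMap k B a)
    (H : A[X]) : (intg k H).map f = intg k (H.map f) := by
  ext i
  rw [coeff_map]
  rcases i with _ | i
  · rw [coeff_intg_zero, coeff_intg_zero, map_zero]
  · rw [coeff_intg_succ, coeff_intg_succ, map_mul, hf, coeff_map]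

end intg

section phi

variable (k : Type) [Field k] {A B : Type} [CommRing A] [Algebra k A] [CommRing B] [Algebra k B]
variable {κ : Type} [Fintype κ] [DecidableEq κ]

/-- the polynomial `∏ (x - b_i) ^ m_i` divided by `x - b_j` -/
noncomputable def gj (b : κ → A) (m : κ → ℕ) (j : κ) : A[X] :=
  (X - C (b j)) ^ (m j - 1) * ∏ i ∈ Finset.univ.erase j, (X - C (b i)) ^ m i

theorem mul_gj (b : κ → A) {m : κ → ℕ} (hm : ∀ i, 0 < m i) (j : κ) :
    (X - C (b j)) * gj b m j = ∏ i, (X - C (b i)) ^ m i := by
  unfold gj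
  rw [← mul_assoc, ← pow_succ', Nat.sub_add_cancel (hm j),
    Finset.mul_prod_erase Finset.univ (fun i => (X - C (b i)) ^ m i) (Finset.mem_univ j)]

theorem natDegree_gj (b : κ → A) {m : κ → ℕ} (hm : ∀ i, 0 < m i) (j : κ) :
    (gj b m j).natDegree + 1 ≤ ∑ i, m i := by
  have h1 : (gj b m j).natDegree ≤ (m j - 1) + ∑ i ∈ Finset.univ.erase j, m i := by
    unfold gj
    refine natDegree_mul_le.trans (Nat.add_le_add ?_ ?_)
    · refine natDegree_pow_le.trans ?_
      refine (Nat.mul_le_mul_left _ (natDegree_X_sub_C_le _)).trans (by rw [mul_one])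
    · refine (natDegree_prod_le _ _).trans (Finset.sum_le_sum fun i _ => ?_)
      refine natDegree_pow_le.trans ?_
      exact (Nat.mul_le_mul_left _ (natDegree_X_sub_C_le _)).trans (by rw [mul_one])
  have h2 := Finset.add_sum_erase Finset.univ m (Finset.mem_univ j)
  have h3 := hm j
  omega

theorem map_gj (f : A →+* B) (b : κ → A) (m : κ → ℕ) (j : κ) :
    (gj b m j).map f = gj (fun i => f (b i)) m j := by
  unfold gj
  rw [Polynomial.map_mul, Polynomial.map_pow, Polynomial.map_prod]
  simp

/-- the matrix `Φ` -/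
noncomputable def phi (b : κ → A) (m : κ → ℕ) (o : κ) : Matrix κ κ A :=
  Matrix.of fun i j => -((m j : A) *
    ((intg k (gj b m j)).eval (b i) - (intg k (gj b m j)).eval (b o)))

theorem phi_row (b : κ → A) (m : κ → ℕ) {o i : κ} (h : b i = b o) (j : κ) :
    phi k b m o i j = 0 := by
  unfold phi
  rw [Matrix.of_apply, h, sub_self, mul_zero, neg_zero]

theorem map_phi (f : A →+* B) (hf : ∀ a : k, f (algebraMap k A a) = algebraMap k B a)
    (b : κ → A) (m : κ → ℕ) (o i j : κ) :
    f (phi k b m o i j) = phi k (fun i => f (b i)) m o i j := by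
  unfold phi
  rw [Matrix.of_apply, Matrix.of_apply, map_neg, map_mul, map_natCast, map_sub, ← eval_map_apply,
    ← eval_map_apply, map_intg k f hf, map_gj]

end phi

end Pool.Agent.Y709.Gen
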