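import Pool.Agent.Y709.Gen.Lag
import Pool.Agent.Y709.Gen.Intg
import Pool.Agent.Y709.Cart
import Pool.Agent.Y709.Red

/-!
The duality between the matrices of the two opposite characters.
-/

set_option autoImplicit false
set_option linter.unusedSectionVars false

open Polynomial

namespace Pool.Agent.Y709.Gen

section cart

variable {F : Type} [Field F] {p : ℕ} [hp : Fact p.Prime] [CharP F p] {f q : ℕ} (hq : q = p ^ f)
  (hf : 0 < f)

include hq in
/-- the value of the Cartier operator on a polynomial divisible by a high power -/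
theorem cart_pow_eval (b : F) (K : F[X]) :
    (cart q ((X - C b) ^ (q - 1) * K)).eval (b ^ q) = K.eval b := by
  have hq0 : 0 < q := by rw [hq]; exact pow_pos hp.out.pos f
  obtain ⟨K1, hK⟩ : X - C b ∣ K - C (K.eval b) := by
    rw [dvd_iff_isRoot, IsRoot.def, eval_sub, eval_C, sub_self]
  have hK' : K = C (K.eval b) + (X - C b) * K1 := by
    rw [← hK]
    ring
  have h1 : (X - C b) ^ (q - 1) * K = C (K.eval b) * (X - C b) ^ (q - 1) +
      expand F q (X - C (b ^ q)) * K1 := by
    have h2 : expand F q (X - C (b ^ q)) = (X - C b) ^ (q - 1) * (X - C b) := by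
      rw [← pow_succ, Nat.sub_add_cancel hq0, map_sub, expand_X, expand_C, C_pow, hq,
        sub_pow_char_pow]
    rw [h2]
    conv_lhs => rw [hK']
    ring
  have h3 : cart q ((X - C b) ^ (q - 1)) = 1 := by
    ext i
    rw [coeff_cart hq0, coeff_sub_pow hq, coeff_one]
    rcases Nat.eq_zero_or_pos i with h | h
    · subst h
      rw [mul_zero, zero_add, if_pos (by omega), Nat.sub_self, pow_zero, if_pos rfl]
    · rw [if_neg, if_neg h.ne']
      have : q * 1 ≤ q * i := Nat.mul_le_mul_left q h
      omega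
  rw [h1, cart_add hq0, cart_C_mul hq0, h3, cart_expand_mul hq0, eval_add, eval_mul, eval_mul,
    eval_sub, eval_X, eval_C, eval_C, sub_self, zero_mul, add_zero, eval_one, mul_one]

omit [Field F] hp [CharP F p] in
theorem pow_dvd_of_derivative {F : Type} [Field F] {J : F[X]} {b : F} {μ : ℕ} (hμ : 0 < μ)
    (hJ : J.eval b = 0) (hJ' : (X - C b) ^ (μ - 1) ∣ derivative J)
    (hinv : ∀ j : ℕ, 0 < j → j < μ → (j : F) ≠ 0) : (X - C b) ^ μ ∣ J := by
  have h1 : ∀ j : ℕ, j < μ → (X - C b) ^ (j + 1) ∣ J := by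
    intro j
    induction j with
    | zero =>
      intro _
      rw [zero_add, pow_one, dvd_iff_isRoot, IsRoot.def, hJ]
    | succ j ih =>
      intro hj
      obtain ⟨K, hK⟩ := ih (by omega)
      have h2 : derivative J = (X - C b) ^ j * (C ((j : F) + 1) * K + (X - C b) * derivative K) := by
        rw [hK, derivative_mul, derivative_X_sub_C_pow, Nat.add_sub_cancel]
        push_cast
        ring
      have h3 : (X - C b) ^ (j + 1) ∣ derivative J :=
        (pow_dvd_pow _ (by omega)).trans hJ'
      rw [h2, pow_succ] at h3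
      have h4 := (mul_dvd_mul_iff_left (pow_ne_zero j (X_sub_C_ne_zero b))).1 h3
      have h5 : (X - C b) ∣ C ((j : F) + 1) * K :=
        (dvd_add_left (dvd_mul_right _ _)).1 h4
      have h6 : ((j : F) + 1) ≠ 0 := by
        have := hinv (j + 1) (by omega) hj
        push_cast at this
        exact this
      have h7 : (X - C b) ∣ K := by
        rw [dvd_iff_isRoot, IsRoot.def] at h5 ⊢
        rw [eval_mul, eval_C] at h5
        exact (mul_eq_zero.1 h5).resolve_left h6
      obtain ⟨K', hK'⟩ := h7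
      rw [hK, hK', pow_succ (X - C b) (j + 1)]
      exact mul_dvd_mul_left _ (dvd_mul_right _ _)
  have h2 := h1 (μ - 1) (by omega)
  rwa [Nat.sub_add_cancel hμ] at h2

end cart

section dual

variable {k F : Type} [Field k] [Field F] [Algebra k F] {p : ℕ} [hp : Fact p.Prime] [CharP F p]
  {f q : ℕ} (hq : q = p ^ f) (hf : 0 < f) {ι : Type} [Fintype ι] [DecidableEq ι]

/-- the polynomial of the inverse character -/
noncomputable def GG (q : ℕ) {F : Type} [Field F] {ι : Type} [Fintype ι] (β : ι → F) (μ : ι → ℕ) :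
    F[X] := ∏ l, (X - C (β l)) ^ (q - 1 - μ l)

/-- the matrix of the inverse character -/
noncomputable def Am (q m : ℕ) {F : Type} [Field F] {ι : Type} [Fintype ι] (β : ι → F)
    (μ : ι → ℕ) : Matrix (Fin m × Unit) (Fin m × Unit) F := kmat q m (one' (GG q β μ))

theorem natDegree_GG {β : ι → F} {μ : ι → ℕ} (hμ : ∀ l, μ l < q) :
    (GG q β μ).natDegree + ∑ l, μ l = Fintype.card ι * (q - 1) := by
  unfold GG
  rw [natDegree_prod_of_monic _ _ fun l _ => (monic_X_sub_C _).pow _]
  simp only [natDegree_pow, natDegree_X_sub_C, mul_one]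
  rw [← Finset.sum_add_distrib, ← smul_eq_mul, ← Finset.card_univ, ← Finset.sum_const]
  refine Finset.sum_congr rfl fun l _ => ?_
  have := hμ l
  omega

include hq hf in
theorem gd_frob (β : ι → F) (l : ι) : gd (fun i => β i ^ q) l = gd β l ^ q := by
  unfold gd oth
  rw [eval_prod, eval_prod, ← Finset.prod_pow]
  refine Finset.prod_congr rfl fun i _ => ?_
  rw [eval_sub, eval_sub, eval_X, eval_X, eval_C, eval_C, hq, sub_pow_char_pow]

include hq hf in
theorem Em_mul_Am {m : ℕ} (hm : Fintype.card ι = m + 1) {β : ι → F} {μ : ι → ℕ}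
    (hμ : ∀ l, μ l < q) (hμ0 : ∀ l, 0 < μ l) (l : ι) (a : Fin m) :
    (Em m (fun i => β i ^ q) * Am q m β μ) l (a, ()) =
      (cart q (X ^ (a : ℕ) * GG q β μ)).eval (β l ^ q) / gd β l ^ q := by
  have hq0 : 0 < q := by rw [hq]; exact pow_pos hp.out.pos f
  have hdeg : (cart q (X ^ (a : ℕ) * GG q β μ)).degree < (m : WithBot ℕ) := by
    rw [degree_lt_iff_coeff_zero]
    intro i hi
    rw [coeff_cart hq0]
    apply coeff_eq_zero_of_natDegree_lt
    refine natDegree_mul_le.trans_lt ?_
    rw [natDegree_X_pow]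
    have h1 := natDegree_GG (β := β) hμ
    have h2 : 0 < ∑ l, μ l := Finset.sum_pos (fun l _ => hμ0 l) ⟨l, Finset.mem_univ l⟩
    have h3 : q * m ≤ q * i := Nat.mul_le_mul_left q hi
    have h4 : (m + 1) * (q - 1) + (m + 1) = q * m + q := by
      rw [← Nat.mul_succ, Nat.succ_eq_add_one, Nat.sub_add_cancel hq0]
      ring
    have h5 := a.2
    rw [hm] at h1
    omega
  rw [Matrix.mul_apply, Fintype.sum_prod_type]
  simp only [Finset.univ_unique, Finset.sum_singleton]
  rw [eval_of_degree_lt hdeg, Finset.sum_div]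
  refine Finset.sum_congr rfl fun i _ => ?_
  unfold Em Am kmat one'
  rw [Matrix.of_apply, Matrix.of_apply, Matrix.of_apply, gd_frob hq hf, coeff_cart hq0]
  have h6 : (X ^ ((a : ℕ) + 1) * GG q β μ).coeff (q * ((i : ℕ) + 1)) =
      (X ^ (a : ℕ) * GG q β μ).coeff (q * (i : ℕ) + (q - 1)) := by
    rw [pow_succ', mul_assoc, show q * ((i : ℕ) + 1) = (q * (i : ℕ) + (q - 1)) + 1 by
      rw [Nat.mul_add]; omega, coeff_X_mul]
  show _ * (X ^ ((a : ℕ) + 1) * GG q β μ).coeff (q * ((i : ℕ) + 1)) = _
  rw [h6]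
  ring

/-- the polynomial `g` -/
noncomputable def gg {F : Type} [Field F] {ι : Type} [Fintype ι] (β : ι → F) (μ : ι → ℕ) : F[X] :=
  ∏ l, (X - C (β l)) ^ μ l

theorem gg_split (β : ι → F) (μ : ι → ℕ) (l : ι) :
    gg β μ = (X - C (β l)) ^ μ l * ∏ i ∈ Finset.univ.erase l, (X - C (β i)) ^ μ i :=
  (Finset.mul_prod_erase Finset.univ (fun i => (X - C (β i)) ^ μ i) (Finset.mem_univ l)).symm

include hq hf in
/-- the auxiliary polynomial -/
theorem exists_aux {β : ι → F} (hβ : Function.Injective β) {μ : ι → ℕ} (hμ : ∀ l, 0 < μ l)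
    (hinv : ∀ i : ℕ, i < ∑ l, μ l → ((i : k) + 1) ≠ 0) (o j : ι) :
    ∃ E : F[X], (∀ l, E.eval (β l) = if l = j then 1 else 0) ∧
      expand F q (interp (fun i => β i ^ q) (fun l => phi k β μ o l j)) =
        gg β μ * E - (C ((μ j : F)) * intg k (gj β μ j) -
          C ((μ j : F) * (intg k (gj β μ j)).eval (β o))) := by
  have hq0 : 0 < q := by rw [hq]; exact pow_pos hp.out.pos f
  have hqF : (q : F) = 0 := cast_q' hq hf
  have hβq : Function.Injective (fun i => β i ^ q) := by
    intro a b h
    apply hβ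
    have h' : β a ^ q = β b ^ q := h
    have h1 : (β a - β b) ^ q = 0 := by
      rw [hq, sub_pow_char_pow, ← hq, h', sub_self]
    exact sub_eq_zero.1 (eq_zero_of_pow_eq_zero h1)
  have hle : ∀ l, μ l ≤ ∑ i, μ i := fun l =>
    Finset.single_le_sum (f := μ) (fun i _ => Nat.zero_le _) (Finset.mem_univ l)
  have hinvF : ∀ i : ℕ, 0 < i → i ≤ ∑ l, μ l → (i : F) ≠ 0 := by
    intro i hi hi' h
    apply hinv (i - 1) (by omega)
    apply (algebraMap k F).injective
    rw [map_add, map_natCast, map_one, map_zero, Nat.cast_sub hi, Nat.cast_one, h]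
    ring
  set I : F[X] := expand F q (interp (fun i => β i ^ q) (fun l => phi k β μ o l j)) with hI
  set J : F[X] := I + (C ((μ j : F)) * intg k (gj β μ j) -
          C ((μ j : F) * (intg k (gj β μ j)).eval (β o))) with hJ
  have hIev : ∀ l, I.eval (β l) = phi k β μ o l j := by
    intro l
    rw [hI, expand_eval]
    exact eval_interp hβq (fun l => phi k β μ o l j) l
  have hJev : ∀ l, J.eval (β l) = 0 := by
    intro l
    rw [hJ, eval_add, hIev, eval_sub, eval_mul, eval_C, eval_C]
    unfold phi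
    rw [Matrix.of_apply]
    ring
  have hJd : derivative J = C ((μ j : F)) * gj β μ j := by
    rw [hJ, derivative_add, derivative_sub, derivative_C, derivative_C_mul, sub_zero, hI,
      derivative_expand, derivative_intg]
    · have h1 : ((q : ℕ) : F[X]) = 0 := by
        rw [← C_eq_natCast, hqF, C_0]
      rw [h1, zero_mul, mul_zero, zero_add]
    · intro i hi
      have h1 := natDegree_gj β hμ j
      exact hinv i (by omega)
  have hgj : ∀ l, (X - C (β l)) ^ (μ l - 1) ∣ gj β μ j := by
    intro l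
    unfold gj
    by_cases h : l = j
    · subst h
      exact dvd_mul_right _ _
    · refine Dvd.dvd.mul_left ?_ _
      exact (pow_dvd_pow _ (Nat.sub_le _ _)).trans
        (Finset.dvd_prod_of_mem (fun i => (X - C (β i)) ^ μ i)
          (Finset.mem_erase.2 ⟨h, Finset.mem_univ l⟩))
  have hdvd : ∀ l, (X - C (β l)) ^ μ l ∣ J := by
    intro l
    refine pow_dvd_of_derivative (hμ l) (hJev l) ?_ fun i hi hi' => hinvF i hi ?_
    · rw [hJd]
      exact Dvd.dvd.mul_left (hgj l) _
    · exact (hi'.le).trans (hle l)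
  obtain ⟨E, hE⟩ : gg β μ ∣ J := by
    refine Finset.prod_dvd_of_coprime ?_ fun l _ => hdvd l
    intro a _ b _ hab
    refine IsCoprime.pow ?_
    exact pairwise_coprime_X_sub_C hβ hab
  refine ⟨E, ?_, ?_⟩
  · intro l
    set h : F[X] := ∏ i ∈ Finset.univ.erase l, (X - C (β i)) ^ μ i with hh
    have hhl : h.eval (β l) ≠ 0 := by
      rw [hh, eval_prod, Finset.prod_ne_zero_iff]
      intro i hi
      rw [eval_pow, eval_sub, eval_X, eval_C]
      exact pow_ne_zero _ (sub_ne_zero.2 fun h' => (Finset.ne_of_mem_erase hi) (hβ h'.symm))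
    have h1 : derivative J = (X - C (β l)) ^ (μ l - 1) *
        (C ((μ l : F)) * (h * E) + (X - C (β l)) * derivative (h * E)) := by
      rw [hE, gg_split β μ l, ← hh, mul_assoc, derivative_mul, derivative_X_sub_C_pow]
      conv_lhs =>
        rw [show (X - C (β l)) ^ μ l * derivative (h * E) =
          (X - C (β l)) ^ (μ l - 1) * (X - C (β l)) * derivative (h * E) by
            rw [← pow_succ, Nat.sub_add_cancel (hμ l)]]
      ring
    have h2 : C ((μ j : F)) * gj β μ j = (X - C (β l)) ^ (μ l - 1) *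
        (if l = j then C ((μ j : F)) * h else C ((μ j : F)) * ((X - C (β l)) *
          ((X - C (β j)) ^ (μ j - 1) *
            ∏ i ∈ (Finset.univ.erase j).erase l, (X - C (β i)) ^ μ i))) := by
      split_ifs with hlj
      · subst hlj
        unfold gj
        ring
      · unfold gj
        rw [← Finset.mul_prod_erase (Finset.univ.erase j) (fun i => (X - C (β i)) ^ μ i)
          (Finset.mem_erase.2 ⟨hlj, Finset.mem_univ l⟩)]
        have h3 : (X - C (β l)) ^ μ l = (X - C (β l)) ^ (μ l - 1) * (X - C (β l)) := by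
          rw [← pow_succ, Nat.sub_add_cancel (hμ l)]
        rw [h3]
        ring
    rw [hJd, h2] at h1
    have h3 := mul_left_cancel₀ (pow_ne_zero _ (X_sub_C_ne_zero (β l))) h1
    have h4 := congrArg (eval (β l)) h3
    rw [eval_add, eval_mul, eval_C, eval_mul, eval_mul, eval_sub, eval_X, eval_C, sub_self,
      zero_mul, add_zero] at h4
    have hμl : ((μ l : ℕ) : F) ≠ 0 := hinvF _ (hμ l) (hle l)
    split_ifs at h4 ⊢ with hlj
    · subst hlj
      rw [eval_mul, eval_C] at h4
      have h5 := mul_left_cancel₀ hμl h4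
      have h6 : h.eval (β l) * 1 = h.eval (β l) * E.eval (β l) := by rw [mul_one]; exact h5
      exact (mul_left_cancel₀ hhl h6).symm
    · rw [eval_mul, eval_mul, eval_sub, eval_X, eval_C, eval_C, sub_self, zero_mul, mul_zero] at h4
      have h5 := mul_eq_zero.1 h4.symm
      exact (mul_eq_zero.1 (h5.resolve_left hμl)).resolve_left hhl
  · rw [← hE, hJ]
    ring

include hq hf in
/-- **the duality** -/
theorem dual_id {m : ℕ} (hm : Fintype.card ι = m + 1) {β : ι → F} (hβ : Function.Injective β)
    {μ : ι → ℕ} (hμ : ∀ l, 0 < μ l) (hμq : ∀ l, μ l < q)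
    (hinv : ∀ i : ℕ, i < ∑ l, μ l → ((i : k) + 1) ≠ 0) (o : ι) :
    (phi k β μ o).transpose * (Em m (fun i => β i ^ q) * Am q m β μ) = Em m β := by
  have hq0 : 0 < q := by rw [hq]; exact pow_pos hp.out.pos f
  have hβq : Function.Injective (fun i => β i ^ q) := by
    intro a b h
    apply hβ
    have h' : β a ^ q = β b ^ q := h
    have h1 : (β a - β b) ^ q = 0 := by
      rw [hq, sub_pow_char_pow, ← hq, h', sub_self]
    exact sub_eq_zero.1 (eq_zero_of_pow_eq_zero h1)
  refine Matrix.ext fun j a => ?_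
  obtain ⟨a, ⟨⟩⟩ := a
  obtain ⟨E, hE, hI⟩ := exists_aux (k := k) hq hf hβ hμ hinv o j
  set I := interp (fun i => β i ^ q) (fun l => phi k β μ o l j) with hIdef
  have hIev : ∀ l, I.eval (β l ^ q) = phi k β μ o l j := fun l =>
    eval_interp hβq (fun l => phi k β μ o l j) l
  rw [Matrix.mul_apply]
  simp only [Matrix.transpose_apply, Em_mul_Am hq hf hm hμq hμ]
  set S := C ((μ j : F)) * intg k (gj β μ j) - C ((μ j : F) * (intg k (gj β μ j)).eval (β o))
    with hS
  -- the terms of the sum
  have h1 : ∀ l, phi k β μ o l j * ((cart q (X ^ (a : ℕ) * GG q β μ)).eval (β l ^ q) / gd β l ^ q) =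
      (cart q (gg β μ * E * (X ^ (a : ℕ) * GG q β μ))).eval (β l ^ q) / gd β l ^ q -
      (cart q (S * (X ^ (a : ℕ) * GG q β μ))).eval (β l ^ q) / gd β l ^ q := by
    intro l
    rw [← hIev, ← mul_div_assoc, ← eval_mul, ← cart_expand_mul hq0, hI, sub_mul, cart_sub hq0,
      eval_sub, sub_div]
  have h2 : ∀ l, (cart q (gg β μ * E * (X ^ (a : ℕ) * GG q β μ))).eval (β l ^ q) / gd β l ^ q =
      if l = j then β l ^ (a : ℕ) / gd β l else 0 := by
    intro l
    have h3 : gg β μ * E * (X ^ (a : ℕ) * GG q β μ) =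
        (X - C (β l)) ^ (q - 1) * ((oth β l) ^ (q - 1) * (E * X ^ (a : ℕ))) := by
      have h4 : gg β μ * GG q β μ = (X - C (β l)) ^ (q - 1) * (oth β l) ^ (q - 1) := by
        rw [← mul_pow]
        have h5 : (X - C (β l)) * oth β l = ∏ i, (X - C (β i)) :=
          Finset.mul_prod_erase Finset.univ (fun i => (X - C (β i))) (Finset.mem_univ l)
        rw [h5, ← Finset.prod_pow]
        unfold gg GG
        rw [← Finset.prod_mul_distrib]
        refine Finset.prod_congr rfl fun i _ => ?_
        rw [← pow_add]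
        congr 1
        have := hμq i
        omega
      calc gg β μ * E * (X ^ (a : ℕ) * GG q β μ) = (gg β μ * GG q β μ) * (E * X ^ (a : ℕ)) := by
            ring
        _ = _ := by rw [h4]; ring
    rw [h3, cart_pow_eval hq, eval_mul, eval_pow, eval_mul, hE, eval_pow, eval_X]
    have h6 : (oth β l).eval (β l) = gd β l := rfl
    have h7 := gd_ne_zero hβ l
    rw [h6]
    split_ifs
    · rw [one_mul]
      have h8 : gd β l ^ q = gd β l ^ (q - 1) * gd β l := by
        rw [← pow_succ, Nat.sub_add_cancel hq0]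
      rw [h8, mul_div_mul_left _ _ (pow_ne_zero _ h7)]
    · rw [zero_mul, mul_zero, zero_div]
  have h3 : ∑ l, (cart q (S * (X ^ (a : ℕ) * GG q β μ))).eval (β l ^ q) / gd β l ^ q = 0 := by
    have h4 : (cart q (S * (X ^ (a : ℕ) * GG q β μ))).degree < (m : WithBot ℕ) := by
      rw [degree_lt_iff_coeff_zero]
      intro i hi
      rw [coeff_cart hq0]
      apply coeff_eq_zero_of_natDegree_lt
      have hSd : S.natDegree ≤ ∑ l, μ l := by
        rw [hS]
        refine (natDegree_sub_le _ _).trans ?_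
        rw [natDegree_C, max_eq_left (Nat.zero_le _)]
        refine (natDegree_C_mul_le _ _).trans ((natDegree_intg k _).trans ?_)
        exact natDegree_gj β hμ j
      have h5 : (S * (X ^ (a : ℕ) * GG q β μ)).natDegree ≤
          S.natDegree + ((a : ℕ) + (GG q β μ).natDegree) := by
        refine natDegree_mul_le.trans (Nat.add_le_add_left ?_ _)
        refine natDegree_mul_le.trans ?_
        rw [natDegree_X_pow]
      have h6 := natDegree_GG (β := β) hμq
      have h7 : q * m ≤ q * i := Nat.mul_le_mul_left q hi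
      have h8 : (m + 1) * (q - 1) + (m + 1) = q * m + q := by
        rw [← Nat.mul_succ, Nat.succ_eq_add_one, Nat.sub_add_cancel hq0]
        ring
      have h9 := a.2
      rw [hm] at h6
      omega
    have h5 := sum_res_zero hm hβq h4
    rw [← h5]
    refine Finset.sum_congr rfl fun l _ => ?_
    rw [gd_frob hq hf]
  rw [Finset.sum_congr rfl fun l _ => h1 l, Finset.sum_sub_distrib, h3, sub_zero,
    Finset.sum_congr rfl fun l _ => h2 l, Finset.sum_ite_eq', if_pos (Finset.mem_univ j)]
  rfl

end dual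

end Pool.Agent.Y709.Gen
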