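import Pool.Agent.Y709.Gen.RedG

/-!
The functional equations of the fibres and their reductions.
-/

set_option autoImplicit false
set_option linter.unusedSectionVars false

open Polynomial

namespace Pool.Agent.Y709.Gen

open Pool.Agent.W313.Hyp Pool.Agent.W343.BSD

section sign

variable {F : Type} [Field F] {p : ℕ} [hp : Fact p.Prime] [CharP F p] {f q : ℕ} (hq : q = p ^ f)
  {ι : Type} [Fintype ι]

include hq in
theorem neg_one_pow_q : (-1 : F) ^ (q - 1) = 1 := by
  have hq0 : 0 < q := by rw [hq]; exact pow_pos hp.out.pos f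
  have h1 : (-1 : F) ^ q = -1 := by
    rw [hq]
    exact neg_one_pow_char_pow F p f
  have h2 : (-1 : F) ^ (q - 1) * (-1) = -1 := by
    rw [← pow_succ, Nat.sub_add_cancel hq0, h1]
  linear_combination -h2

include hq in
theorem sign_eq {μ : ι → ℕ} (hμ : ∀ l, μ l < q) (d : ℕ) :
    (-1 : F) ^ (∑ l, (q - 1 - μ l) * nex q d) = ((-1) ^ (∑ l, μ l)) ^ nex q d := by
  rw [← Finset.sum_mul, pow_mul]
  congr 1
  have h1 : (-1 : F) ^ (∑ l, (q - 1 - μ l)) * (-1) ^ (∑ l, μ l) = 1 := by
    rw [← pow_add, ← Finset.sum_add_distrib]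
    have h2 : ∀ l, q - 1 - μ l + μ l = q - 1 := by
      intro l
      have := hμ l
      omega
    rw [Finset.sum_congr rfl fun l _ => h2 l, Finset.sum_const, smul_eq_mul, mul_comm, pow_mul,
      neg_one_pow_q hq, one_pow]
  have h3 : (-1 : F) ^ (∑ l, μ l) * (-1) ^ (∑ l, μ l) = 1 := by
    rw [← mul_pow]
    simp
  calc (-1 : F) ^ (∑ l, (q - 1 - μ l)) = (-1 : F) ^ (∑ l, (q - 1 - μ l)) *
        ((-1) ^ (∑ l, μ l) * (-1) ^ (∑ l, μ l)) := by rw [h3, mul_one]
    _ = _ := by rw [← mul_assoc, h1, one_mul]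

end sign

section red

variable {k F R K : Type} [Field k] [Fintype k] [Field F] [Fintype F] [Algebra k F]
  [CommRing R] [IsDomain R] [Field K] {q d : ℕ} [FiniteDimensional k F]
  (π : R →+* K) (σ : F →+* K) (χ : MulChar k R)
  (hχ : ∀ u : k, π (χ u) = σ (algebraMap k F u)) {ι : Type} [Fintype ι] [DecidableEq ι]

include hχ in
/-- the reduction of the sums of the inverse character -/
theorem red_mon (h5 : 5 ≤ q) (hd : 0 < d) (hk : Fintype.card k = q)
    (hF : Fintype.card F = q ^ d) (β : ι → F) {μ : ι → ℕ} (hμ0 : ∀ l, 0 < μ l)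
    (hμ : ∀ l, μ l < q - 1) (j : ℕ) :
    π (monSum (fun h => (chiN F χ)⁻¹ (mp μ (fun l => h.eval (β l)))) j) =
      σ (monSum (fun h => ∏ l, (h.eval (β l)) ^ ((q - 1 - μ l) * nex q d)) j) := by
  have hn := nex_pos (q := q) (by omega) hd
  unfold monSum
  rw [map_sum, map_sum]
  refine Finset.sum_congr rfl fun h _ => ?_
  rw [red_inv π σ χ hχ h5 hd hk hF]
  congr 1
  unfold mp
  rw [← Finset.prod_pow]
  refine Finset.prod_congr rfl fun l _ => ?_
  rw [← pow_mul]
  show (h.eval (β l)) ^ (μ l * ex q d) = _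
  have h0 := hμ0 l
  have h1 := hμ l
  by_cases hy : h.eval (β l) = 0
  · rw [hy, zero_pow, zero_pow]
    · exact (Nat.mul_pos (by omega) hn).ne'
    · exact (Nat.mul_pos h0 (Nat.mul_pos (by omega) hn)).ne'
  · have h2 : μ l * ex q d = (q - 1 - μ l) * nex q d + (μ l - 1) * ((q - 1) * nex q d) := by
      unfold ex
      rw [← mul_assoc, ← mul_assoc, ← add_mul]
      congr 1
      obtain ⟨a, ha⟩ : ∃ a, μ l = a + 1 := ⟨μ l - 1, by omega⟩
      obtain ⟨b, hb⟩ : ∃ b, q = μ l + 1 + b := ⟨q - (μ l + 1), by omega⟩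
      rw [hb, ha]
      have e1 : a + 1 + 1 + b - 2 = a + b := by omega
      have e2 : a + 1 + 1 + b - 1 - (a + 1) = b := by omega
      have e3 : a + 1 + 1 + b - 1 = a + 1 + b := by omega
      rw [e1, e2, e3, Nat.add_sub_cancel]
      ring
    rw [h2, pow_add, nex_mul (by omega), ← hF, mul_comm (μ l - 1), pow_mul _ (Fintype.card F - 1),
      FiniteField.pow_card_sub_one_eq_one _ hy, one_pow, mul_one]

variable [CharZero R]

include hχ in
/-- **the functional equation of a fibre and its reduction** -/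
theorem fibre_feG (hu : ∀ r : R, π r ≠ 0 → IsUnit r) {p f : ℕ} [Fact p.Prime] [CharP F p]
    (hq : q = p ^ f) (hf : 0 < f) (hk : Fintype.card k = q) (h5 : 5 ≤ q)
    (hd : 0 < d) (hF : Fintype.card F = q ^ d) {κ : Type} [Fintype κ] [DecidableEq κ]
    {m : κ → ℕ} (hm : ∀ i, 0 < m i) (hmq : ∑ i, m i < q - 1)
    (hinv : ∀ i : ℕ, i < ∑ l, m l → ((i : k) + 1) ≠ 0) (c : F) (b : κ → F) (o : κ) :
    ∃ P : R[X], P.coeff 0 = 1 ∧
      fibG R χ (C c * ∏ i, (X - C (b i)) ^ m i) *
        PowerSeries.rescale ((q : R) ^ d) (P : PowerSeries R) = 1 ∧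
      P.map π = (mprod (fun j => (c ^ (q ^ j)) • phi k (cjb q b j) m o) d).charpolyRev.map σ := by
  classical
  have hmp : mprod (fun j => (c ^ (q ^ j)) • phi k (cjb q b j) m o) d =
      c ^ nex q d • mprod (fun j => phi k (cjb q b j) m o) d := by
    rw [mprod_smul, pow_nex]
  by_cases hc : c = 0
  · refine ⟨1, coeff_one_zero, ?_, ?_⟩
    · rw [hc, C_0, zero_mul, fibG_zero, one_mul, Polynomial.coe_one, map_one]
    · rw [hmp, hc, zero_pow (nex_pos (by omega) hd).ne', zero_smul]
      unfold Matrix.charpolyRev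
      rw [Matrix.map_zero _ C_0, smul_zero, sub_zero, Matrix.det_one, Polynomial.map_one,
        Polynomial.map_one]
  -- the distinct branch points
  let ι := {x : F // x ∈ Finset.univ.image b}
  let s : κ → ι := fun i => ⟨b i, Finset.mem_image_of_mem b (Finset.mem_univ i)⟩
  let β : ι → F := Subtype.val
  have hs : Function.Surjective s := by
    rintro ⟨x, hx⟩
    obtain ⟨i, _, hi⟩ := Finset.mem_image.1 hx
    exact ⟨i, Subtype.ext hi⟩
  have hβ : Function.Injective β := Subtype.val_injective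
  have hbs : b = fun i => β (s i) := rfl
  obtain ⟨n, hn⟩ : ∃ n, Fintype.card ι = n + 1 :=
    ⟨Fintype.card ι - 1, by
      have : 0 < Fintype.card ι := Fintype.card_pos_iff.2 ⟨s o⟩
      omega⟩
  set μ := mu m s with hμdef
  have hμ : ∀ l, 0 < μ l := mu_pos hm hs
  have hμs : ∑ l, μ l = ∑ i, m i := sum_mu m s
  have hμle : ∀ l, μ l ≤ ∑ i, m i := by
    intro l
    rw [← hμs]
    exact Finset.single_le_sum (f := μ) (fun _ _ => Nat.zero_le _) (Finset.mem_univ l)
  have hμq : ∀ l, μ l < q - 1 := fun l => (hμle l).trans_lt hmq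
  have hμq' : ∀ l, μ l < q := fun l => lt_of_lt_of_le (hμq l) (Nat.sub_le _ _)
  have hinv' : ∀ i : ℕ, i < ∑ l, μ l → ((i : k) + 1) ≠ 0 := by
    rw [hμs]
    exact hinv
  have hne : ∀ l, ((mu m s l : ℕ) : F) ≠ 0 := by
    intro l h
    have h0 : 0 < mu m s l := hμ l
    have h1 : mu m s l ≤ ∑ i, m i := hμle l
    apply hinv (mu m s l - 1) (by omega)
    apply (algebraMap k F).injective
    rw [map_add, map_natCast, map_one, map_zero, Nat.cast_sub h0, Nat.cast_one, h]
    ring
  have hper : cjb q β d = β := by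
    funext i
    unfold cjb
    rw [← hF, FiniteField.pow_card]
  have hm0 : 0 < ∑ i, m i := Finset.sum_pos (fun i _ => hm i) ⟨o, Finset.mem_univ o⟩
  set ψ := chiN F χ with hψ
  have hψ1 : ∀ l, ψ ^ μ l ≠ 1 := fun l => chiN_pow_ne π σ χ hχ hk hF hd (hμ l) (hμq l)
  have hψn : ψ ^ (∑ l, μ l) ≠ 1 := by
    rw [hμs]
    exact chiN_pow_ne π σ χ hχ hk hF hd hm0 hmq
  -- the matrices
  set A := mprod (fun j => Am q n (cjb q β j) μ) d with hA
  set c' := c ^ nex q d with hc'
  obtain ⟨hdet, hchar⟩ := charpoly_chain (k := k) hq hf hd hn hβ hper hμ hμq' hinv' (s o) c'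
  rw [← hA] at hdet hchar
  have hX : (mprod (fun j => (c ^ (q ^ j)) • phi k (cjb q b j) m o) d).charpolyRev =
      (c' • A⁻¹).charpolyRev := by
    rw [hmp, ← hchar]
    have h1 : (fun j => phi k (cjb q b j) m o) =
        fun j => Pu F s * phi k (cjb q β j) μ (s o) * Av F m s := by
      funext j
      exact phi_coll (k := k) hm hs hne (cjb q β j) o
    obtain ⟨e, he⟩ : ∃ e, d = e + 1 := ⟨d - 1, by omega⟩
    rw [h1, he, mprod_conj (Av_mul_Pu m s hne), ← he, Matrix.mul_assoc, ← Matrix.mul_smul,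
      charpolyRev_comm, Matrix.smul_mul, Matrix.mul_assoc, Av_mul_Pu m s hne, Matrix.mul_one]
  rw [hX]
  -- the sums
  set W : ℕ → R := fun j => monSum (fun h => ψ⁻¹ (mp μ (fun l => h.eval (β l)))) j with hW
  have hcardA : Fintype.card (Fin n × Unit) = n := by
    rw [Fintype.card_prod, Fintype.card_fin, Fintype.card_unit, mul_one]
  set s1 : F := ((-1) ^ (∑ i, m i)) ^ nex q d with hs1
  have hs1' : s1 * s1 = 1 := by
    rw [hs1, ← mul_pow, ← mul_pow]
    simp
  have hs10 : s1 ≠ 0 := by
    intro h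
    rw [h, zero_mul] at hs1'
    exact zero_ne_one hs1'
  have hWred : ∀ j, π (W j) = σ (s1 ^ j * A.charpolyRev.coeff j) := by
    intro j
    rw [hW]
    dsimp only
    rw [hψ, red_mon π σ χ hχ h5 hd hk hF β hμ hμq, monSum_coeff β _ n ?_ j]
    · congr 1
      rw [sign_eq hq hμq', hμs, ← hs1, hF, kmat_prod hq (by omega) hn β hμq' hμ, ← hA]
      unfold Matrix.charpolyRev
      have h1 : (X : F[X]) • (s1 • A).map C = (C s1 * X) • A.map C := by
        refine Matrix.ext fun i j => ?_
        rw [Matrix.smul_apply, Matrix.smul_apply, Matrix.map_apply, Matrix.map_apply,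
          Matrix.smul_apply, smul_eq_mul, smul_eq_mul, smul_eq_mul, C_mul]
        ring
      have h2 : (1 - (C s1 * X : F[X]) • A.map C).det =
          ((1 - (X : F[X]) • A.map C).det).comp (C s1 * X) := by
        rw [← coe_compRingHom_apply, RingHom.map_det]
        congr 1
        refine Matrix.ext fun i j => ?_
        rw [RingHom.mapMatrix_apply, Matrix.map_apply, Matrix.sub_apply, Matrix.sub_apply,
          Matrix.smul_apply, Matrix.smul_apply, Matrix.map_apply, coe_compRingHom_apply, sub_comp,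
          smul_eq_mul, smul_eq_mul, mul_comp, X_comp, C_comp, Matrix.one_apply]
        split_ifs
        · rw [one_comp]
        · rw [zero_comp]
      rw [h1, h2, comp_C_mul_X_coeff, mul_comm]
    · have h1 : ∑ l, (q - 1 - μ l) + ∑ l, μ l = (n + 1) * (q - 1) := by
        rw [← Finset.sum_add_distrib]
        have h2 : ∀ l, q - 1 - μ l + μ l = q - 1 := by
          intro l
          have := hμq l
          omega
        rw [Finset.sum_congr rfl fun l _ => h2 l, Finset.sum_const, smul_eq_mul,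
          Finset.card_univ, hn]
      rw [← Finset.sum_mul, hF, ← nex_mul (by omega)]
      have h3 : ∑ l, (q - 1 - μ l) < (n + 1) * (q - 1) := by
        rw [hμs] at h1
        omega
      calc (∑ l, (q - 1 - μ l)) * nex q d < ((n + 1) * (q - 1)) * nex q d :=
            Nat.mul_lt_mul_of_pos_right h3 (nex_pos (by omega) hd)
        _ = _ := by ring
  have hwu : IsUnit (W n) := by
    apply hu
    rw [hWred]
    refine (_root_.map_ne_zero σ).2 (mul_ne_zero (pow_ne_zero _ hs10) ?_)
    exact coeff_charpolyRev_top hdet hcardA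
  obtain ⟨w, hw⟩ := hwu
  have hww : (w : R) * ((w⁻¹ : Rˣ) : R) = 1 := by
    rw [← Units.val_mul, mul_inv_cancel]
    rfl
  set ch : F := (-1) ^ (∑ i, m i) * c with hch
  have hcoeff : ∀ j, (∑ i ∈ Finset.range (n + 1), C (ψ (ch ^ i) * W (n - i) * (w⁻¹ : Rˣ)) * X ^ i :
      R[X]).coeff j = if j ≤ n then ψ (ch ^ j) * W (n - j) * (w⁻¹ : Rˣ) else 0 := by
    intro j
    rw [finsetSum_coeff]
    simp only [coeff_C_mul, coeff_X_pow, mul_ite, mul_one, mul_zero]
    rw [Finset.sum_ite_eq]
    simp only [Finset.mem_range, Nat.lt_succ_iff]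
  refine ⟨∑ i ∈ Finset.range (n + 1), C (ψ (ch ^ i) * W (n - i) * (w⁻¹ : Rˣ)) * X ^ i, ?_, ?_, ?_⟩
  · rw [hcoeff, if_pos (Nat.zero_le _), pow_zero, map_one, one_mul, Nat.sub_zero, ← hw, hww]
  · have hE := fibG_eq (R := R) χ c b m
    rw [← hψ, ← hch] at hE
    have h4 : PowerSeries.mk (monSum (psiG ψ ch b m)) = PowerSeries.rescale ((q : R) ^ d)
        ((∑ i ∈ Finset.range (n + 1), C (ψ (ch ^ i) * W (n - i) * (w⁻¹ : Rˣ)) * X ^ i : R[X]) :
          PowerSeries R) := by
      ext j
      rw [PowerSeries.coeff_mk, PowerSeries.coeff_rescale, Polynomial.coeff_coe, hcoeff]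
      split_ifs with hj
      · have h5 := mon_fe (R := R) hn hβ hμ hψ1 hψn hj
        have h6 : monSum (psiG ψ ch b m) j =
            ψ (ch ^ j) * monSum (fun h => ψ (mp μ (fun l => h.eval (β l)))) j := by
          unfold monSum
          rw [Finset.mul_sum]
          refine Finset.sum_congr rfl fun h hh => ?_
          rw [Set.Finite.mem_toFinset] at hh
          unfold psiG
          rw [hh.2, map_mul]
          congr 2
          exact prod_mu m s (fun l => h.eval (β l))
        have h7 : W n = (w : R) := hw.symm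
        have h8 : monSum (fun h => ψ (mp μ (fun l => h.eval (β l)))) j * W n =
            (Fintype.card F : R) ^ j * W (n - j) := h5
        rw [h7, hF, Nat.cast_pow] at h8
        rw [h6]
        linear_combination (ψ (ch ^ j) * ((w⁻¹ : Rˣ) : R)) * h8 -
          (ψ (ch ^ j) * monSum (fun h => ψ (mp μ (fun l => h.eval (β l)))) j) * hww
      · rw [mul_zero]
        have hdeg : (∏ l : ι, (X - C (β l))).natDegree = n + 1 := by
          rw [natDegree_prod_of_monic _ _ fun l _ => monic_X_sub_C _]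
          simp only [natDegree_X_sub_C]
          rw [Finset.sum_const, smul_eq_mul, mul_one, Finset.card_univ, hn]
        refine monSum_zero' ch b hm0 (by rw [← hμs]; exact hψn) (∏ l : ι, (X - C (β l)))
          (monic_prod_of_monic _ _ fun l _ => monic_X_sub_C _) ?_ ?_
        · intro i
          rw [eval_prod]
          refine Finset.prod_eq_zero (Finset.mem_univ (s i)) ?_
          rw [eval_sub, eval_X, eval_C]
          exact sub_self _
        · rw [hdeg]
          omega
    rw [← h4]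
    exact hE
  · ext j
    rw [coeff_map, coeff_map, hcoeff]
    have htop := coeff_charpolyRev_top hdet hcardA
    split_ifs with hj
    · have h1 := coeff_charpolyRev_inv hdet c' hcardA hj
      have h2 : (c' • A⁻¹).charpolyRev.coeff j =
          c' ^ j * A.charpolyRev.coeff (n - j) / A.charpolyRev.coeff n := by
        rw [eq_div_iff htop, h1]
      have h9 : π (w⁻¹ : Rˣ) = (σ (s1 ^ n * A.charpolyRev.coeff n))⁻¹ := by
        have h10 : π (w : R) * π ((w⁻¹ : Rˣ) : R) = 1 := by
          rw [← map_mul, hww, map_one]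
        rw [hw, hWred] at h10
        exact eq_inv_of_mul_eq_one_right h10
      have h11 : π (ψ (ch ^ j)) = σ ((s1 * c') ^ j) := by
        rw [hψ, red_chi π σ χ hχ hk hF]
        congr 1
        rw [← pow_mul, mul_comm j, pow_mul, hch, mul_pow]
      rw [map_mul π, map_mul π, h11, hWred, h9, ← map_inv₀, ← map_mul, ← map_mul, h2]
      congr 1
      rw [mul_inv, div_eq_mul_inv, mul_pow]
      have h12 : s1 ^ j * s1 ^ (n - j) * (s1 ^ n)⁻¹ = 1 := by
        rw [← pow_add, Nat.add_sub_cancel' hj]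
        exact mul_inv_cancel₀ (pow_ne_zero _ hs10)
      linear_combination (c' ^ j * A.charpolyRev.coeff (n - j) * (A.charpolyRev.coeff n)⁻¹) * h12
    · rw [map_zero, coeff_eq_zero_of_natDegree_lt, map_zero]
      rw [← Matrix.reverse_charpoly]
      refine (reverse_natDegree_le _).trans_lt ?_
      rw [Matrix.charpoly_natDegree_eq_dim, hcardA]
      omega

end red

end Pool.Agent.Y709.Gen
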