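import Pool.Agent.Y709.Gen.Dual
import Pool.Agent.Y709.Loc
import Mathlib.LinearAlgebra.Matrix.SchurComplement
import Mathlib.LinearAlgebra.Matrix.Charpoly.Coeff

/-!
The characteristic polynomials of the products.
-/

set_option autoImplicit false
set_option linter.unusedSectionVars false

open Polynomial

namespace Pool.Agent.Y709.Gen

section rev

variable {F : Type} [Field F] {κ ι : Type} [Fintype κ] [DecidableEq κ] [Fintype ι]
  [DecidableEq ι]

theorem charpolyRev_comm (U : Matrix κ ι F) (V : Matrix ι κ F) :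
    (U * V).charpolyRev = (V * U).charpolyRev := by
  unfold Matrix.charpolyRev
  rw [Matrix.map_mul, Matrix.map_mul, ← Matrix.smul_mul, Matrix.det_one_sub_mul_comm,
    Matrix.mul_smul]

theorem charpolyRev_transpose (A : Matrix κ κ F) : A.transpose.charpolyRev = A.charpolyRev := by
  unfold Matrix.charpolyRev
  rw [← Matrix.det_transpose (1 - (X : F[X]) • A.map C)]
  congr 1
  rw [Matrix.transpose_sub, Matrix.transpose_one, Matrix.transpose_smul, Matrix.transpose_map]

theorem charpolyRev_inv_eq {A : Matrix κ κ F} (hA : A.det ≠ 0) (c : F) :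
    C A.det * (c • A⁻¹).charpolyRev = (-1) ^ Fintype.card κ * A.charpoly.comp (C c * X) := by
  have hu : IsUnit A.det := isUnit_iff_ne_zero.2 hA
  have h1 : C A.det = (A.map C).det := by
    have := RingHom.map_det (C : F →+* F[X]) A
    rw [this]
    rfl
  have h2 : A.charpoly.comp (C c * X) = ((C c * X) • (1 : Matrix κ κ F[X]) - A.map C).det := by
    unfold Matrix.charpoly
    rw [← coe_compRingHom_apply, RingHom.map_det]
    congr 1
    refine Matrix.ext fun i j => ?_
    rw [RingHom.mapMatrix_apply, Matrix.map_apply, Matrix.sub_apply, Matrix.smul_apply,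
      Matrix.map_apply, Matrix.charmatrix_apply, coe_compRingHom_apply, sub_comp, C_comp]
    congr 1
    rw [Matrix.diagonal_apply, Matrix.one_apply]
    split_ifs
    · rw [X_comp, smul_eq_mul, mul_one]
    · rw [zero_comp, smul_zero]
  rw [h1, h2]
  unfold Matrix.charpolyRev
  rw [← Matrix.det_mul, ← Matrix.det_neg]
  congr 1
  rw [mul_sub, mul_one, Matrix.mul_smul, neg_sub]
  congr 1
  have h3 : A.map C * (c • A⁻¹).map C = (C c : F[X]) • (1 : Matrix κ κ F[X]) := by
    have h4 : (A * (c • A⁻¹)).map C = A.map C * (c • A⁻¹).map C := Matrix.map_mul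
    rw [← h4, Matrix.mul_smul, Matrix.mul_nonsing_inv _ hu]
    refine Matrix.ext fun i j => ?_
    rw [Matrix.map_apply, Matrix.smul_apply, Matrix.smul_apply, smul_eq_mul, smul_eq_mul, C_mul,
      Matrix.one_apply, Matrix.one_apply]
    split_ifs
    · rw [C_1]
    · rw [C_0]
  rw [h3, smul_smul, mul_comm]

theorem coeff_charpolyRev_eq (A : Matrix κ κ F) {m j : ℕ} (hm : Fintype.card κ = m) (hj : j ≤ m) :
    A.charpolyRev.coeff j = A.charpoly.coeff (m - j) := by
  have h1 : A.charpoly.natDegree = m := by rw [Matrix.charpoly_natDegree_eq_dim, hm]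
  rw [← Matrix.reverse_charpoly, coeff_reverse, h1, revAt_le hj]

theorem coeff_charpolyRev_inv {A : Matrix κ κ F} (hA : A.det ≠ 0) (c : F) {m j : ℕ}
    (hm : Fintype.card κ = m) (hj : j ≤ m) :
    (c • A⁻¹).charpolyRev.coeff j * A.charpolyRev.coeff m =
      c ^ j * A.charpolyRev.coeff (m - j) := by
  have h1 := congrArg (fun g => coeff g j) (charpolyRev_inv_eq hA c)
  have h2 : ((-1 : F[X]) ^ Fintype.card κ * A.charpoly.comp (C c * X)).coeff j =
      (-1) ^ Fintype.card κ * (A.charpoly.coeff j * c ^ j) := by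
    rw [← C_1, ← C_neg, ← C_pow, coeff_C_mul, comp_C_mul_X_coeff]
  rw [h2, coeff_C_mul, Matrix.det_eq_sign_charpoly_coeff] at h1
  rw [coeff_charpolyRev_eq A hm le_rfl, coeff_charpolyRev_eq A hm (Nat.sub_le m j), Nat.sub_self,
    Nat.sub_sub_self hj]
  have h3 : ((-1 : F) ^ Fintype.card κ) ≠ 0 := pow_ne_zero _ (neg_ne_zero.2 one_ne_zero)
  apply mul_left_cancel₀ h3
  linear_combination h1

theorem coeff_charpolyRev_top {A : Matrix κ κ F} (hA : A.det ≠ 0) {m : ℕ}
    (hm : Fintype.card κ = m) : A.charpolyRev.coeff m ≠ 0 := by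
  rw [coeff_charpolyRev_eq A hm le_rfl, Nat.sub_self]
  intro h
  apply hA
  rw [Matrix.det_eq_sign_charpoly_coeff, h, mul_zero]

end rev

section coll

variable {k F : Type} [Field k] [Field F] [Algebra k F] {κ ι : Type} [Fintype κ] [DecidableEq κ]
  [Fintype ι] [DecidableEq ι]

/-- the multiplicities of the images -/
def mu (m : κ → ℕ) (s : κ → ι) (l : ι) : ℕ := ∑ i with s i = l, m i

theorem mu_pos {m : κ → ℕ} (hm : ∀ i, 0 < m i) {s : κ → ι} (hs : Function.Surjective s) (l : ι) :
    0 < mu m s l := by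
  obtain ⟨i, hi⟩ := hs l
  exact Finset.sum_pos (fun i _ => hm i) ⟨i, Finset.mem_filter.2 ⟨Finset.mem_univ i, hi⟩⟩

theorem sum_mu (m : κ → ℕ) (s : κ → ι) : ∑ l, mu m s l = ∑ i, m i := Finset.sum_fiberwise _ _ _

theorem prod_mu {M : Type} [CommMonoid M] (m : κ → ℕ) (s : κ → ι) (y : ι → M) :
    ∏ i, y (s i) ^ m i = ∏ l, y l ^ mu m s l := by
  rw [← Finset.prod_fiberwise Finset.univ s (fun i => y (s i) ^ m i)]
  refine Finset.prod_congr rfl fun l _ => ?_
  unfold mu
  rw [← Finset.prod_pow_eq_pow_sum]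
  refine Finset.prod_congr rfl fun i hi => ?_
  rw [(Finset.mem_filter.1 hi).2]

theorem gj_coll {m : κ → ℕ} (hm : ∀ i, 0 < m i) {s : κ → ι} (hs : Function.Surjective s)
    (β : ι → F) (j : κ) : gj (fun i => β (s i)) m j = gj β (mu m s) (s j) := by
  have h1 := mul_gj (fun i => β (s i)) hm j
  have h2 := mul_gj β (mu_pos hm hs) (s j)
  have h3 : ∏ i, (X - C (β (s i))) ^ m i = ∏ l, (X - C (β l)) ^ mu m s l :=
    prod_mu m s (fun l => X - C (β l))
  rw [h3, ← h2] at h1
  exact mul_left_cancel₀ (X_sub_C_ne_zero _) h1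

/-- the pull back -/
def Pu (F : Type) [Field F] (s : κ → ι) : Matrix κ ι F := Matrix.of fun i l => if s i = l then 1 else 0

/-- the weighted average -/
noncomputable def Av (F : Type) [Field F] (m : κ → ℕ) (s : κ → ι) : Matrix ι κ F :=
  Matrix.of fun l j => if s j = l then (m j : F) / (mu m s l : F) else 0

theorem Av_mul_Pu (m : κ → ℕ) (s : κ → ι) (hne : ∀ l, ((mu m s l : ℕ) : F) ≠ 0) :
    Av F m s * Pu F s = 1 := by
  refine Matrix.ext fun l l' => ?_
  rw [Matrix.mul_apply]
  unfold Av Pu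
  simp only [Matrix.of_apply]
  rw [Matrix.one_apply]
  by_cases h : l = l'
  · subst h
    rw [if_pos rfl]
    have h1 : ∀ i, (if s i = l then (m i : F) / (mu m s l : F) else 0) *
        (if s i = l then 1 else 0) = (if s i = l then (m i : F) else 0) / (mu m s l : F) := by
      intro i
      split_ifs
      · rw [mul_one]
      · rw [mul_zero, zero_div]
    rw [Finset.sum_congr rfl fun i _ => h1 i, ← Finset.sum_div, ← Finset.sum_filter]
    have h2 : ∑ i with s i = l, (m i : F) = ((mu m s l : ℕ) : F) := by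
      unfold mu
      rw [Nat.cast_sum]
    rw [h2, div_self (hne l)]
  · rw [if_neg h]
    refine Finset.sum_eq_zero fun i _ => ?_
    by_cases h1 : s i = l
    · rw [if_neg (fun h2 => h (h1.symm.trans h2)), mul_zero]
    · rw [if_neg h1, zero_mul]

theorem phi_coll {m : κ → ℕ} (hm : ∀ i, 0 < m i) {s : κ → ι} (hs : Function.Surjective s)
    (hne : ∀ l, ((mu m s l : ℕ) : F) ≠ 0) (β : ι → F) (o : κ) :
    phi k (fun i => β (s i)) m o = Pu F s * phi k β (mu m s) (s o) * Av F m s := by
  refine Matrix.ext fun i j => ?_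
  rw [Matrix.mul_apply, Finset.sum_eq_single (s j)]
  · rw [Matrix.mul_apply, Finset.sum_eq_single (s i)]
    · unfold phi Pu Av
      simp only [Matrix.of_apply, if_true]
      rw [gj_coll hm hs]
      have := hne (s j)
      field_simp
    · intro l _ hl
      unfold Pu
      rw [Matrix.of_apply, if_neg hl.symm, zero_mul]
    · intro h
      exact absurd (Finset.mem_univ _) h
  · intro l _ hl
    unfold Av
    rw [Matrix.of_apply, if_neg hl.symm, mul_zero]
  · intro h
    exact absurd (Finset.mem_univ _) h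

theorem mprod_conj {U : Matrix κ ι F} {V : Matrix ι κ F} (hUV : V * U = 1)
    (N : ℕ → Matrix ι ι F) (n : ℕ) :
    mprod (fun j => U * N j * V) (n + 1) = U * mprod N (n + 1) * V := by
  induction n with
  | zero =>
    rw [mprod_succ, mprod_succ]
    show U * N 0 * V * 1 = U * (N 0 * 1) * V
    rw [mul_one, mul_one]
  | succ n ih =>
    rw [mprod_succ, ih, mprod_succ N (n + 1)]
    calc U * N (n + 1) * V * (U * mprod N (n + 1) * V) =
        U * N (n + 1) * (V * U) * mprod N (n + 1) * V := by simp only [Matrix.mul_assoc]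
      _ = _ := by rw [hUV, Matrix.mul_one]; simp only [Matrix.mul_assoc]

end coll

section chain

variable {k F : Type} [Field k] [Field F] [Algebra k F] {p : ℕ} [hp : Fact p.Prime] [CharP F p]
  {f q : ℕ} (hq : q = p ^ f) (hf : 0 < f) {ι : Type} [Fintype ι] [DecidableEq ι]

/-- the conjugates of the branch points -/
def cjb {F : Type} [Field F] {κ : Type} (q : ℕ) (b : κ → F) (j : ℕ) : κ → F :=
  fun i => b i ^ (q ^ j)

include hq in
theorem cjb_inj {β : ι → F} (hβ : Function.Injective β) (j : ℕ) :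
    Function.Injective (cjb q β j) := by
  intro a b h
  apply hβ
  have h' : β a ^ (q ^ j) = β b ^ (q ^ j) := h
  have h1 : (β a - β b) ^ (q ^ j) = 0 := by
    have h2 : q ^ j = p ^ (f * j) := by rw [hq, ← pow_mul]
    rw [h2, sub_pow_char_pow, ← h2, h', sub_self]
  exact sub_eq_zero.1 (eq_zero_of_pow_eq_zero h1)

include hq hf in
theorem chain_id {m : ℕ} (hm : Fintype.card ι = m + 1) {β : ι → F} (hβ : Function.Injective β)
    {μ : ι → ℕ} (hμ : ∀ l, 0 < μ l) (hμq : ∀ l, μ l < q)
    (hinv : ∀ i : ℕ, i < ∑ l, μ l → ((i : k) + 1) ≠ 0) (o : ι) (n : ℕ) :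
    (mprod (fun j => phi k (cjb q β j) μ o) n).transpose *
      (Em m (cjb q β n) * mprod (fun j => Am q m (cjb q β j) μ) n) = Em m (cjb q β 0) := by
  induction n with
  | zero =>
    show (1 : Matrix ι ι F).transpose * (_ * (1 : Matrix (Fin m × Unit) (Fin m × Unit) F)) = _
    rw [Matrix.transpose_one, Matrix.one_mul, Matrix.mul_one]
  | succ n ih =>
    have h1 := dual_id (k := k) hq hf hm (cjb_inj hq hβ n) hμ hμq hinv o
    have h2 : (fun i => cjb q β n i ^ q) = cjb q β (n + 1) := by
      funext i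
      unfold cjb
      rw [← pow_mul, pow_succ]
    rw [h2] at h1
    rw [mprod_succ, mprod_succ, Matrix.transpose_mul]
    calc (mprod (fun j => phi k (cjb q β j) μ o) n).transpose *
          (phi k (cjb q β n) μ o).transpose *
          (Em m (cjb q β (n + 1)) * (Am q m (cjb q β n) μ *
            mprod (fun j => Am q m (cjb q β j) μ) n)) =
        (mprod (fun j => phi k (cjb q β j) μ o) n).transpose *
          (((phi k (cjb q β n) μ o).transpose *
            (Em m (cjb q β (n + 1)) * Am q m (cjb q β n) μ)) *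
            mprod (fun j => Am q m (cjb q β j) μ) n) := by simp only [Matrix.mul_assoc]
      _ = _ := by rw [h1, ih]

include hq hf in
/-- the characteristic polynomial of the product -/
theorem charpoly_chain {m d : ℕ} (hd : 0 < d) (hm : Fintype.card ι = m + 1) {β : ι → F}
    (hβ : Function.Injective β) (hper : cjb q β d = β) {μ : ι → ℕ} (hμ : ∀ l, 0 < μ l)
    (hμq : ∀ l, μ l < q) (hinv : ∀ i : ℕ, i < ∑ l, μ l → ((i : k) + 1) ≠ 0) (o : ι) (c : F) :
    (mprod (fun j => Am q m (cjb q β j) μ) d).det ≠ 0 ∧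
    (c • mprod (fun j => phi k (cjb q β j) μ o) d).charpolyRev =
      (c • (mprod (fun j => Am q m (cjb q β j) μ) d)⁻¹).charpolyRev := by
  have h0 : cjb q β 0 = β := by
    funext i
    unfold cjb
    rw [pow_zero, pow_one]
  have h1 := chain_id (k := k) hq hf hm hβ hμ hμq hinv o d
  rw [hper, h0] at h1
  set P := mprod (fun j => phi k (cjb q β j) μ o) d with hP
  set A := mprod (fun j => Am q m (cjb q β j) μ) d with hA
  have hE := Ep_mul_Em hm hβ o
  have h2 : (Ep m β o * P.transpose * Em m β) * A = 1 := by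
    rw [Matrix.mul_assoc, Matrix.mul_assoc, h1, hE]
  have hdet : A.det ≠ 0 := by
    intro h3
    have h4 := congrArg Matrix.det h2
    rw [Matrix.det_mul, h3, mul_zero, Matrix.det_one] at h4
    exact zero_ne_one h4
  have hu : IsUnit A.det := isUnit_iff_ne_zero.2 hdet
  refine ⟨hdet, ?_⟩
  have h3 : P.transpose * Em m β = Em m β * A⁻¹ := by
    have h4 := congrArg (fun M => M * A⁻¹) h1
    rwa [Matrix.mul_assoc, Matrix.mul_assoc, Matrix.mul_nonsing_inv _ hu, Matrix.mul_one] at h4
  have hrow : ∀ j, P o j = 0 := by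
    intro j
    obtain ⟨n, rfl⟩ : ∃ n, d = n + 1 := ⟨d - 1, by omega⟩
    rw [hP, mprod_succ, Matrix.mul_apply]
    refine Finset.sum_eq_zero fun i _ => ?_
    rw [phi_row k _ _ rfl, zero_mul]
  have h5 : P.transpose = Em m β * A⁻¹ * Ep m β o := by
    rw [← h3, Matrix.mul_assoc, Em_mul_Ep hm hβ]
    refine Matrix.ext fun i j => ?_
    rw [Matrix.mul_apply]
    simp only [Matrix.of_apply, mul_sub, mul_ite, mul_one, mul_zero, Finset.sum_sub_distrib,
      Finset.sum_ite_eq', Finset.mem_univ, if_true]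
    rw [Matrix.transpose_apply P i o, hrow, sub_zero]
  rw [← charpolyRev_transpose, Matrix.transpose_smul, h5, ← Matrix.smul_mul, charpolyRev_comm,
    Matrix.mul_smul, ← Matrix.mul_assoc, hE, Matrix.one_mul]

end chain

end Pool.Agent.Y709.Gen
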