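import Pool.Agent.Y709.Fix
import Pool.Agent.Y709.Gen.Mat
import Mathlib.FieldTheory.RatFunc.AsPolynomial

/-!
The fixed vectors and the determinant of `Φ`.
-/

set_option autoImplicit false
set_option linter.unusedSectionVars false

open Polynomial

namespace Pool.Agent.Y709.Gen

section fix

variable {k K : Type} [Field k] [Field K] [Algebra k K] {κ : Type} [Fintype κ] [DecidableEq κ]

/-- a fixed vector from the eigenvalue one -/
theorem fixed_of_detG (q m : ℕ) (hq : 2 ≤ q) (M : Matrix κ κ k[X])
    (hdeg : ∀ i j, (M i j).natDegree < (q - 1) * (m + 1))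
    (hdet : (kmat q m (M.map (Polynomial.map (algebraMap k K)))).charpolyRev.eval 1 = 0) :
    ∃ w : κ → k[X], w ≠ 0 ∧ ∀ b, cart q (∑ a, M b a * w a) = w b := by
  classical
  rw [eval_charpolyRev_one] at hdet
  have h1 : kmat q m (M.map (Polynomial.map (algebraMap k K))) =
      (kmat q m M).map (algebraMap k K) := by
    refine Matrix.ext fun a b => ?_
    unfold kmat
    rw [Matrix.map_apply, Matrix.of_apply, Matrix.of_apply, Matrix.map_apply,
      ← Polynomial.coeff_map, Polynomial.map_mul, Polynomial.map_pow, map_X]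
  have h2 : (1 - kmat q m M).det = 0 := by
    apply (algebraMap k K).injective
    rw [RingHom.map_det, map_zero, ← hdet, h1]
    congr 1
    refine Matrix.ext fun a b => ?_
    rw [RingHom.mapMatrix_apply, Matrix.map_apply, Matrix.sub_apply, Matrix.sub_apply,
      Matrix.map_apply, map_sub, Matrix.one_apply, Matrix.one_apply]
    split_ifs <;> simp
  obtain ⟨v, hv0, hv⟩ := Matrix.exists_mulVec_eq_zero_iff.2 h2
  rw [Matrix.sub_mulVec, Matrix.one_mulVec, sub_eq_zero] at hv
  let w : κ → k[X] := fun a => ∑ i : Fin m, C (v (i, a)) * X ^ (i : ℕ)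
  have hwc : ∀ a (n : ℕ), (w a).coeff n = if h : n < m then v (⟨n, h⟩, a) else 0 := by
    intro a n
    show (∑ i : Fin m, C (v (i, a)) * X ^ (i : ℕ)).coeff n = _
    rw [finsetSum_coeff]
    simp only [coeff_C_mul, coeff_X_pow]
    split_ifs with h
    · rw [Finset.sum_eq_single (⟨n, h⟩ : Fin m)]
      · simp
      · intro b _ hb
        rw [if_neg, mul_zero]
        intro h'
        exact hb (Fin.ext h'.symm)
      · intro h'
        exact absurd (Finset.mem_univ _) h'
    · refine Finset.sum_eq_zero fun b _ => ?_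
      rw [if_neg, mul_zero]
      intro h'
      exact h (h' ▸ b.2)
  have hwd : ∀ a, (w a).natDegree ≤ m - 1 := by
    intro a
    rw [natDegree_le_iff_coeff_eq_zero]
    intro n hn
    rw [hwc, dif_neg (by omega)]
  refine ⟨w, ?_, ?_⟩
  · intro h
    apply hv0
    funext x
    obtain ⟨i, a⟩ := x
    have h3 : w a = 0 := congrFun h a
    have h4 : (w a).coeff (i : ℕ) = 0 := by rw [h3, coeff_zero]
    rw [hwc, dif_pos i.2] at h4
    exact h4
  · intro b
    ext n
    rw [coeff_cart (by omega), hwc]
    split_ifs with h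
    · have h3 := congrFun hv (⟨n, h⟩, b)
      rw [h3, Matrix.mulVec, dotProduct, Fintype.sum_prod_type, Finset.sum_comm, finsetSum_coeff]
      refine Finset.sum_congr rfl fun a _ => ?_
      show (M b a * ∑ i : Fin m, C (v (i, a)) * X ^ (i : ℕ)).coeff (q * n + (q - 1)) = _
      rw [Finset.mul_sum, finsetSum_coeff]
      refine Finset.sum_congr rfl fun i _ => ?_
      unfold kmat
      rw [Matrix.of_apply]
      have h4 : q * (n + 1) = (q * n + (q - 1)) + 1 := by
        rw [Nat.mul_add]; omega
      show _ = (X ^ ((i : ℕ) + 1) * M b a).coeff (q * (n + 1)) * v (i, a)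
      have h5 : (X ^ ((i : ℕ) + 1) * M b a : k[X]) = (X ^ (i : ℕ) * M b a) * X := by ring
      rw [h4, h5, coeff_mul_X]
      have h6 : M b a * (C (v (i, a)) * X ^ (i : ℕ)) = C (v (i, a)) * (X ^ (i : ℕ) * M b a) := by
        ring
      rw [h6, coeff_C_mul, mul_comm]
    · rw [finsetSum_coeff]
      refine Finset.sum_eq_zero fun a _ => ?_
      rcases Nat.eq_zero_or_pos m with hm | hm
      · have hw0 : w a = 0 := by
          ext l
          rw [hwc, dif_neg (by omega), coeff_zero]
        rw [hw0, mul_zero, coeff_zero]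
      apply coeff_eq_zero_of_natDegree_lt
      refine natDegree_mul_le.trans_lt ?_
      have h3 := hdeg b a
      have h4 := hwd a
      have h5 : q * m ≤ q * n := Nat.mul_le_mul_left q (by omega)
      have h6 : (q - 1) * (m + 1) + (m + 1) = q * m + q := by
        rw [← Nat.succ_mul, Nat.succ_eq_add_one, Nat.sub_add_cancel (by omega), Nat.mul_add,
          mul_one]
      omega

end fix

section det

variable {k F : Type} [Field k] [Field F] [Algebra k F] {p : ℕ} [hp : Fact p.Prime] [CharP F p]
  {f q : ℕ} (hq : q = p ^ f) (hf : 0 < f) {ι : Type} [Fintype ι] [DecidableEq ι]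

include hq hf in
/-- the kernel of `Φ` -/
theorem phi_ker {m : ℕ} (hm : Fintype.card ι = m + 1) {β : ι → F} (hβ : Function.Injective β)
    {μ : ι → ℕ} (hμ : ∀ l, 0 < μ l) (hμq : ∀ l, μ l < q)
    (hinv : ∀ i : ℕ, i < ∑ l, μ l → ((i : k) + 1) ≠ 0) (o : ι) (u : ι → F) (huo : u o = 0)
    (hu : (phi k β μ o).mulVec u = 0) : u = 0 := by
  have h1 := dual_id (k := k) hq hf hm hβ hμ hμq hinv o
  have h2 : Matrix.vecMul u (Em m β) = 0 := by
    rw [← h1, ← Matrix.vecMul_vecMul, Matrix.vecMul_transpose, hu, Matrix.zero_vecMul]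
  have h3 : Matrix.vecMul u (Em m β * Ep m β o) = 0 := by
    rw [← Matrix.vecMul_vecMul, h2, Matrix.zero_vecMul]
  rw [Em_mul_Ep hm hβ] at h3
  funext j
  have h4 := congrFun h3 j
  rw [Matrix.vecMul, dotProduct] at h4
  simp only [Matrix.of_apply, mul_sub, mul_ite, mul_one, mul_zero, Finset.sum_sub_distrib,
    Finset.sum_ite_eq', Finset.mem_univ, if_true, Pi.zero_apply] at h4
  rw [huo, sub_zero] at h4
  rw [h4]
  rfl

end det

section minor

variable {k : Type} [Field k] [Finite k] {r : ℕ}

/-- the minor of the matrix `B Φ` -/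
noncomputable def minor (B : k[X]) (b : Fin (r + 1) → k[X]) (m : Fin (r + 1) → ℕ) :
    Matrix (Fin r) (Fin r) k[X] :=
  Matrix.of fun i j => B * phi k b m 0 i.succ j.succ

theorem det_minor {p f q : ℕ} [hp : Fact p.Prime] [CharP k p] (hq : q = p ^ f) (hf : 0 < f)
    {B : k[X]} (hB : B ≠ 0) {b : Fin (r + 1) → k[X]} (hb : Function.Injective b)
    {m : Fin (r + 1) → ℕ} (hm : ∀ i, 0 < m i) (hmq : ∀ i, m i < q)
    (hinv : ∀ i : ℕ, i < ∑ l, m l → ((i : k) + 1) ≠ 0) : (minor B b m).det ≠ 0 := by
  let F := RatFunc k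
  have hinj : Function.Injective (algebraMap k[X] F) := IsFractionRing.injective k[X] F
  have hpF : CharP F p := charP_of_injective_algebraMap (algebraMap k F).injective p
  intro h0
  have h1 : ((minor B b m).map (algebraMap k[X] F)).det = 0 := by
    have := RingHom.map_det (algebraMap k[X] F) (minor B b m)
    rw [h0, map_zero] at this
    exact this.symm
  obtain ⟨v, hv0, hv⟩ := Matrix.exists_mulVec_eq_zero_iff.2 h1
  let β : Fin (r + 1) → F := fun i => algebraMap k[X] F (b i)
  have hβ : Function.Injective β := fun i j h => hb (hinj h)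
  let u : Fin (r + 1) → F := Fin.cons 0 v
  have hu0 : u 0 = 0 := rfl
  have hus : ∀ i : Fin r, u i.succ = v i := fun i => rfl
  have hphi : ∀ i j, algebraMap k[X] F (phi k b m 0 i j) = phi k β m 0 i j := by
    intro i j
    exact map_phi k (algebraMap k[X] F) (fun a => (IsScalarTower.algebraMap_apply k k[X] F a).symm)
      b m 0 i j
  have hker : (phi k β m 0).mulVec u = 0 := by
    funext i
    rw [Pi.zero_apply, Matrix.mulVec, dotProduct]
    refine Fin.cases ?_ (fun i => ?_) i
    · refine Finset.sum_eq_zero fun j _ => ?_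
      rw [phi_row k _ _ rfl, zero_mul]
    · rw [Fin.sum_univ_succ, hu0, mul_zero, zero_add]
      have h3 := congrFun hv i
      rw [Pi.zero_apply, Matrix.mulVec, dotProduct] at h3
      have h4 : algebraMap k[X] F B * ∑ j : Fin r, phi k β m 0 i.succ j.succ * u j.succ = 0 := by
        rw [← h3, Finset.mul_sum]
        refine Finset.sum_congr rfl fun j _ => ?_
        rw [hus, Matrix.map_apply]
        unfold minor
        rw [Matrix.of_apply, map_mul, hphi]
        ring
      refine (mul_eq_zero.1 h4).resolve_left ?_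
      intro h5
      exact hB (hinj (h5.trans (map_zero _).symm))
  have h5 := phi_ker (k := k) hq hf (Fintype.card_fin (r + 1)) hβ hm hmq hinv 0 u hu0 hker
  apply hv0
  funext i
  rw [← hus, h5]
  rfl

end minor

end Pool.Agent.Y709.Gen
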