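import Pool.Agent.Y709.Gen.FeG
import Pool.Agent.Y709.Gen.Deg
import Pool.Agent.Y709.Van

/-!
The global functional equation and its reduction.
-/

set_option autoImplicit false
set_option linter.unusedSectionVars false

open Polynomial

namespace Pool.Agent.Y709.Gen

open Pool.Agent.W313.Hyp Pool.Agent.W343.BSD

section plane

variable {k : Type} [Field k] {R : Type} [CommRing R] {κ : Type} [Fintype κ]

/-- the polynomial of the fibre -/
noncomputable def fibp {F : Type} [Field F] (c : F) (b : κ → F) (m : κ → ℕ) : F[X] :=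
  C c * ∏ i, (X - C (b i)) ^ m i

/-- the Euler product over the plane -/
noncomputable def LG (χ : MulChar k R) (E : k[X]) (b : κ → k[X]) (m : κ → ℕ) : PowerSeries R :=
  eulerProd (fun z : Σ P : MI k, MI (RS P) => z.1.1.natDegree * z.2.1.natDegree)
    (fun z => 1 - PowerSeries.C (χ (Algebra.norm k (AdjoinRoot.mk z.2.1
      (fibp (val z.1 E) (fun i => val z.1 (b i)) m)))) *
      PowerSeries.X ^ (z.1.1.natDegree * z.2.1.natDegree))

theorem LG_eq [Finite k] (χ : MulChar k R) (E : k[X]) (b : κ → k[X]) (m : κ → ℕ) :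
    LG χ E b m = eulerProd (fun P : MI k => P.1.natDegree)
      (fun P => PowerSeries.expand P.1.natDegree (deg_ne P)
        (fibG R χ (fibp (val P E) (fun i => val P (b i)) m))) := by
  have hdv : ∀ (a : R) (n : ℕ), (PowerSeries.X : PowerSeries R) ^ n ∣
      (1 - PowerSeries.C a * PowerSeries.X ^ n) - 1 := by
    intro a n
    rw [sub_right_comm, sub_self, zero_sub]
    exact (dvd_neg).2 (dvd_mul_left _ _)
  unfold LG
  rw [eulerProd_sigma (fun n => finite_deg_le (F := k) n) (fun P => MI.deg_pos P)
    (fun P n => finite_deg_le (F := RS P) n) (fun _ Q => MI.deg_pos Q) _ (fun z => hdv _ _)]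
  congr 1
  funext P
  unfold fibG
  rw [expand_euler (fun n => finite_deg_le (F := RS P) n) (deg_ne P) (fun Q => hdv _ _)]
  congr 1
  funext Q
  rw [map_sub, map_one, map_mul, map_pow, PowerSeries.expand_X, PowerSeries.expand_C, ← pow_mul]

end plane

section main

variable {k : Type} [Field k] [Fintype k] {K : Type} [Field K] [Algebra k K] {κ : Type}
  [Fintype κ] [DecidableEq κ]

/-- the matrix `E Φ` -/
noncomputable def MG (E : k[X]) (b : κ → k[X]) (m : κ → ℕ) (o : κ) : Matrix κ κ k[X] :=
  Matrix.of fun i j => E * phi k b m o i j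

omit [Fintype k] in
theorem natDegree_MG (E : k[X]) {d : ℕ} {b : κ → k[X]} (hb : ∀ i, (b i).natDegree ≤ d) {m : κ → ℕ}
    (hm : ∀ i, 0 < m i) (o i j : κ) :
    (MG E b m o i j).natDegree ≤ E.natDegree + d * ∑ i, m i := by
  unfold MG
  rw [Matrix.of_apply]
  exact natDegree_mul_le.trans (Nat.add_le_add_left (natDegree_phi hb hm o i j) _)

/-- the local factors -/
theorem locF_MG {q : ℕ} (hk : Fintype.card k = q) (E : k[X]) (b : κ → k[X]) (m : κ → ℕ) (o : κ)
    (P : MI k) (r : K)
    (σ : RS P →+* K) (hc : ∀ a : k, σ (algebraMap k (RS P) a) = algebraMap k K a)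
    (hX : σ (val P X) = r) :
    (mprod (fun j => ((val P E) ^ (q ^ j)) • phi k (cjb q (fun i => val P (b i)) j) m o)
      P.1.natDegree).charpolyRev.map σ =
      (loc (MonoidHom.id K) q ((MG E b m o).map (Polynomial.map (algebraMap k K))) r
        P.1.natDegree).charpolyRev := by
  rw [map_charpolyRev]
  congr 1
  unfold loc
  rw [mprod_map]
  congr 1
  funext j
  refine Matrix.ext fun x y => ?_
  have h2 : ∀ g : k[X], σ (val P g) = aeval r g := by
    intro g
    let τ : RS P →ₐ[k] K := { σ with commutes' := hc }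
    have h3 : τ (val P g) = aeval (τ (val P X)) g := by
      have h4 : val P g = aeval (val P X) g := by
        have h5 : (aeval (AdjoinRoot.root P.1) g : AdjoinRoot P.1) = AdjoinRoot.mk P.1 g :=
          AdjoinRoot.aeval_eq g
        exact h5.symm
      conv_lhs => rw [h4]
      rw [Polynomial.aeval_algHom_apply]
    have h6 : τ (val P X) = r := hX
    rw [h6] at h3
    exact h3
  have h7 : (at' ((MG E b m o).map (Polynomial.map (algebraMap k K)))
      ((MonoidHom.id K) r ^ q ^ j)) x y = aeval (r ^ (q ^ j)) (MG E b m o x y) := by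
    unfold at'
    rw [Matrix.map_apply, Matrix.map_apply, coe_evalRingHom, eval_map_algebraMap]
    rfl
  rw [h7]
  unfold MG
  rw [Matrix.of_apply, map_mul, aeval_frob hk, Matrix.map_apply, Matrix.smul_apply, smul_eq_mul,
    map_mul, map_pow, h2]
  congr 1
  rw [map_phi k σ hc]
  have h8 := map_phi k ((aeval (r ^ (q ^ j)) : k[X] →ₐ[k] K) : k[X] →+* K)
    (fun a => (aeval (r ^ (q ^ j)) : k[X] →ₐ[k] K).commutes a) b m o x y
  have h9 : ((aeval (r ^ (q ^ j)) : k[X] →ₐ[k] K) : k[X] →+* K) (phi k b m o x y) =
    aeval (r ^ (q ^ j)) (phi k b m o x y) := rfl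
  rw [← h9, h8]
  congr 1
  funext i
  unfold cjb
  rw [map_pow, h2]
  exact (aeval_frob hk (b i) r j).symm

end main

section van

variable {k R K : Type} [Field k] [Fintype k] [CommRing R] [IsDomain R] [CharZero R] [Field K]
  [Algebra k K] [IsAlgClosed K] [Algebra.IsAlgebraic k K] (π : R →+* K)
  (hu : ∀ r : R, π r ≠ 0 → IsUnit r) (χ : MulChar k R) (hχ : ∀ u : k, π (χ u) = algebraMap k K u)
  {κ : Type} [Fintype κ] [DecidableEq κ]

include hu hχ in
/-- the global functional equation and its reduction -/
theorem global_feG {q n d : ℕ} (hk : Fintype.card k = q) (h5 : 5 ≤ q) (E : k[X])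
    (b : κ → k[X]) (hb : ∀ i, (b i).natDegree ≤ d) {m : κ → ℕ} (hm : ∀ i, 0 < m i)
    (hmq : ∑ i, m i < q - 1) (hinv : ∀ i : ℕ, i < ∑ l, m l → ((i : k) + 1) ≠ 0) (o : κ)
    (hn : E.natDegree + d * ∑ i, m i < (q - 1) * (n + 1)) :
    ∃ L : PowerSeries R, LG χ E b m * PowerSeries.rescale (q : R) L = 1 ∧
      PowerSeries.map π L *
        ((kmat q n ((MG E b m o).map (Polynomial.map (algebraMap k K)))).charpolyRev :
          PowerSeries K) = 1 := by
  classical
  obtain ⟨p, hp⟩ := CharP.exists k
  have hpp : p.Prime := CharP.char_is_prime k p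
  have hpf : Fact (Nat.Prime p) := ⟨hpp⟩
  obtain ⟨f, _, hqf⟩ := FiniteField.card k p
  rw [hk] at hqf
  have hfin := fun n => finite_deg_le (F := k) n
  have hroot := fun P : MI k => exists_root_MI (K := K) P
  choose ρ hρ using hroot
  have hloc : ∀ P : MI k, ∃ Q : R[X], Q.coeff 0 = 1 ∧
      fibG R χ (fibp (val P E) (fun i => val P (b i)) m) *
        PowerSeries.rescale ((q : R) ^ P.1.natDegree) (Q : PowerSeries R) = 1 ∧
      Q.map π = (loc (MonoidHom.id K) q ((MG E b m o).map (Polynomial.map (algebraMap k K))) (ρ P)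
        P.1.natDegree).charpolyRev := by
    intro P
    have hFt : Fintype (RS P) := Fintype.ofFinite _
    have hFc : Fintype.card (RS P) = q ^ P.1.natDegree := by
      rw [← Nat.card_eq_fintype_card, card_RS, Nat.card_eq_fintype_card, hk]
    have hFp : CharP (RS P) p := charP_of_injective_algebraMap (algebraMap k (RS P)).injective p
    let σ : RS P →+* K := AdjoinRoot.lift (algebraMap k K) (ρ P) (hρ P)
    have hσc : ∀ a : k, σ (algebraMap k (RS P) a) = algebraMap k K a := fun a =>
      AdjoinRoot.lift_of (hρ P)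
    have hσX : σ (val P X) = ρ P := by
      have h1 : val P X = AdjoinRoot.root P.1 := AdjoinRoot.mk_X
      rw [h1]
      exact AdjoinRoot.lift_root (hρ P)
    obtain ⟨Q, h0, h1, h2⟩ := fibre_feG π σ χ (fun u => by rw [hχ, hσc]) hu hqf f.pos hk h5
      (MI.deg_pos P) hFc hm hmq hinv (val P E) (fun i => val P (b i)) o
    exact ⟨Q, h0, h1, h2.trans (locF_MG hk E b m o P (ρ P) σ hσc hσX)⟩
  choose Q hQ0 hQ1 hQ2 using hloc
  have hQc : ∀ P, PowerSeries.constantCoeff (Q P : PowerSeries R) = 1 := by
    intro P
    rw [← PowerSeries.coeff_zero_eq_constantCoeff_apply, Polynomial.coeff_coe, hQ0]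
  refine ⟨eulerProd (fun P : MI k => P.1.natDegree)
    (fun P => PowerSeries.expand P.1.natDegree (deg_ne P) (Q P : PowerSeries R)), ?_, ?_⟩
  · rw [rescale_euler hfin, LG_eq, ← eulerProd_mul hfin]
    · have h1 : (fun P : MI k => PowerSeries.expand P.1.natDegree (deg_ne P)
          (fibG R χ (fibp (val P E) (fun i => val P (b i)) m)) * PowerSeries.rescale (q : R)
            (PowerSeries.expand P.1.natDegree (deg_ne P) (Q P : PowerSeries R))) =
          fun _ => 1 := by
        funext P
        rw [rescale_expand, ← map_mul, hQ1, map_one]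
      rw [h1]
      exact eulerProd_one
    · intro P
      apply expand_mod
      have h1 := congrArg PowerSeries.constantCoeff (hQ1 P)
      rw [map_mul, map_one] at h1
      have h2 : PowerSeries.constantCoeff (PowerSeries.rescale ((q : R) ^ P.1.natDegree)
          (Q P : PowerSeries R)) = 1 := by
        rw [← PowerSeries.coeff_zero_eq_constantCoeff_apply, PowerSeries.coeff_rescale, pow_zero,
          one_mul, PowerSeries.coeff_zero_eq_constantCoeff_apply, hQc]
      rwa [h2, mul_one] at h1
    · intro P
      rw [rescale_expand]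
      apply expand_mod
      rw [← PowerSeries.coeff_zero_eq_constantCoeff_apply, PowerSeries.coeff_rescale, pow_zero,
          one_mul, PowerSeries.coeff_zero_eq_constantCoeff_apply, hQc]
  · rw [map_eulerProd hfin]
    have h1 := formula_mod (k := k) (K := K) (m := n) (by rw [Nat.card_eq_fintype_card, hk])
      ((MG E b m o).map (Polynomial.map (algebraMap k K))) (fun x y => by
        rw [Matrix.map_apply]
        exact (natDegree_map_le).trans_lt ((natDegree_MG E hb hm o x y).trans_lt hn)) ρ hρ
    rw [← h1]
    congr 2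
    funext P
    unfold locF
    rw [PowerSeries.map_expand, ← hQ2 P, Polynomial.polynomial_map_coe]

end van

section eval

variable {R K : Type} [CommRing R] [IsDomain R] [CharZero R] [Field K] (π : R →+* K)

/-- a zero of the function gives a zero of the characteristic polynomial -/
theorem eval_of_fe {q : ℕ} (hq : q ≠ 0) {LF L : PowerSeries R} {Δ : K[X]}
    (h1 : LF * PowerSeries.rescale (q : R) L = 1)
    (h2 : PowerSeries.map π L * (Δ : PowerSeries K) = 1) (G : R[X])
    (hG : LF = (((1 - C (q : R) * X) * G : R[X]) : PowerSeries R)) : Δ.eval 1 = 0 := by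
  have hq0 : (q : R) ≠ 0 := by
    rw [Nat.cast_ne_zero]
    exact hq
  have hLu : IsUnit (PowerSeries.constantCoeff L) := by
    have h3 := congrArg PowerSeries.constantCoeff h1
    rw [map_mul, map_one] at h3
    have h4 : PowerSeries.constantCoeff (PowerSeries.rescale (q : R) L) =
        PowerSeries.constantCoeff L := by
      rw [← PowerSeries.coeff_zero_eq_constantCoeff_apply, PowerSeries.coeff_rescale, pow_zero,
        one_mul, PowerSeries.coeff_zero_eq_constantCoeff_apply]
    rw [h4] at h3
    exact IsUnit.of_mul_eq_one _ (by rw [mul_comm]; exact h3)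
  have hu2 : IsUnit ((1 - PowerSeries.X) * L) := by
    rw [PowerSeries.isUnit_iff_constantCoeff, map_mul, map_sub, map_one,
      PowerSeries.constantCoeff_X, sub_zero, one_mul]
    exact hLu
  obtain ⟨H, hH⟩ := hu2.exists_right_inv
  have hH1 := congrArg (PowerSeries.rescale (q : R)) hH
  rw [map_mul, map_mul, map_one, map_sub, map_one, PowerSeries.rescale_X] at hH1
  have hHG : PowerSeries.rescale (q : R) H = (G : PowerSeries R) := by
    have h3 : (G : PowerSeries R) * ((1 - PowerSeries.C (q : R) * PowerSeries.X) *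
        PowerSeries.rescale (q : R) L) = 1 := by
      have h4 := h1
      rw [hG, Polynomial.coe_mul, Polynomial.coe_sub, Polynomial.coe_mul, Polynomial.coe_C,
        Polynomial.coe_X, Polynomial.coe_one] at h4
      exact Eq.trans (by ring) h4
    calc PowerSeries.rescale (q : R) H = (G : PowerSeries R) *
          ((1 - PowerSeries.C (q : R) * PowerSeries.X) * PowerSeries.rescale (q : R) L) *
          PowerSeries.rescale (q : R) H := by rw [h3, one_mul]
      _ = (G : PowerSeries R) * ((1 - PowerSeries.C (q : R) * PowerSeries.X) *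
          PowerSeries.rescale (q : R) L * PowerSeries.rescale (q : R) H) := by ring
      _ = _ := by rw [hH1, mul_one]
  have hHn : ∀ n, G.natDegree < n → PowerSeries.coeff n H = 0 := by
    intro n hn
    have h3 := congrArg (PowerSeries.coeff n) hHG
    rw [PowerSeries.coeff_rescale, Polynomial.coeff_coe, coeff_eq_zero_of_natDegree_lt hn] at h3
    exact (mul_eq_zero.1 h3).resolve_left (pow_ne_zero _ hq0)
  let H' : R[X] := PowerSeries.trunc (G.natDegree + 1) H
  have hH' : (H' : PowerSeries R) = H := by
    ext n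
    rw [Polynomial.coeff_coe, PowerSeries.coeff_trunc]
    split_ifs with h
    · rfl
    · rw [hHn n (by omega)]
  rw [← hH'] at hH
  have h3 := congrArg (PowerSeries.map π) hH
  rw [map_mul, map_mul, map_one, map_sub, map_one, PowerSeries.map_X,
    ← Polynomial.polynomial_map_coe] at h3
  have h4 : (Δ : PowerSeries K) = (((1 - X) * (H'.map π) : K[X]) : PowerSeries K) := by
    rw [Polynomial.coe_mul, Polynomial.coe_sub, Polynomial.coe_one, Polynomial.coe_X]
    calc (Δ : PowerSeries K) = (Δ : PowerSeries K) * ((1 - PowerSeries.X) * PowerSeries.map π L *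
          ((H'.map π : K[X]) : PowerSeries K)) := by rw [h3, mul_one]
      _ = (PowerSeries.map π L * (Δ : PowerSeries K)) * ((1 - PowerSeries.X) *
          ((H'.map π : K[X]) : PowerSeries K)) := by ring
      _ = _ := by rw [h2, one_mul]
  have h5' := Polynomial.coe_injective K h4
  rw [h5', eval_mul, eval_sub, Polynomial.eval_one, Polynomial.eval_X, sub_self, zero_mul]

end eval

end Pool.Agent.Y709.Gen
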