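import Mathlib.LinearAlgebra.Lagrange
import Mathlib.LinearAlgebra.Matrix.NonsingularInverse

/-!
Lagrange interpolation and the matrices `E`.
-/

set_option autoImplicit false
set_option linter.unusedSectionVars false

open Polynomial

namespace Pool.Agent.Y709.Gen

variable {F : Type} [Field F] {ι : Type} [Fintype ι] [DecidableEq ι]

/-- the polynomial with the other roots -/
noncomputable def oth (β : ι → F) (l : ι) : F[X] := ∏ i ∈ Finset.univ.erase l, (X - C (β i))

/-- the value of the derivative at a root -/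
noncomputable def gd (β : ι → F) (l : ι) : F := (oth β l).eval (β l)

theorem gd_ne_zero {β : ι → F} (hβ : Function.Injective β) (l : ι) : gd β l ≠ 0 := by
  unfold gd oth
  rw [eval_prod, Finset.prod_ne_zero_iff]
  intro i hi
  rw [eval_sub, eval_X, eval_C]
  exact sub_ne_zero.2 fun h => (Finset.ne_of_mem_erase hi) (hβ h.symm)

theorem eval_oth_ne (β : ι → F) {l i : ι} (h : i ≠ l) : (oth β l).eval (β i) = 0 := by
  unfold oth
  rw [eval_prod]
  refine Finset.prod_eq_zero (Finset.mem_erase.2 ⟨h, Finset.mem_univ i⟩) ?_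
  rw [eval_sub, eval_X, eval_C, sub_self]

theorem monic_oth (β : ι → F) (l : ι) : (oth β l).Monic :=
  monic_prod_of_monic _ _ fun _ _ => monic_X_sub_C _

theorem natDegree_oth {m : ℕ} (hm : Fintype.card ι = m + 1) (β : ι → F) (l : ι) :
    (oth β l).natDegree = m := by
  unfold oth
  rw [natDegree_prod_of_monic _ _ fun i _ => monic_X_sub_C _]
  simp only [natDegree_X_sub_C]
  rw [Finset.sum_const, smul_eq_mul, mul_one, Finset.card_erase_of_mem (Finset.mem_univ l),
    Finset.card_univ, hm, Nat.add_sub_cancel]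

theorem degree_oth {m : ℕ} (hm : Fintype.card ι = m + 1) (β : ι → F) (l : ι) :
    (oth β l).degree = m := by
  rw [degree_eq_natDegree (monic_oth β l).ne_zero, natDegree_oth hm]

theorem coeff_oth {m : ℕ} (hm : Fintype.card ι = m + 1) (β : ι → F) (l : ι) :
    (oth β l).coeff m = 1 := by
  have h1 := (monic_oth β l).coeff_natDegree
  rwa [natDegree_oth hm] at h1

/-- the interpolation with given values -/
noncomputable def interp (β : ι → F) (v : ι → F) : F[X] := ∑ l, C (v l / gd β l) * oth β l

theorem eval_interp {β : ι → F} (hβ : Function.Injective β) (v : ι → F) (l : ι) :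
    (interp β v).eval (β l) = v l := by
  unfold interp
  rw [eval_finsetSum, Finset.sum_eq_single l]
  · rw [eval_mul, eval_C]
    exact div_mul_cancel₀ _ (gd_ne_zero hβ l)
  · intro i _ hi
    rw [eval_mul, eval_oth_ne β hi.symm, mul_zero]
  · intro h
    exact absurd (Finset.mem_univ l) h

theorem degree_interp {m : ℕ} (hm : Fintype.card ι = m + 1) (β : ι → F) (v : ι → F) :
    (interp β v).degree < ((m + 1 : ℕ) : WithBot ℕ) := by
  unfold interp
  refine (degree_sum_le _ _).trans_lt ?_
  rw [Finset.sup_lt_iff (WithBot.bot_lt_coe _)]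
  intro l _
  rw [← smul_eq_C_mul]
  refine (degree_smul_le _ _).trans_lt ?_
  rw [degree_oth hm]
  exact_mod_cast Nat.lt_succ_self m

theorem eq_of_eval {m : ℕ} (hm : Fintype.card ι = m + 1) {β : ι → F}
    (hβ : Function.Injective β) {H H' : F[X]} (hH : H.degree < ((m + 1 : ℕ) : WithBot ℕ))
    (hH' : H'.degree < ((m + 1 : ℕ) : WithBot ℕ)) (h : ∀ l, H.eval (β l) = H'.eval (β l)) :
    H = H' := by
  refine Polynomial.eq_of_degrees_lt_of_eval_index_eq (s := Finset.univ) (v := β) hβ.injOn ?_ ?_
    (fun i _ => h i)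
  · rwa [Finset.card_univ, hm]
  · rwa [Finset.card_univ, hm]

theorem interp_eval {m : ℕ} (hm : Fintype.card ι = m + 1) {β : ι → F}
    (hβ : Function.Injective β) {H : F[X]} (hH : H.degree < ((m + 1 : ℕ) : WithBot ℕ)) :
    interp β (fun l => H.eval (β l)) = H :=
  eq_of_eval hm hβ (degree_interp hm _ _) hH (eval_interp hβ _)

theorem coeff_interp {m : ℕ} (hm : Fintype.card ι = m + 1) (β : ι → F) (v : ι → F) :
    (interp β v).coeff m = ∑ l, v l / gd β l := by
  unfold interp
  rw [finsetSum_coeff]
  refine Finset.sum_congr rfl fun l _ => ?_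
  rw [coeff_C_mul, coeff_oth hm, mul_one]

/-- the sum of the residues -/
theorem sum_res {m : ℕ} (hm : Fintype.card ι = m + 1) {β : ι → F} (hβ : Function.Injective β)
    {H : F[X]} (hH : H.degree < ((m + 1 : ℕ) : WithBot ℕ)) :
    ∑ l, H.eval (β l) / gd β l = H.coeff m := by
  rw [← coeff_interp hm, interp_eval hm hβ hH]

theorem sum_res_zero {m : ℕ} (hm : Fintype.card ι = m + 1) {β : ι → F}
    (hβ : Function.Injective β) {H : F[X]} (hH : H.degree < (m : WithBot ℕ)) :
    ∑ l, H.eval (β l) / gd β l = 0 := by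
  rw [sum_res hm hβ (hH.trans (by exact_mod_cast Nat.lt_succ_self m))]
  exact coeff_eq_zero_of_degree_lt hH

theorem eval_of_degree_lt {m : ℕ} {H : F[X]} (hH : H.degree < (m : WithBot ℕ)) (x : F) :
    H.eval x = ∑ a : Fin m, H.coeff a * x ^ (a : ℕ) := by
  rw [Fin.sum_univ_eq_sum_range (fun a => H.coeff a * x ^ a)]
  by_cases h0 : H = 0
  · rw [h0, eval_zero]
    simp
  · rw [eval_eq_sum_range' ((natDegree_lt_iff_degree_lt h0).2 hH)]

/-- the matrix of the interpolation -/
noncomputable def Em (m : ℕ) (β : ι → F) : Matrix ι (Fin m × Unit) F :=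
  Matrix.of fun l a => β l ^ (a.1 : ℕ) / gd β l

/-- the inverse matrix -/
noncomputable def Ep (m : ℕ) (β : ι → F) (o : ι) : Matrix (Fin m × Unit) ι F :=
  Matrix.of fun a l => (oth β l - oth β o).coeff a.1

theorem Ep_mul_Em {m : ℕ} (hm : Fintype.card ι = m + 1) {β : ι → F} (hβ : Function.Injective β)
    (o : ι) : Ep m β o * Em m β = 1 := by
  refine Matrix.ext fun a b => ?_
  obtain ⟨a, ua⟩ := a
  obtain ⟨b, ub⟩ := b
  rw [Matrix.mul_apply]
  unfold Ep Em
  simp only [Matrix.of_apply]
  have hX : ((X : F[X]) ^ (b : ℕ)).degree < (m : WithBot ℕ) := by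
    rw [degree_X_pow]
    exact_mod_cast b.2
  have h1 : ∑ l, (oth β l - oth β o).coeff a * (β l ^ (b : ℕ) / gd β l) =
      (interp β (fun l => ((X : F[X]) ^ (b : ℕ)).eval (β l))).coeff a -
        (oth β o).coeff a * ∑ l, ((X : F[X]) ^ (b : ℕ)).eval (β l) / gd β l := by
    unfold interp
    rw [finsetSum_coeff, Finset.mul_sum, ← Finset.sum_sub_distrib]
    refine Finset.sum_congr rfl fun l _ => ?_
    simp only [coeff_C_mul, coeff_sub, eval_pow, eval_X]
    ring
  rw [h1, sum_res_zero hm hβ hX, mul_zero, sub_zero, interp_eval hm hβ (hX.trans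
    (by exact_mod_cast Nat.lt_succ_self m)), coeff_X_pow, Matrix.one_apply]
  by_cases h : a = b
  · subst h
    rw [if_pos rfl, if_pos rfl]
  · rw [if_neg, if_neg]
    · intro h'
      exact h (Prod.mk.inj h').1
    · intro h'
      exact h (Fin.ext h')

theorem Em_mul_Ep {m : ℕ} (hm : Fintype.card ι = m + 1) {β : ι → F} (hβ : Function.Injective β)
    (o : ι) : Em m β * Ep m β o =
      Matrix.of fun l l' => (if l = l' then 1 else 0) - (if l = o then 1 else 0) := by
  refine Matrix.ext fun l l' => ?_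
  rw [Matrix.mul_apply, Fintype.sum_prod_type]
  unfold Ep Em
  simp only [Matrix.of_apply, Finset.univ_unique, Finset.sum_singleton]
  have hd : (oth β l' - oth β o).degree < (m : WithBot ℕ) := by
    have h1 := degree_sub_lt_left (p := oth β l') (q := oth β o)
      (by rw [degree_oth hm, degree_oth hm]) (monic_oth β l').ne_zero
      (by rw [(monic_oth β l').leadingCoeff, (monic_oth β o).leadingCoeff])
    rwa [degree_oth hm] at h1
  have h2 := eval_of_degree_lt hd (β l)
  have h3 : ∑ a : Fin m, β l ^ (a : ℕ) / gd β l * (oth β l' - oth β o).coeff a =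
      (oth β l' - oth β o).eval (β l) / gd β l := by
    rw [h2, div_eq_mul_inv, Finset.sum_mul]
    refine Finset.sum_congr rfl fun a _ => ?_
    ring
  rw [h3, eval_sub, sub_div]
  congr 1
  · by_cases h : l = l'
    · subst h
      rw [if_pos rfl]
      exact div_self (gd_ne_zero hβ l)
    · rw [if_neg h, eval_oth_ne β h, zero_div]
  · by_cases h : l = o
    · subst h
      rw [if_pos rfl]
      exact div_self (gd_ne_zero hβ l)
    · rw [if_neg h, eval_oth_ne β h, zero_div]

end Pool.Agent.Y709.Gen
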