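import Pool.Agent.Y709.GStm
import Mathlib.LinearAlgebra.Matrix.ToLin
import Mathlib.LinearAlgebra.InvariantBasisNumber
import Mathlib.LinearAlgebra.FreeModule.StrongRankCondition

/-!
Reduced bases for the modules over the ring of the `q`-th powers.
-/

set_option autoImplicit false
set_option linter.unusedSectionVars false

open Polynomial

namespace Pool.Agent.Y709.Gen

variable {k : Type} [Field k] {q : ℕ}

/-- independence over the ring of the `q`-th powers -/
def Ind (q : ℕ) {k : Type} [Field k] {ι : Type} [Fintype ι] (x : ι → k[X]) : Prop :=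
  ∀ a : ι → k[X], ∑ i, expand k q (a i) * x i = 0 → a = 0

theorem rank_le {ι κ : Type} [Fintype ι] [Fintype κ] {x : ι → k[X]} (hx : Ind q x) (y : κ → k[X])
    (s : ι → k[X]) (hs : ∀ i, s i ≠ 0) (c : ι → κ → k[X])
    (h : ∀ i, expand k q (s i) * x i = ∑ j, expand k q (c i j) * y j) :
    Fintype.card ι ≤ Fintype.card κ := by
  classical
  refine card_le_of_injective k[X] (Matrix.vecMulLinear (Matrix.of c)) ?_
  rw [← LinearMap.ker_eq_bot, LinearMap.ker_eq_bot']
  intro a ha
  have h1 : ∀ j, ∑ i, a i * c i j = 0 := by
    intro j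
    have := congrFun ha j
    rw [Matrix.vecMulLinear_apply, Matrix.vecMul, dotProduct] at this
    simpa using this
  have h2 : ∑ i, expand k q (a i * s i) * x i = 0 := by
    have h3 : ∀ i, expand k q (a i * s i) * x i = ∑ j, expand k q (a i * c i j) * y j := by
      intro i
      rw [map_mul, mul_assoc, h, Finset.mul_sum]
      refine Finset.sum_congr rfl fun j _ => ?_
      rw [map_mul, mul_assoc]
    rw [Finset.sum_congr rfl fun i _ => h3 i, Finset.sum_comm]
    refine Finset.sum_eq_zero fun j _ => ?_
    rw [← Finset.sum_mul, ← map_sum, h1, map_zero, zero_mul]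
  have h3 := hx _ h2
  funext i
  have h4 := congrFun h3 i
  exact (mul_eq_zero.1 h4).resolve_right (hs i)

/-- the degree of a sum with terms in distinct classes -/
theorem deg_sum {κ : Type} [Fintype κ] {n : κ → k[X]} (hn0 : ∀ j, n j ≠ 0)
    (hcl : ∀ i j, i ≠ j → ¬ (n i).natDegree ≡ (n j).natDegree [MOD q]) (hq : 0 < q) (A : κ → k[X])
    {j : κ} (hj : A j ≠ 0) : ∑ i, expand k q (A i) * n i ≠ 0 ∧
      q * (A j).natDegree + (n j).natDegree ≤ (∑ i, expand k q (A i) * n i).natDegree := by
  classical
  obtain ⟨j0, hj0, hmax⟩ := Finset.exists_max_image (Finset.univ.filter fun i => A i ≠ 0)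
    (fun i => q * (A i).natDegree + (n i).natDegree) ⟨j, Finset.mem_filter.2 ⟨Finset.mem_univ j, hj⟩⟩
  rw [Finset.mem_filter] at hj0
  have hdeg : ∀ i, A i ≠ 0 → (expand k q (A i) * n i).natDegree =
      q * (A i).natDegree + (n i).natDegree := by
    intro i hi
    have h1 : expand k q (A i) ≠ 0 := (expand_ne_zero hq).2 hi
    rw [natDegree_mul h1 (hn0 i), natDegree_expand, mul_comm]
  set e := q * (A j0).natDegree + (n j0).natDegree with he
  have hc : (∑ i, expand k q (A i) * n i).coeff e ≠ 0 := by
    rw [finsetSum_coeff, Finset.sum_eq_single j0]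
    · rw [he, ← hdeg j0 hj0.2]
      refine mt leadingCoeff_eq_zero.1 ?_
      exact mul_ne_zero ((expand_ne_zero hq).2 hj0.2) (hn0 j0)
    · intro i _ hi
      by_cases hA : A i = 0
      · rw [hA, map_zero, zero_mul, coeff_zero]
      · apply coeff_eq_zero_of_natDegree_lt
        rw [hdeg i hA]
        refine lt_of_le_of_ne (hmax i (Finset.mem_filter.2 ⟨Finset.mem_univ i, hA⟩)) ?_
        intro h
        apply hcl i j0 hi
        have h1 : (q * (A i).natDegree + (n i).natDegree) % q =
            (q * (A j0).natDegree + (n j0).natDegree) % q := by rw [h]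
        rwa [Nat.mul_add_mod, Nat.mul_add_mod] at h1
    · intro h
      exact absurd (Finset.mem_univ _) h
  refine ⟨?_, ?_⟩
  · intro h
    rw [h, coeff_zero] at hc
    exact hc rfl
  · exact (hmax j (Finset.mem_filter.2 ⟨Finset.mem_univ j, hj⟩)).trans (le_natDegree_of_ne_zero hc)

theorem ind_of_classes {κ : Type} [Fintype κ] {n : κ → k[X]} (hn0 : ∀ j, n j ≠ 0)
    (hcl : ∀ i j, i ≠ j → ¬ (n i).natDegree ≡ (n j).natDegree [MOD q]) (hq : 0 < q) : Ind q n := by
  intro a ha
  by_contra h
  obtain ⟨j, hj⟩ := Function.ne_iff.1 h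
  exact (deg_sum hn0 hcl hq a hj).1 ha

/-- a module over the `q`-th powers -/
structure Lat (q : ℕ) {k : Type} [Field k] (W : k[X] → Prop) : Prop where
  add : ∀ u v, W u → W v → W (u + v)
  smul : ∀ h u, W u → W (expand k q h * u)

theorem Lat.sum {W : k[X] → Prop} (hW : Lat q W) (h0 : W 0) {κ : Type} (s : Finset κ)
    (n a : κ → k[X]) (hn : ∀ i, W (n i)) : W (∑ i ∈ s, expand k q (a i) * n i) := by
  classical
  induction s using Finset.induction_on with
  | empty => rw [Finset.sum_empty]; exact h0
  | insert i s hi ih =>
    rw [Finset.sum_insert hi]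
    exact hW.add _ _ (hW.smul _ _ (hn i)) ih

/-- existence of a reduced basis -/
theorem exists_reduced {W : k[X] → Prop} (hW : Lat q W) (hq : 0 < q) :
    ∃ (T : Finset ℕ) (n : ℕ → k[X]), (∀ c ∈ T, c < q ∧ W (n c) ∧ n c ≠ 0 ∧
      (n c).natDegree % q = c) ∧ ∀ u, W u → ∃ A : ℕ → k[X],
        u = ∑ c ∈ T, expand k q (A c) * n c ∧
        ∀ c ∈ T, A c = 0 ∨ q * (A c).natDegree + (n c).natDegree ≤ u.natDegree := by
  classical
  set T := (Finset.range q).filter fun c => ∃ u, W u ∧ u ≠ 0 ∧ u.natDegree % q = c with hT
  have h1 : ∀ c ∈ T, ∃ u, (W u ∧ u ≠ 0 ∧ u.natDegree % q = c) ∧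
      ∀ v, W v → v ≠ 0 → v.natDegree % q = c → u.natDegree ≤ v.natDegree := by
    intro c hc
    rw [hT, Finset.mem_filter] at hc
    have h2 : ∃ d, ∃ u, (W u ∧ u ≠ 0 ∧ u.natDegree % q = c) ∧ u.natDegree = d := by
      obtain ⟨u, hu⟩ := hc.2
      exact ⟨_, u, hu, rfl⟩
    obtain ⟨u, hu, hud⟩ := Nat.find_spec h2
    refine ⟨u, hu, fun v hv hv0 hvc => ?_⟩
    rw [hud]
    exact Nat.find_min' h2 ⟨v, ⟨hv, hv0, hvc⟩, rfl⟩
  choose! n hn using h1
  refine ⟨T, n, ?_, ?_⟩
  · intro c hc
    exact ⟨Finset.mem_range.1 (Finset.mem_filter.1 hc).1, (hn c hc).1⟩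
  · have key : ∀ N : ℕ, ∀ u, W u → u.natDegree < N → ∃ A : ℕ → k[X],
        u = ∑ c ∈ T, expand k q (A c) * n c ∧
        ∀ c ∈ T, A c = 0 ∨ q * (A c).natDegree + (n c).natDegree ≤ u.natDegree := by
      intro N
      induction N with
      | zero => intro u _ h; exact absurd h (Nat.not_lt_zero _)
      | succ N ih =>
        intro u hu hN
        by_cases hu0 : u = 0
        · refine ⟨fun _ => 0, ?_, fun _ _ => Or.inl rfl⟩
          rw [hu0]
          simp
        set e := u.natDegree with he
        have hc : e % q ∈ T := by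
          rw [hT, Finset.mem_filter, Finset.mem_range]
          exact ⟨Nat.mod_lt _ hq, u, hu, hu0, rfl⟩
        obtain ⟨⟨hWn, hn0, hnc⟩, hmin⟩ := hn _ hc
        have hle := hmin u hu hu0 rfl
        obtain ⟨a, ha⟩ : ∃ a, e = q * a + (n (e % q)).natDegree := by
          have h2 : q ∣ e - (n (e % q)).natDegree := by
            apply (Nat.modEq_iff_dvd' hle).1
            show _ % q = _ % q
            rw [hnc]
          obtain ⟨a, ha⟩ := h2
          exact ⟨a, by rw [← he] at hle; omega⟩
        set l : k := u.leadingCoeff / (n (e % q)).leadingCoeff with hl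
        have hl0 : l ≠ 0 := div_ne_zero (mt leadingCoeff_eq_zero.1 hu0)
          (mt leadingCoeff_eq_zero.1 hn0)
        set m : k[X] := C l * X ^ a with hm
        have hm0 : m ≠ 0 := by
          rw [hm]
          exact mul_ne_zero (C_ne_zero.2 hl0) (pow_ne_zero _ X_ne_zero)
        have hmd : m.natDegree = a := natDegree_C_mul_X_pow a l hl0
        have hex : expand k q m = C l * X ^ (q * a) := by
          rw [hm, map_mul, expand_C, map_pow, expand_X, ← pow_mul]
        set g : k[X] := expand k q m * n (e % q) with hg
        have hgd : g.natDegree = e := by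
          rw [hg, natDegree_mul ((expand_ne_zero hq).2 hm0) hn0, natDegree_expand, hmd,
            mul_comm]
          exact ha.symm
        have hgl : g.leadingCoeff = u.leadingCoeff := by
          rw [hg, leadingCoeff_mul, hex, leadingCoeff_mul, leadingCoeff_C, leadingCoeff_X_pow,
            mul_one, hl]
          exact div_mul_cancel₀ _ (mt leadingCoeff_eq_zero.1 hn0)
        have hu' : W (u - g) := by
          have h3 : u - g = u + expand k q (-m) * n (e % q) := by
            rw [hg, map_neg]
            ring
          rw [h3]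
          exact hW.add _ _ hu (hW.smul _ _ hWn)
        have hcomb : ∀ A : ℕ → k[X], u - g = ∑ c ∈ T, expand k q (A c) * n c →
            u = ∑ c ∈ T, expand k q (A c + if c = e % q then m else 0) * n c := by
          intro A hA
          have h3 : ∀ c, expand k q (A c + if c = e % q then m else 0) * n c =
              expand k q (A c) * n c + if c = e % q then g else 0 := by
            intro c
            rw [map_add, add_mul]
            congr 1
            split_ifs with h
            · rw [hg, h]
            · rw [map_zero, zero_mul]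
          rw [Finset.sum_congr rfl fun c _ => h3 c, Finset.sum_add_distrib, ← hA,
            Finset.sum_ite_eq', if_pos hc, sub_add_cancel]
        have hbound : ∀ A : ℕ → k[X], (∀ c ∈ T, A c = 0 ∨
            q * (A c).natDegree + (n c).natDegree ≤ e) →
            ∀ c ∈ T, (A c + if c = e % q then m else 0) = 0 ∨
              q * (A c + if c = e % q then m else 0).natDegree + (n c).natDegree ≤ e := by
          intro A hA c hcT
          split_ifs with h
          · right
            have h4 := natDegree_add_le (A c) m
            rw [hmd] at h4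
            have h5 : q * a + (n c).natDegree ≤ e := by
              rw [h]
              exact ha.symm.le
            rcases hA c hcT with h6 | h6
            · rw [h6, zero_add, hmd]
              exact h5
            · rcases le_total (A c).natDegree a with h7 | h7
              · rw [max_eq_right h7] at h4
                exact (Nat.add_le_add_right (Nat.mul_le_mul_left q h4) _).trans h5
              · rw [max_eq_left h7] at h4
                exact (Nat.add_le_add_right (Nat.mul_le_mul_left q h4) _).trans h6
          · rw [add_zero]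
            exact hA c hcT
        by_cases h0 : u - g = 0
        · refine ⟨_, hcomb (fun _ => 0) ?_, hbound (fun _ => 0) fun _ _ => Or.inl rfl⟩
          rw [h0]
          simp
        · have hlt : (u - g).natDegree < e := by
            have h3 := degree_sub_lt_left (p := u) (q := g)
              (by rw [degree_eq_natDegree hu0, degree_eq_natDegree (by
                intro h; rw [h, leadingCoeff_zero] at hgl
                exact hu0 (leadingCoeff_eq_zero.1 hgl.symm)), hgd]) hu0 hgl.symm
            rw [degree_eq_natDegree h0, degree_eq_natDegree hu0] at h3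
            exact_mod_cast h3
          obtain ⟨A, hA1, hA2⟩ := ih (u - g) hu' (by omega)
          refine ⟨_, hcomb A hA1, hbound A fun c hcT => ?_⟩
          rcases hA2 c hcT with h4 | h4
          · exact Or.inl h4
          · exact Or.inr (h4.trans hlt.le)
    intro u hu
    exact key _ u hu (Nat.lt_succ_self _)

end Pool.Agent.Y709.Gen
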