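import Pool.Agent.Y709.Gen.LatA
import Mathlib.RingTheory.Polynomial.Basic
import Mathlib.LinearAlgebra.Dimension.Constructions
import Mathlib.LinearAlgebra.Basis.VectorSpace
import Mathlib.LinearAlgebra.FiniteDimensional.Lemmas
import Mathlib.FieldTheory.Finiteness

/-!
Saturated modules over the ring of the `q`-th powers and their duals.
-/

set_option autoImplicit false
set_option linter.unusedSectionVars false

open Polynomial

namespace Pool.Agent.Y709.Gen

variable {k : Type} [Field k] {q r : ℕ}

/-- the saturation of a module -/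
def SatW (q : ℕ) {k : Type} [Field k] {r : ℕ} (v : Fin r → k[X]) (u : k[X]) : Prop :=
  ∃ a : k[X], a ≠ 0 ∧ ∃ c : Fin r → k[X], expand k q a * u = ∑ i, expand k q (c i) * v i

theorem lat_sat (v : Fin r → k[X]) : Lat q (SatW q v) where
  add := by
    rintro u u' ⟨a, ha, c, hc⟩ ⟨a', ha', c', hc'⟩
    refine ⟨a * a', mul_ne_zero ha ha', fun i => a' * c i + a * c' i, ?_⟩
    have h1 : expand k q (a * a') * (u + u') =
        expand k q a' * (expand k q a * u) + expand k q a * (expand k q a' * u') := by
      rw [map_mul]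
      ring
    rw [h1, hc, hc', Finset.mul_sum, Finset.mul_sum, ← Finset.sum_add_distrib]
    refine Finset.sum_congr rfl fun i _ => ?_
    rw [map_add, map_mul, map_mul]
    ring
  smul := by
    rintro h u ⟨a, ha, c, hc⟩
    refine ⟨a, ha, fun i => h * c i, ?_⟩
    rw [mul_left_comm, hc, Finset.mul_sum]
    refine Finset.sum_congr rfl fun i _ => ?_
    rw [map_mul]
    ring

theorem sat_zero (v : Fin r → k[X]) : SatW q v 0 :=
  ⟨1, one_ne_zero, fun _ => 0, by simp⟩

theorem sat_mem (v : Fin r → k[X]) (i : Fin r) : SatW q v (v i) := by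
  classical
  refine ⟨1, one_ne_zero, fun j => if j = i then 1 else 0, ?_⟩
  rw [map_one, one_mul, Finset.sum_eq_single i]
  · show v i = expand k q (if i = i then 1 else 0) * v i
    rw [if_pos rfl, map_one, one_mul]
  · intro j _ hj
    show expand k q (if j = i then 1 else 0) * v j = 0
    rw [if_neg hj, map_zero, zero_mul]
  · intro h
    exact absurd (Finset.mem_univ _) h

theorem sat_sat (v : Fin r → k[X]) {h u : k[X]} (hh : h ≠ 0) (hu : SatW q v (expand k q h * u)) :
    SatW q v u := by
  obtain ⟨a, ha, c, hc⟩ := hu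
  refine ⟨a * h, mul_ne_zero ha hh, c, ?_⟩
  rw [map_mul, mul_assoc, hc]

theorem reduced_sat (hq : 0 < q) {v : Fin r → k[X]} (hv : Ind q v) : ∃ n : Fin r → k[X],
    (∀ j, SatW q v (n j) ∧ n j ≠ 0) ∧
    (∀ i j, i ≠ j → ¬ (n i).natDegree ≡ (n j).natDegree [MOD q]) ∧
    ∀ u, SatW q v u → ∃ A : Fin r → k[X], u = ∑ j, expand k q (A j) * n j ∧
      ∀ j, A j = 0 ∨ q * (A j).natDegree + (n j).natDegree ≤ u.natDegree := by
  classical
  obtain ⟨T, n, hn, hrep⟩ := exists_reduced (lat_sat v) hq
  have hcl : ∀ i j : T, i ≠ j → ¬ (n i).natDegree ≡ (n j).natDegree [MOD q] := by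
    intro i j hij h
    apply hij
    apply Subtype.ext
    have h1 := (hn i i.2).2.2.2
    have h2 := (hn j j.2).2.2.2
    rw [← h1, ← h2]
    exact h
  have h1 : Fintype.card (Fin r) ≤ Fintype.card T := by
    have h2 := fun i => hrep (v i) (sat_mem v i)
    choose A hA _ using h2
    refine rank_le hv (fun c : T => n c) (fun _ => 1) (fun _ => one_ne_zero)
      (fun i c => A i c) fun i => ?_
    rw [map_one, one_mul]
    conv_lhs => rw [hA i]
    exact (Finset.sum_coe_sort T (fun c => expand k q (A i c) * n c)).symm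
  have h2 : Fintype.card T ≤ Fintype.card (Fin r) := by
    have h3 := fun c : T => (hn c c.2).2.1
    choose a ha c hc using h3
    exact rank_le (ind_of_classes (fun j : T => (hn j j.2).2.2.1) hcl hq) v a ha c hc
  have hcard : Fintype.card (Fin r) = Fintype.card T := le_antisymm h1 h2
  let e : Fin r ≃ T := Fintype.equivOfCardEq hcard
  refine ⟨fun j => n (e j), fun j => ⟨(hn _ (e j).2).2.1, (hn _ (e j).2).2.2.1⟩, ?_, ?_⟩
  · intro i j hij
    exact hcl _ _ fun h => hij (e.injective h)
  · intro u hu
    obtain ⟨A, hA1, hA2⟩ := hrep u hu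
    refine ⟨fun j => A (e j), ?_, fun j => hA2 _ (e j).2⟩
    conv_lhs => rw [hA1]
    rw [← Finset.sum_coe_sort T (fun c => expand k q (A c) * n c)]
    exact (Equiv.sum_comp e (fun c : T => expand k q (A c) * n c)).symm

section count

variable (hq : 0 < q) {W : k[X] → Prop} {n : Fin r → k[X]}

/-- the bound of the dimension of a space of polynomials -/
theorem finrank_le_of_degrees {V : Type} [AddCommGroup V] [Module k V]
    (Θ : V →ₗ[k] k[X]) (hΘ : Function.Injective Θ) (S : Finset ℕ)
    (hS : ∀ x, Θ x ≠ 0 → (Θ x).natDegree ∈ S) : Module.finrank k V ≤ S.card := by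
  let ev : k[X] →ₗ[k] (S → k) := LinearMap.pi fun s => lcoeff k s
  have h1 : Function.Injective (ev.comp Θ) := by
    rw [← LinearMap.ker_eq_bot, LinearMap.ker_eq_bot']
    intro x hx
    apply hΘ
    rw [map_zero]
    by_contra h
    have h2 := congrFun hx ⟨_, hS x h⟩
    exact mt leadingCoeff_eq_zero.1 h h2
  have h2 := LinearMap.finrank_le_finrank_of_injective h1
  rwa [Module.finrank_fintype_fun_eq_card, Fintype.card_coe] at h2

/-- the case of a vector outside of the module -/
theorem no_outside {r : ℕ} {n : Fin r → k[X]} (hn0 : ∀ j, n j ≠ 0)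
    (hcl : ∀ i j, i ≠ j → ¬ (n i).natDegree ≡ (n j).natDegree [MOD q]) (hq : 0 < q)
    {N b : ℕ} (hsum : ∑ j, (n j).natDegree / q < (N + 1) / q) (Λ : Fin r → k[X]) {P ε : k[X]}
    (hU : ∑ j, expand k q (Λ j) * n j = X ^ (q * b) * P + ε)
    (hε : ε = 0 ∨ ε.natDegree + N + 2 ≤ q * b)
    (hP : ∀ B : k[X], B ≠ 0 → ∀ A : Fin r → k[X],
      expand k q B * P ≠ ∑ j, expand k q (A j) * n j) : False := by
  classical
  set a := (N + 1) / q with ha
  have haN : q * a ≤ N + 1 := Nat.mul_div_le _ _
  -- a large degree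
  set E := ∑ j, (n j).natDegree + 1 with hE
  have hlE : ∀ j, (n j).natDegree < E := by
    intro j
    have := Finset.single_le_sum (f := fun j => (n j).natDegree) (fun _ _ => Nat.zero_le _)
      (Finset.mem_univ j)
    omega
  have hqE : E ≤ q * E := Nat.le_mul_of_pos_left _ hq
  set α : Fin r → ℕ := fun j => E - (n j).natDegree / q with hα
  set β := E + a + 1 with hβ
  have hXb : (X ^ b : k[X]).Monic := monic_X_pow b
  -- the vectors
  let Q : ℕ → Fin r → k[X] := fun i j => (X ^ i * Λ j) /ₘ X ^ b
  let Rm : ℕ → Fin r → k[X] := fun i j => (X ^ i * Λ j) %ₘ X ^ b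
  have hQR : ∀ i j, X ^ i * Λ j = X ^ b * Q i j + Rm i j := fun i j => by
    rw [add_comm]
    exact (modByMonic_add_div (X ^ i * Λ j) (X ^ b)).symm
  let w : ℕ → k[X] := fun i => expand k q (X ^ i) * P - ∑ j, expand k q (Q i j) * n j
  have hw : ∀ i, X ^ (q * b) * w i = ∑ j, expand k q (Rm i j) * n j - expand k q (X ^ i) * ε := by
    intro i
    have h1 : X ^ (q * b) * (expand k q (X ^ i) * P) =
        expand k q (X ^ i) * (∑ j, expand k q (Λ j) * n j) - expand k q (X ^ i) * ε := by
      rw [hU]
      ring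
    have h2 : expand k q (X ^ i) * (∑ j, expand k q (Λ j) * n j) =
        ∑ j, expand k q (Rm i j) * n j + X ^ (q * b) * ∑ j, expand k q (Q i j) * n j := by
      rw [Finset.mul_sum, Finset.mul_sum, ← Finset.sum_add_distrib]
      refine Finset.sum_congr rfl fun j _ => ?_
      rw [← mul_assoc, ← map_mul, hQR, map_add, map_mul, map_pow, expand_X, ← pow_mul]
      ring
    show X ^ (q * b) * (expand k q (X ^ i) * P - ∑ j, expand k q (Q i j) * n j) = _
    rw [mul_sub, h1, h2]
    ring
  have hwd : ∀ i, i < β → (w i).natDegree ≤ q * E - 1 := by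
    intro i hi
    by_cases h0 : w i = 0
    · rw [h0, natDegree_zero]
      exact Nat.zero_le _
    have h1 : (X ^ (q * b) * w i).natDegree = q * b + (w i).natDegree := by
      rw [natDegree_mul (pow_ne_zero _ X_ne_zero) h0, natDegree_X_pow]
    have h2 : (∑ j, expand k q (Rm i j) * n j).natDegree ≤ q * b + (q * E - 1) := by
      refine natDegree_sum_le_of_forall_le _ _ fun j _ => ?_
      refine natDegree_mul_le.trans ?_
      rw [natDegree_expand]
      have h3 : (Rm i j).natDegree ≤ b := by
        have h4 := natDegree_modByMonic_le (X ^ i * Λ j) hXb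
        rwa [natDegree_X_pow] at h4
      have h4 : (Rm i j).natDegree * q ≤ q * b := by
        rw [mul_comm]
        exact Nat.mul_le_mul_left q h3
      have h5 := hlE j
      omega
    have h3 : (expand k q (X ^ i) * ε).natDegree ≤ q * b + (q * E - 1) := by
      rcases hε with h4 | h4
      · rw [h4, mul_zero, natDegree_zero]
        exact Nat.zero_le _
      · refine natDegree_mul_le.trans ?_
        rw [natDegree_expand, natDegree_X_pow]
        have h5 : i * q ≤ (E + a) * q := Nat.mul_le_mul_right q (by omega)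
        have h6 : (E + a) * q = q * E + q * a := by ring
        omega
    have h4 : (X ^ (q * b) * w i).natDegree ≤ q * b + (q * E - 1) := by
      rw [hw]
      exact (natDegree_sub_le _ _).trans (max_le h2 h3)
    omega
  let V := (Fin β ⊕ (Σ j : Fin r, Fin (α j))) → k
  let fam : (Fin β ⊕ (Σ j : Fin r, Fin (α j))) → k[X] :=
    Sum.elim (fun i => w i) (fun x => X ^ (q * (x.2 : ℕ)) * n x.1)
  let Θ : V →ₗ[k] k[X] := Fintype.linearCombination k fam
  -- the components of a vector
  let B : V → k[X] := fun f => ∑ i : Fin β, C (f (Sum.inl i)) * X ^ (i : ℕ)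
  let A : V → Fin r → k[X] := fun f j => ∑ i : Fin (α j), C (f (Sum.inr ⟨j, i⟩)) * X ^ (i : ℕ)
  have hΘ : ∀ f, Θ f = expand k q (B f) * P + ∑ j, expand k q
      (A f j - ∑ i : Fin β, C (f (Sum.inl i)) * Q i j) * n j := by
    intro f
    have h1 : Θ f = ∑ i : Fin β, C (f (Sum.inl i)) * w i +
        ∑ j : Fin r, ∑ i : Fin (α j), C (f (Sum.inr ⟨j, i⟩)) * (X ^ (q * (i : ℕ)) * n j) := by
      show Fintype.linearCombination k fam f = _
      rw [Fintype.linearCombination_apply, Fintype.sum_sum_type, Fintype.sum_sigma]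
      congr 1
      · refine Finset.sum_congr rfl fun i _ => ?_
        rw [smul_eq_C_mul]
        rfl
      · refine Finset.sum_congr rfl fun j _ => Finset.sum_congr rfl fun i _ => ?_
        rw [smul_eq_C_mul]
        rfl
    have h2 : ∑ i : Fin β, C (f (Sum.inl i)) * w i = expand k q (B f) * P -
        ∑ j, expand k q (∑ i : Fin β, C (f (Sum.inl i)) * Q i j) * n j := by
      have h3 : ∀ i : Fin β, C (f (Sum.inl i)) * w i =
          expand k q (C (f (Sum.inl i)) * X ^ (i : ℕ)) * P -
            ∑ j, expand k q (C (f (Sum.inl i)) * Q i j) * n j := by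
        intro i
        show C (f (Sum.inl i)) * (expand k q (X ^ (i : ℕ)) * P - ∑ j, expand k q (Q i j) * n j) = _
        rw [mul_sub, Finset.mul_sum, map_mul, expand_C, mul_assoc]
        congr 1
        refine Finset.sum_congr rfl fun j _ => ?_
        rw [map_mul, expand_C, mul_assoc]
      rw [Finset.sum_congr rfl fun i _ => h3 i, Finset.sum_sub_distrib, ← Finset.sum_mul,
        ← map_sum, Finset.sum_comm]
      congr 1
      refine Finset.sum_congr rfl fun j _ => ?_
      rw [map_sum, Finset.sum_mul]
    have h4 : ∀ j, ∑ i : Fin (α j), C (f (Sum.inr ⟨j, i⟩)) * (X ^ (q * (i : ℕ)) * n j) =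
        expand k q (A f j) * n j := by
      intro j
      show _ = expand k q (∑ i : Fin (α j), C (f (Sum.inr ⟨j, i⟩)) * X ^ (i : ℕ)) * n j
      rw [map_sum, Finset.sum_mul]
      refine Finset.sum_congr rfl fun i _ => ?_
      rw [map_mul, expand_C, map_pow, expand_X, ← pow_mul, mul_assoc]
    rw [h1, h2, Finset.sum_congr rfl fun j _ => h4 j]
    have h5 : ∀ j, expand k q (A f j - ∑ i : Fin β, C (f (Sum.inl i)) * Q i j) * n j =
        expand k q (A f j) * n j - expand k q (∑ i : Fin β, C (f (Sum.inl i)) * Q i j) * n j := by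
      intro j
      rw [map_sub, sub_mul]
    rw [Finset.sum_congr rfl fun j _ => h5 j, Finset.sum_sub_distrib]
    ring
  have hcoB : ∀ f (i : Fin β), (B f).coeff i = f (Sum.inl i) := by
    intro f i
    show (∑ i : Fin β, C (f (Sum.inl i)) * X ^ (i : ℕ)).coeff i = _
    rw [finsetSum_coeff, Finset.sum_eq_single i]
    · rw [coeff_C_mul, coeff_X_pow, if_pos rfl, mul_one]
    · intro j _ hj
      rw [coeff_C_mul, coeff_X_pow, if_neg (fun h => hj (Fin.ext h.symm)), mul_zero]
    · intro h
      exact absurd (Finset.mem_univ _) h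
  have hcoA : ∀ f j (i : Fin (α j)), (A f j).coeff i = f (Sum.inr ⟨j, i⟩) := by
    intro f j i
    show (∑ i : Fin (α j), C (f (Sum.inr ⟨j, i⟩)) * X ^ (i : ℕ)).coeff i = _
    rw [finsetSum_coeff, Finset.sum_eq_single i]
    · rw [coeff_C_mul, coeff_X_pow, if_pos rfl, mul_one]
    · intro l _ hl
      rw [coeff_C_mul, coeff_X_pow, if_neg (fun h => hl (Fin.ext h.symm)), mul_zero]
    · intro h
      exact absurd (Finset.mem_univ _) h
  have hinj : Function.Injective Θ := by
    rw [← LinearMap.ker_eq_bot, LinearMap.ker_eq_bot']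
    intro f hf
    rw [hΘ] at hf
    have hB : B f = 0 := by
      by_contra hB
      apply hP (B f) hB (fun j => -(A f j - ∑ i : Fin β, C (f (Sum.inl i)) * Q i j))
      rw [eq_comm, ← sub_eq_zero, ← neg_eq_zero, neg_sub, ← hf, sub_eq_add_neg,
        ← Finset.sum_neg_distrib]
      congr 1
      refine Finset.sum_congr rfl fun j _ => ?_
      rw [map_neg]
      ring
    have hl : ∀ i : Fin β, f (Sum.inl i) = 0 := by
      intro i
      rw [← hcoB f i, hB, coeff_zero]
    have h1 : ∑ j, expand k q (A f j) * n j = 0 := by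
      rw [← hf, hB, map_zero, zero_mul, zero_add]
      refine Finset.sum_congr rfl fun j _ => ?_
      congr 2
      have : ∑ i : Fin β, C (f (Sum.inl i)) * Q i j = 0 := by
        refine Finset.sum_eq_zero fun i _ => ?_
        rw [hl, C_0, zero_mul]
      rw [this, sub_zero]
    have h2 := ind_of_classes hn0 hcl hq _ h1
    funext x
    rcases x with i | ⟨j, i⟩
    · exact hl i
    · rw [← hcoA f j i, congrFun h2 j]
      rfl
  have hdeg : ∀ f, (Θ f).natDegree < q * E := by
    intro f
    have h1 : (Θ f).natDegree ≤ q * E - 1 := by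
      show (Fintype.linearCombination k fam f).natDegree ≤ _
      rw [Fintype.linearCombination_apply]
      refine natDegree_sum_le_of_forall_le _ _ fun x _ => ?_
      refine (natDegree_smul_le _ _).trans ?_
      rcases x with i | ⟨j, i⟩
      · exact hwd i i.2
      · show (X ^ (q * (i : ℕ)) * n j).natDegree ≤ _
        refine natDegree_mul_le.trans ?_
        rw [natDegree_X_pow]
        have h2 : (i : ℕ) + 1 ≤ E - (n j).natDegree / q := i.2
        have h3 := Nat.div_add_mod (n j).natDegree q
        have h4 := Nat.mod_lt (n j).natDegree hq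
        have h5 : q * ((i : ℕ) + 1 + (n j).natDegree / q) ≤ q * E :=
          Nat.mul_le_mul_left q (by omega)
        have h6 : q * ((i : ℕ) + 1 + (n j).natDegree / q) =
            q * (i : ℕ) + q + q * ((n j).natDegree / q) := by ring
        omega
    omega
  -- the degrees that occur
  set S := (Finset.range (q * E)).filter fun s => ∃ f, Θ f ≠ 0 ∧ (Θ f).natDegree = s with hS
  have h1 := finrank_le_of_degrees Θ hinj S (fun f hf => by
    rw [hS, Finset.mem_filter, Finset.mem_range]
    exact ⟨hdeg f, f, hf, rfl⟩)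
  have h2 : Module.finrank k V = β + ∑ j, α j := by
    rw [Module.finrank_fintype_fun_eq_card, Fintype.card_sum, Fintype.card_fin,
      Fintype.card_sigma]
    simp only [Fintype.card_fin]
  set Cl := S.image (fun s => s % q) with hCl
  have h3 : Cl.card ≤ r + 1 := by
    have h4 : ∀ c : Cl, ∃ f, Θ f ≠ 0 ∧ (Θ f).natDegree % q = c := by
      rintro ⟨c, hc⟩
      obtain ⟨s, hs, hsc⟩ := Finset.mem_image.1 hc
      obtain ⟨_, f, hf, hfs⟩ := Finset.mem_filter.1 hs
      exact ⟨f, hf, by rw [hfs]; exact hsc⟩
    choose g hg0 hgc using h4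
    have h5 : Ind q (fun c : Cl => Θ (g c)) := by
      refine ind_of_classes hg0 ?_ hq
      intro c c' hcc h
      apply hcc
      apply Subtype.ext
      rw [← hgc c, ← hgc c']
      exact h
    have h6 := rank_le h5 (fun o : Option (Fin r) => o.elim P n) (fun _ => 1)
      (fun _ => one_ne_zero) (fun c o => o.elim (B (g c))
        (fun j => A (g c) j - ∑ i : Fin β, C ((g c) (Sum.inl i)) * Q i j)) (fun c => by
        rw [map_one, one_mul, Fintype.sum_option, hΘ]
        rfl)
    rwa [Fintype.card_coe, Fintype.card_option, Fintype.card_fin] at h6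
  have h4 : S.card ≤ Cl.card * E := by
    have h5 : S.card ≤ (Cl ×ˢ Finset.range E).card := by
      refine Finset.card_le_card_of_injOn (fun s => (s % q, s / q)) ?_ ?_
      · intro s hs
        rw [Finset.mem_coe] at hs
        rw [Finset.mem_coe, Finset.mem_product]
        refine ⟨Finset.mem_image_of_mem _ hs, ?_⟩
        have h6 := Finset.mem_range.1 (Finset.mem_filter.1 hs).1
        rw [Finset.mem_range]
        exact Nat.div_lt_of_lt_mul h6
      · intro s _ s' _ h
        have h6 := (Prod.mk.inj h).1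
        have h7 := (Prod.mk.inj h).2
        rw [← Nat.div_add_mod s q, ← Nat.div_add_mod s' q, h6, h7]
    rwa [Finset.card_product, Finset.card_range] at h5
  have h5 : ∑ j, α j + ∑ j, (n j).natDegree / q = r * E := by
    rw [← Finset.sum_add_distrib]
    have h6 : ∀ j, α j + (n j).natDegree / q = E := by
      intro j
      show E - (n j).natDegree / q + (n j).natDegree / q = E
      have h7 := hlE j
      have h8 := Nat.div_le_self (n j).natDegree q
      omega
    rw [Finset.sum_congr rfl fun j _ => h6 j, Finset.sum_const, Finset.card_univ,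
      Fintype.card_fin, smul_eq_mul]
  have h6 : Cl.card * E ≤ (r + 1) * E := Nat.mul_le_mul_right E h3
  have h7 : (r + 1) * E = r * E + E := by ring
  omega

end count

end Pool.Agent.Y709.Gen
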