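import Pool.Agent.Y709.Gen.GlobG
import Pool.Agent.Y709.Gen.FixG
import Pool.Agent.Y709.Main
import Pool.Agent.Y709.GStm

/-!
The main theorem, general form.
-/

set_option autoImplicit false
set_option linter.unusedSectionVars false

open Polynomial

namespace Pool.Agent.Y709.Gen

open Pool.Agent.W313.Hyp Pool.Agent.W343.BSD

/-- vanishing at `s = 1` implies that there is a fixed vector -/
theorem fixed_of_vanishG {k : Type} [Field k] [Fintype k] {q : ℕ} (hk : Fintype.card k = q)
    (h5 : 5 ≤ q) {A : Type} [CommRing A] [IsDomain A] [CharZero A]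
    (χ : MulChar k A) (hχ : orderOf χ = q - 1) {κ : Type} [Fintype κ] [DecidableEq κ]
    (E : k[X]) (b : κ → k[X]) {m : κ → ℕ} (hm : ∀ i, 0 < m i) (hmq : ∑ i, m i < q - 1)
    (hinv : ∀ i : ℕ, i < ∑ l, m l → ((i : k) + 1) ≠ 0) (o : κ) (G : A[X])
    (hG : LG χ E b m = (((1 - C (q : A) * X) * G : A[X]) : PowerSeries A)) :
    ∃ w : κ → k[X], w ≠ 0 ∧ ∀ i, cart q (∑ j, E * phi k b m o i j * w j) = w i := by
  obtain ⟨p, hp⟩ := CharP.exists k
  have hpf : Fact (Nat.Prime p) := ⟨CharP.char_is_prime k p⟩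
  let K := AlgebraicClosure k
  have hpK : CharP K p := charP_of_injective_algebraMap (algebraMap k K).injective p
  have hc0 := witt_charZero p K
  obtain ⟨G', hG'⟩ := transfer χ (by rw [hχ, hk]) (teichChar (k := k) p K)
    (orderOf_teichChar p K) _ (plane_finite (k := k))
    (fun z : Σ P : MI k, MI (RS P) => Algebra.norm k (AdjoinRoot.mk z.2.1
      (fibp (val z.1 E) (fun i => val z.1 (b i)) m))) q G hG
  set d := ∑ i, (b i).natDegree with hd
  have hb : ∀ i, (b i).natDegree ≤ d := fun i =>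
    Finset.single_le_sum (f := fun i => (b i).natDegree) (fun _ _ => Nat.zero_le _)
      (Finset.mem_univ i)
  set e := E.natDegree + d * ∑ i, m i with he
  have hn : e < (q - 1) * (e + 1) := by
    have h1 : 1 * (e + 1) ≤ (q - 1) * (e + 1) := Nat.mul_le_mul_right _ (by omega)
    omega
  obtain ⟨L, h1, h2⟩ := global_feG (k := k) (K := K) (WittVector.constantCoeff (p := p) (R := K))
    (fun r hr => WittVector.isUnit_of_coeff_zero_ne_zero r hr) (teichChar (k := k) p K)
    (fun u => by rw [teichChar_apply]; exact coeff_teich p K _) hk h5 E b hb hm hmq hinv o hn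
  have h3 := eval_of_fe (WittVector.constantCoeff (p := p) (R := K)) (by omega : q ≠ 0) h1 h2 G' hG'
  obtain ⟨w, hw0, hw⟩ := fixed_of_detG q e (by omega) (MG E b m o)
    (fun i j => (natDegree_MG E hb hm o i j).trans_lt hn) h3
  exact ⟨w, hw0, hw⟩

/-- **the number of vanishing twists** -/
theorem main_countG {k : Type} [Field k] [Fintype k] {q r : ℕ} (hk : Fintype.card k = q)
    (hcount : CountGen k q r) (B : k[X]) (hB : B ≠ 0) (b : Fin (r + 1) → k[X])
    (hbi : Function.Injective b) (d : ℕ) (hb : ∀ i, (b i).natDegree ≤ d)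
    (m : Fin (r + 1) → ℕ) (hm : ∀ i, 0 < m i)
    (hinv : ∀ i : ℕ, i < ∑ l, m l → ((i : k) + 1) ≠ 0) (f ρ M N : ℕ)
    (hf : B.natDegree + d * ∑ i, m i ≤ f) (hmq : ∑ i, m i < q - 1)
    (h1 : r * f + 3 * r ^ 2 + 6 * r + 8 ≤ q) (h2 : r + 1 ≤ ρ) (h3 : ρ + f ≤ q - 1)
    (h4 : 4 * r ^ 2 + 8 ≤ M) (h5 : N + 1 = (q - 1) * M + ρ) :
    {D : k[X] | D.natDegree ≤ N ∧ ∃ χ : MulChar k ℂ, orderOf χ = q - 1 ∧ ∃ G : ℂ[X],
      LG χ (D * B) b m = (((1 - C (q : ℂ) * X) * G : ℂ[X]) : PowerSeries ℂ)}.ncard ≤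
        2 * r * q ^ N := by
  obtain ⟨p, hp⟩ := CharP.exists k
  have hpf : Fact (Nat.Prime p) := ⟨CharP.char_is_prime k p⟩
  obtain ⟨s, _, hqs⟩ := FiniteField.card k p
  rw [hk] at hqs
  have hmle : ∀ i, m i < q := by
    intro i
    have : m i ≤ ∑ i, m i := Finset.single_le_sum (f := m) (fun _ _ => Nat.zero_le _)
      (Finset.mem_univ i)
    omega
  have hdet := det_minor (k := k) hqs s.pos hB hbi hm hmle hinv
  have h6 := hcount (minor B b m) f ρ M N hdet (fun i j => by
    unfold minor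
    rw [Matrix.of_apply]
    exact (natDegree_mul_le.trans (Nat.add_le_add_left (natDegree_phi hb hm 0 _ _) _)).trans hf)
    h1 h2 h3 h4 h5
  refine le_trans ?_ h6
  have h7 : {D : k[X] | D.natDegree ≤ N ∧ ∃ w : Fin r → k[X], w ≠ 0 ∧
      ∀ i, cart q (D * ∑ j, minor B b m i j * w j) = w i}.Finite :=
    (finite_natDegree_le N).subset fun D hD => hD.1
  refine (Set.ncard_le_ncard ?_ h7).trans (le_of_eq ?_)
  · rintro D ⟨hD, χ, hχ, G, hG⟩
    refine ⟨hD, ?_⟩
    obtain ⟨w, hw0, hw⟩ := fixed_of_vanishG hk (by omega) χ hχ (D * B) b hm hmq hinv 0 G hG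
    have hw00 : w 0 = 0 := by
      have h8 : ∑ j, D * B * phi k b m 0 0 j * w j = 0 := by
        refine Finset.sum_eq_zero fun j _ => ?_
        rw [phi_row k _ _ rfl, mul_zero, zero_mul]
      rw [← hw 0, h8, cart_zero (by omega)]
    refine ⟨fun i => w i.succ, ?_, ?_⟩
    · intro h9
      apply hw0
      funext i
      refine Fin.cases hw00 (fun i => ?_) i
      exact congrFun h9 i
    · intro i
      show cart q (D * ∑ j, minor B b m i j * w j.succ) = w i.succ
      refine Eq.trans ?_ (hw i.succ)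
      have h10 : D * ∑ j : Fin r, minor B b m i j * w j.succ =
          ∑ j : Fin (r + 1), D * B * phi k b m 0 i.succ j * w j := by
        rw [Fin.sum_univ_succ, hw00, mul_zero, zero_add, Finset.mul_sum]
        refine Finset.sum_congr rfl fun j _ => ?_
        unfold minor
        rw [Matrix.of_apply]
        ring
      rw [h10]
  · exact (Nat.card_coe_set_eq _).symm

end Pool.Agent.Y709.Gen
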