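import Pool.Agent.Y709.Gen.CS
import Pool.Agent.Y709.Fib
import Pool.Agent.Y709.Fe

/-!
The weights of the fibres.
-/

set_option autoImplicit false
set_option linter.unusedSectionVars false

open Polynomial

namespace Pool.Agent.Y709.Gen

open Pool.Agent.W313.Hyp Pool.Agent.W343.BSD

section psi

variable {F : Type} [Field F] {R : Type} [CommRing R] {κ : Type} [Fintype κ]

/-- the weight of a polynomial -/
noncomputable def psiG (χ : MulChar F R) (c : F) (b : κ → F) (m : κ → ℕ) (g : F[X]) : R :=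
  χ (c ^ g.natDegree * mp m (fun i => g.eval (b i)))

theorem psiG_one (χ : MulChar F R) (c : F) (b : κ → F) (m : κ → ℕ) : psiG χ c b m 1 = 1 := by
  unfold psiG mp
  rw [natDegree_one, pow_zero]
  simp

theorem psiG_mul (χ : MulChar F R) (c : F) (b : κ → F) (m : κ → ℕ) (P : MI F) (g : F[X])
    (hg : g.Monic) : psiG χ c b m (P.1 * g) = psiG χ c b m P.1 * psiG χ c b m g := by
  unfold psiG
  have h1 : (fun i => (P.1 * g).eval (b i)) = fun i => P.1.eval (b i) * g.eval (b i) := by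
    funext i
    rw [eval_mul]
  rw [P.2.1.natDegree_mul hg, ← map_mul, h1, mp_mul]
  congr 1
  ring

theorem norm_prod (Q : MI F) (c : F) (b : κ → F) (m : κ → ℕ) :
    Algebra.norm F (AdjoinRoot.mk Q.1 (C c * ∏ i, (X - C (b i)) ^ m i)) =
      ((-1) ^ (∑ i, m i) * c) ^ Q.1.natDegree * mp m (fun i => Q.1.eval (b i)) := by
  have hirr : Fact (Irreducible Q.1) := ⟨Q.2.2⟩
  have h1 : Algebra.norm F (AdjoinRoot.mk Q.1 (C c)) = c ^ Q.1.natDegree := by
    have h2 : AdjoinRoot.mk Q.1 (C c) = algebraMap F (AdjoinRoot Q.1) c := rfl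
    rw [h2, Algebra.norm_algebraMap, (AdjoinRoot.powerBasis Q.2.1.ne_zero).finrank,
      AdjoinRoot.powerBasis_dim]
  rw [map_mul, map_mul, h1, map_prod, map_prod]
  have h2 : ∏ i, Algebra.norm F (AdjoinRoot.mk Q.1 ((X - C (b i)) ^ m i)) =
      ∏ i, ((-1) ^ Q.1.natDegree) ^ m i * (Q.1.eval (b i)) ^ m i := by
    refine Finset.prod_congr rfl fun i _ => ?_
    rw [map_pow, map_pow, norm_mk_sub, mul_pow]
  rw [h2, Finset.prod_mul_distrib, Finset.prod_pow_eq_pow_sum, mul_pow, ← pow_mul, ← pow_mul,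
    mul_comm Q.1.natDegree]
  unfold mp
  ring

variable {k : Type} [Field k] [Algebra k F] [FiniteDimensional k F]

theorem psiG_eq_norm (χ : MulChar k R) (c : F) (b : κ → F) (m : κ → ℕ) (Q : MI F) :
    χ (Algebra.norm k (AdjoinRoot.mk Q.1 (C c * ∏ i, (X - C (b i)) ^ m i))) =
      psiG (chiN F χ) ((-1) ^ (∑ i, m i) * c) b m Q.1 := by
  have hirr : Fact (Irreducible Q.1) := ⟨Q.2.2⟩
  have hfd : FiniteDimensional F (AdjoinRoot Q.1) := Q.2.1.finite_adjoinRoot
  rw [← Algebra.norm_norm (S := F), norm_prod]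
  rfl

/-- the Euler product of a fibre -/
noncomputable def fibG (R : Type) [CommRing R] {k F : Type} [Field k] [Field F] [Algebra k F]
    (χ : MulChar k R) (G : F[X]) : PowerSeries R :=
  eulerProd (fun Q : MI F => Q.1.natDegree) (fun Q => 1 - PowerSeries.C
    (χ (Algebra.norm k (AdjoinRoot.mk Q.1 G))) * PowerSeries.X ^ Q.1.natDegree)

theorem fibG_eq [Finite F] (χ : MulChar k R) (c : F) (b : κ → F) (m : κ → ℕ) :
    fibG R χ (C c * ∏ i, (X - C (b i)) ^ m i) *
      PowerSeries.mk (monSum (psiG (chiN F χ) ((-1) ^ (∑ i, m i) * c) b m)) = 1 := by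
  rw [← euler_wt (psiG_one (chiN F χ) ((-1) ^ (∑ i, m i) * c) b m)
    (psiG_mul (chiN F χ) ((-1) ^ (∑ i, m i) * c) b m)]
  congr 1
  unfold fibG
  congr 1
  funext Q
  rw [← psiG_eq_norm]

theorem fibG_zero (χ : MulChar k R) : fibG R χ (0 : F[X]) = 1 := by
  unfold fibG
  have h1 : ∀ Q : MI F, (1 - PowerSeries.C
    (χ (Algebra.norm k (AdjoinRoot.mk Q.1 (0 : F[X])))) *
      PowerSeries.X ^ Q.1.natDegree : PowerSeries R) = 1 := by
    intro Q
    have hirr : Fact (Irreducible Q.1) := ⟨Q.2.2⟩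
    have hfd : FiniteDimensional F (AdjoinRoot Q.1) := Q.2.1.finite_adjoinRoot
    have hfd' : FiniteDimensional k (AdjoinRoot Q.1) := FiniteDimensional.trans k F _
    rw [map_zero, Algebra.norm_zero, MulChar.map_zero, map_zero, zero_mul, sub_zero]
  rw [show (fun Q : MI F => (1 - PowerSeries.C
    (χ (Algebra.norm k (AdjoinRoot.mk Q.1 (0 : F[X])))) *
      PowerSeries.X ^ Q.1.natDegree : PowerSeries R)) = fun _ => 1 from funext h1]
  exact eulerProd_one

end psi

section sums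

variable {F : Type} [Field F] [Finite F] {R : Type} [CommRing R] [IsDomain R] {κ : Type}
  [Fintype κ]

/-- the sums over the monic polynomials of large degree vanish -/
theorem monSum_zero' {χ : MulChar F R} (c : F) (b : κ → F) {m : κ → ℕ} (hm0 : 0 < ∑ i, m i)
    (hχ : χ ^ (∑ i, m i) ≠ 1) (h : F[X])
    (hm : h.Monic) (h0 : ∀ i, h.eval (b i) = 0) {n : ℕ}
    (hn : h.natDegree ≤ n) : monSum (psiG χ c b m) n = 0 := by
  classical
  obtain ⟨a, ha⟩ : ∃ a : Fˣ, (χ ^ (∑ i, m i)) a ≠ 1 := by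
    by_contra h
    push Not at h
    apply hχ
    apply MulChar.ext
    intro a
    rw [h a, MulChar.one_apply_coe]
  have ha0 : (a : F) ≠ 0 := a.ne_zero
  have hdeg : ∀ (l : F) (g : F[X]), g.Monic → g.natDegree = n →
      (g + C (l - 1) * (g %ₘ h)).Monic ∧ (g + C (l - 1) * (g %ₘ h)).natDegree = n := by
    intro l g hg hgn
    have h3 : (C (l - 1) * (g %ₘ h)).degree < g.degree := by
      rw [← smul_eq_C_mul]
      refine lt_of_le_of_lt (degree_smul_le _ _) (lt_of_lt_of_le (degree_modByMonic_lt g hm) ?_)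
      rw [degree_eq_natDegree hm.ne_zero, degree_eq_natDegree hg.ne_zero, hgn]
      exact_mod_cast hn
    refine ⟨hg.add_of_left h3, ?_⟩
    rw [natDegree_add_eq_left_of_degree_lt h3, hgn]
  have hmod : ∀ (l : F) (g : F[X]), (g + C (l - 1) * (g %ₘ h)) %ₘ h = C l * (g %ₘ h) := by
    intro l g
    rw [add_modByMonic, ← smul_eq_C_mul, smul_modByMonic,
      (modByMonic_eq_self_iff hm).2 (degree_modByMonic_lt g hm), smul_eq_C_mul, C_sub, C_1]
    ring
  have hev : ∀ (g : F[X]) (x : F), h.eval x = 0 → g.eval x = (g %ₘ h).eval x := by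
    intro g x hx
    conv_lhs => rw [← modByMonic_add_div g h]
    rw [eval_add, eval_mul, hx, zero_mul, add_zero]
  have hval : ∀ g : F[X], g.Monic → g.natDegree = n →
      psiG χ c b m (g + C ((a : F) - 1) * (g %ₘ h)) = (χ ^ (∑ i, m i)) a * psiG χ c b m g := by
    intro g hg hgn
    unfold psiG
    have h1 : (fun i => (g + C ((a : F) - 1) * (g %ₘ h)).eval (b i)) =
        fun i => (a : F) * g.eval (b i) := by
      funext i
      rw [hev _ _ (h0 i), hmod, eval_mul, eval_C, ← hev g _ (h0 i)]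
    rw [(hdeg a g hg hgn).2, hgn, MulChar.pow_apply' χ hm0.ne', ← map_pow, ← map_mul, h1, mp_smul]
    congr 1
    ring
  have h4 : monSum (psiG χ c b m) n = (χ ^ (∑ i, m i)) a * monSum (psiG χ c b m) n := by
    conv_rhs => rw [monSum, Finset.mul_sum]
    rw [monSum]
    symm
    refine Finset.sum_bij' (fun g _ => g + C ((a : F) - 1) * (g %ₘ h))
      (fun g _ => g + C ((a : F)⁻¹ - 1) * (g %ₘ h)) ?_ ?_ ?_ ?_ ?_
    · intro g hg
      rw [Set.Finite.mem_toFinset] at hg ⊢
      exact hdeg _ g hg.1 hg.2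
    · intro g hg
      rw [Set.Finite.mem_toFinset] at hg ⊢
      exact hdeg _ g hg.1 hg.2
    · intro g hg
      rw [hmod]
      have : (C ((a : F)⁻¹ - 1) * (C (a : F) * (g %ₘ h)) : F[X]) =
          C (((a : F)⁻¹ - 1) * (a : F)) * (g %ₘ h) := by
        rw [C_mul]; ring
      rw [this, sub_mul, inv_mul_cancel₀ ha0, one_mul, add_assoc, ← add_mul, ← C_add]
      simp
    · intro g hg
      rw [hmod]
      have : (C ((a : F) - 1) * (C ((a : F)⁻¹) * (g %ₘ h)) : F[X]) =
          C (((a : F) - 1) * (a : F)⁻¹) * (g %ₘ h) := by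
        rw [C_mul]; ring
      rw [this, sub_mul, mul_inv_cancel₀ ha0, one_mul, add_assoc, ← add_mul, ← C_add]
      simp
    · intro g hg
      rw [Set.Finite.mem_toFinset] at hg
      exact (hval g hg.1 hg.2).symm
  have h5 : (1 - (χ ^ (∑ i, m i)) a) * monSum (psiG χ c b m) n = 0 := by
    rw [sub_mul, one_mul, ← h4, sub_self]
  rcases mul_eq_zero.1 h5 with h6 | h6
  · exact absurd (sub_eq_zero.1 h6).symm ha
  · exact h6

end sums

end Pool.Agent.Y709.Gen
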