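import Pool.Agent.Y709.Gen.Psi
import Pool.Agent.Y709.Gen.Mat
import Pool.Agent.Y709.Van
import Mathlib.FieldTheory.IsAlgClosed.AlgebraicClosure

/-!
The sums over the monic polynomials in characteristic `p`.
-/

set_option autoImplicit false
set_option linter.unusedSectionVars false

open Polynomial

namespace Pool.Agent.Y709.Gen

open Pool.Agent.W313.Hyp Pool.Agent.W343.BSD

section sums

variable {F : Type} [Field F] [Fintype F] {ι : Type} [Fintype ι] [DecidableEq ι]

theorem kmat_smul {R : Type} [CommRing R] (q m : ℕ) (s : R) (H : R[X]) :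
    kmat q m (one' (C s * H)) = s • kmat q m (one' H) := by
  refine Matrix.ext fun a b => ?_
  unfold kmat one'
  rw [Matrix.smul_apply, Matrix.of_apply, Matrix.of_apply, Matrix.of_apply, Matrix.of_apply,
    mul_left_comm, coeff_C_mul, smul_eq_mul]

theorem loc_one' {K : Type} [Field K] (q : ℕ) (H : K[X]) (z : K) (d : ℕ) :
    loc (MonoidHom.id K) q (one' H) z d = one' (∏ j ∈ Finset.range d, H.eval (z ^ (q ^ j))) := by
  unfold loc
  rw [← mprod_one']
  congr 1

theorem charpolyRev_one' {K : Type} [Field K] (a : K) :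
    (one' a : Matrix Unit Unit K).charpolyRev = 1 - C a * X := by
  unfold Matrix.charpolyRev
  rw [Matrix.det_unique, Matrix.sub_apply, Matrix.smul_apply, Matrix.map_apply,
    Matrix.one_apply_eq, smul_eq_mul, mul_comm]
  rfl

/-- the sums over the monic polynomials as coefficients of a characteristic polynomial -/
theorem monSum_coeff (β : ι → F) (e : ι → ℕ) (m : ℕ)
    (hdeg : ∑ l, e l < (Fintype.card F - 1) * (m + 1)) (j : ℕ) :
    monSum (fun g : F[X] => ∏ l, (g.eval (β l)) ^ e l) j =
      (((-1 : F) ^ (∑ l, e l)) •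
        kmat (Fintype.card F) m (one' (∏ l, (X - C (β l)) ^ e l))).charpolyRev.coeff j := by
  let K := AlgebraicClosure F
  set s : F := (-1) ^ (∑ l, e l) with hs
  set H : F[X] := C s * ∏ l, (X - C (β l)) ^ e l with hH
  set Q := Fintype.card F with hQ
  have hroot := fun P : MI F => exists_root_MI (K := K) P
  choose ρ hρ using hroot
  have hHd : H.natDegree ≤ ∑ l, e l := by
    rw [hH]
    refine (natDegree_C_mul_le _ _).trans ((natDegree_prod_le _ _).trans
      (Finset.sum_le_sum fun l _ => ?_))
    refine natDegree_pow_le.trans ?_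
    exact (Nat.mul_le_mul_left _ (natDegree_X_sub_C_le _)).trans (by rw [mul_one])
  have h1 := formula_mod (k := F) (K := K) (m := m) (q := Q) (Nat.card_eq_fintype_card)
    (one' (H.map (algebraMap F K))) (fun _ _ => by
      show (H.map (algebraMap F K)).natDegree < _
      exact (natDegree_map_le.trans hHd).trans_lt hdeg) ρ hρ
  have h2 := euler_wt (F := F) (R := K)
    (ψ := fun g : F[X] => algebraMap F K (∏ l, (g.eval (β l)) ^ e l)) (by simp)
    (fun P g _ => by
      rw [← map_mul, ← Finset.prod_mul_distrib]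
      congr 1
      refine Finset.prod_congr rfl fun l _ => ?_
      rw [eval_mul, mul_pow])
  have h3 : (fun P : MI F => (1 - PowerSeries.C (algebraMap F K (∏ l, (P.1.eval (β l)) ^ e l)) *
      PowerSeries.X ^ P.1.natDegree : PowerSeries K)) =
      fun P => locF (MonoidHom.id K) Q (one' (H.map (algebraMap F K))) (ρ P) P.1.natDegree
        (deg_ne P) := by
    funext P
    unfold locF
    rw [loc_one', charpolyRev_one', Polynomial.coe_sub, Polynomial.coe_one, Polynomial.coe_mul,
      Polynomial.coe_C, Polynomial.coe_X, map_sub, map_one, map_mul, PowerSeries.expand_C,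
      PowerSeries.expand_X]
    congr 3
    -- the value at a closed point
    have hirr : Fact (Irreducible P.1) := ⟨P.2.2⟩
    have hfd : FiniteDimensional F (AdjoinRoot P.1) := P.2.1.finite_adjoinRoot
    have hfin : Finite (AdjoinRoot P.1) := Module.finite_of_finite F
    have hcard : Nat.card (AdjoinRoot P.1) = Q ^ P.1.natDegree := by
      have h4 := Module.natCard_eq_pow_finrank (K := F) (V := AdjoinRoot P.1)
      rw [h4, Nat.card_eq_fintype_card]
      congr 1
      have h5 := (AdjoinRoot.powerBasis P.2.1.ne_zero).finrank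
      rw [AdjoinRoot.powerBasis_dim] at h5
      exact h5
    let σ : AdjoinRoot P.1 →+* K := AdjoinRoot.lift (algebraMap F K) (ρ P) (hρ P)
    have hσc : ∀ a : F, σ (algebraMap F (AdjoinRoot P.1) a) = algebraMap F K a := fun a =>
      AdjoinRoot.lift_of (hρ P)
    have hσX : σ (AdjoinRoot.root P.1) = ρ P := AdjoinRoot.lift_root (hρ P)
    have hval : ∀ l, algebraMap F K ((-1) ^ P.1.natDegree * P.1.eval (β l)) =
        ∏ j ∈ Finset.range P.1.natDegree, (ρ P ^ (Q ^ j) - algebraMap F K (β l)) := by
      intro l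
      rw [← norm_mk_sub, ← hσc, norm_alg (k := F) rfl hcard, pow_nex, map_prod]
      refine Finset.prod_congr rfl fun j _ => ?_
      have h6 : AdjoinRoot.mk P.1 (X - C (β l)) =
          AdjoinRoot.root P.1 - algebraMap F (AdjoinRoot P.1) (β l) := by
        rw [map_sub, AdjoinRoot.mk_X]
        rfl
      obtain ⟨p, hp⟩ := CharP.exists F
      have hpp : Fact p.Prime := ⟨CharP.char_is_prime F p⟩
      obtain ⟨f, _, hqf⟩ := FiniteField.card F p
      have hpK : CharP K p := charP_of_injective_algebraMap (algebraMap F K).injective p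
      have h7 : Q ^ j = p ^ (f * j) := by rw [hQ, hqf, ← pow_mul]
      have h8 : algebraMap F K (β l) ^ (Q ^ j) = algebraMap F K (β l) := by
        rw [← map_pow, hQ, FiniteField.pow_card_pow]
      rw [h6, map_pow, map_sub, hσc, hσX, h7, sub_pow_char_pow, ← h7, h8]
    have hval2 : algebraMap F K (∏ l, (P.1.eval (β l)) ^ e l) =
        algebraMap F K (s ^ P.1.natDegree) * ∏ l, (∏ j ∈ Finset.range P.1.natDegree,
          (ρ P ^ (Q ^ j) - algebraMap F K (β l))) ^ e l := by
      have h9 : ∀ l, (∏ j ∈ Finset.range P.1.natDegree,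
          (ρ P ^ (Q ^ j) - algebraMap F K (β l))) ^ e l =
          algebraMap F K (((-1) ^ P.1.natDegree) ^ e l * (P.1.eval (β l)) ^ e l) := by
        intro l
        rw [← hval, ← map_pow, mul_pow]
      rw [Finset.prod_congr rfl fun l _ => h9 l, ← map_prod, ← map_mul, Finset.prod_mul_distrib,
        Finset.prod_pow_eq_pow_sum, hs]
      congr 1
      rw [← mul_assoc, ← pow_mul, ← pow_mul, mul_comm (∑ l, e l), ← mul_pow]
      simp
    rw [hval2]
    have h10 : ∀ z : K, (H.map (algebraMap F K)).eval z =
        algebraMap F K s * ∏ l, (z - algebraMap F K (β l)) ^ e l := by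
      intro z
      rw [hH, Polynomial.map_mul, Polynomial.map_prod, map_C, eval_mul, eval_C, eval_prod]
      congr 1
      refine Finset.prod_congr rfl fun l _ => ?_
      rw [Polynomial.map_pow, Polynomial.map_sub, map_X, map_C, eval_pow, eval_sub, eval_X, eval_C]
    rw [Finset.prod_congr rfl fun j _ => h10 (ρ P ^ (Q ^ j)), Finset.prod_mul_distrib,
      Finset.prod_const, Finset.card_range, map_pow, Finset.prod_comm]
    congr 1
    refine Finset.prod_congr rfl fun l _ => ?_
    rw [Finset.prod_pow]
  have h4 : (PowerSeries.mk (monSum (fun g : F[X] => algebraMap F K (∏ l, (g.eval (β l)) ^ e l))) :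
      PowerSeries K) = ((kmat Q m (one' (H.map (algebraMap F K)))).charpolyRev :
        PowerSeries K) := by
    rw [h3] at h2
    have h5 := congrArg (fun S => S * ((kmat Q m (one' (H.map (algebraMap F K)))).charpolyRev :
        PowerSeries K)) h2
    simp only [one_mul] at h5
    rw [mul_right_comm, h1, one_mul] at h5
    exact h5
  have h5 := congrArg (PowerSeries.coeff j) h4
  rw [PowerSeries.coeff_mk, Polynomial.coeff_coe] at h5
  have h6 : (kmat Q m (one' (H.map (algebraMap F K)))) =
      (kmat Q m (one' H)).map (algebraMap F K) := by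
    rw [map_kmat]
    rfl
  rw [h6, ← map_charpolyRev, coeff_map] at h5
  have h7 : monSum (fun g : F[X] => algebraMap F K (∏ l, (g.eval (β l)) ^ e l)) j =
      algebraMap F K (monSum (fun g : F[X] => ∏ l, (g.eval (β l)) ^ e l) j) := by
    unfold monSum
    rw [map_sum]
  rw [h7] at h5
  rw [(algebraMap F K).injective h5, hH, kmat_smul]

/-- the matrix of the power is the product -/
theorem kmat_prod {p f q : ℕ} [hp : Fact p.Prime] [CharP F p] (hq : q = p ^ f) (hq1 : 1 < q)
    {d m : ℕ} (hm : Fintype.card ι = m + 1) (β : ι → F) {μ : ι → ℕ} (hμ : ∀ l, μ l < q)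
    (hμ0 : ∀ l, 0 < μ l) :
    kmat (q ^ d) m (one' (∏ l, (X - C (β l)) ^ ((q - 1 - μ l) * nex q d))) =
      mprod (fun j => Am q m (cjb q β j) μ) d := by
  have hne : Nonempty ι := Fintype.card_pos_iff.1 (by rw [hm]; omega)
  have h2 : 0 < ∑ l, μ l := Finset.sum_pos (fun l _ => hμ0 l) Finset.univ_nonempty
  refine Matrix.ext fun a b => ?_
  unfold Am
  rw [mprod_kmat (by omega) (G := fun j => one' (GG q (cjb q β j) μ)) (fun n a b => by
    show (GG q (cjb q β n) μ).natDegree < _
    have h1 := natDegree_GG (q := q) (β := cjb q β n) hμ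
    rw [hm] at h1
    have h3 : (q - 1) * (m + 1) = (m + 1) * (q - 1) := mul_comm _ _
    omega)]
  unfold kmat gprod
  rw [Matrix.of_apply]
  have h3 : (fun n => (one' (GG q (cjb q β n) μ)).map (expand F (q ^ n))) =
      fun n => one' (expand F (q ^ n) (GG q (cjb q β n) μ)) := by
    funext n
    rfl
  rw [h3, mprod_one']
  congr 2
  unfold one'
  rw [Matrix.of_apply, Matrix.of_apply]
  have h4 : ∀ n, expand F (q ^ n) (GG q (cjb q β n) μ) =
      ∏ l, ((X - C (β l)) ^ (q ^ n)) ^ (q - 1 - μ l) := by
    intro n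
    unfold GG cjb
    rw [map_prod]
    refine Finset.prod_congr rfl fun l _ => ?_
    have h5 : q ^ n = p ^ (f * n) := by rw [hq, ← pow_mul]
    rw [map_pow, map_sub, expand_X, expand_C, C_pow, h5, sub_pow_char_pow]
  rw [Finset.prod_congr rfl fun n _ => h4 n, Finset.prod_comm]
  refine Finset.prod_congr rfl fun l _ => ?_
  rw [mul_comm, pow_mul, pow_nex, Finset.prod_pow]

end sums

end Pool.Agent.Y709.Gen
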