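import Pool.Agent.Y709.Gen.MainG

/-!
Twists by constants and extensions of the field of constants.
-/

set_option autoImplicit false
set_option linter.unusedSectionVars false

open Polynomial

namespace Pool.Agent.Y709.Gen

open Pool.Agent.W313.Hyp Pool.Agent.W343.BSD

section resc

variable {k : Type} [Field k]

theorem norm_mk_C_mul (P : MI k) (Q : MI (RS P)) (u : k) (g : (RS P)[X]) :
    Algebra.norm k (AdjoinRoot.mk Q.1 (C (algebraMap k (RS P) u) * g)) =
      u ^ (P.1.natDegree * Q.1.natDegree) * Algebra.norm k (AdjoinRoot.mk Q.1 g) := by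
  rw [map_mul, map_mul]
  congr 1
  have h1 : AdjoinRoot.mk Q.1 (C (algebraMap k (RS P) u)) = algebraMap k (AdjoinRoot Q.1) u := rfl
  rw [h1, Algebra.norm_algebraMap]
  congr 1
  rw [← Module.finrank_mul_finrank k (RS P) (AdjoinRoot Q.1)]
  have h2 := (AdjoinRoot.powerBasis P.2.1.ne_zero).finrank
  have h3 := (AdjoinRoot.powerBasis Q.2.1.ne_zero).finrank
  rw [AdjoinRoot.powerBasis_dim] at h2 h3
  rw [← h2, ← h3]

variable {R : Type} [CommRing R] {κ : Type} [Fintype κ]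

theorem LG_C_mul [Finite k] (χ : MulChar k R) (u : k) (E : k[X]) (b : κ → k[X]) (m : κ → ℕ) :
    LG χ (C u * E) b m = PowerSeries.rescale (χ u) (LG χ E b m) := by
  unfold LG
  rw [rescale_euler (plane_finite (k := k))]
  congr 1
  funext z
  have h1 : fibp (val z.1 (C u * E)) (fun i => val z.1 (b i)) m =
      C (algebraMap k (RS z.1) u) * fibp (val z.1 E) (fun i => val z.1 (b i)) m := by
    unfold fibp
    have h2 : val z.1 (C u * E) = algebraMap k (RS z.1) u * val z.1 E := by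
      unfold val
      rw [map_mul]
      rfl
    rw [h2, C_mul, mul_assoc]
  have h3 : ∀ a : R, PowerSeries.rescale (χ u) (PowerSeries.C a) = PowerSeries.C a := by
    intro a
    ext n
    rw [PowerSeries.coeff_rescale, PowerSeries.coeff_C]
    split_ifs with h
    · rw [h, pow_zero, one_mul]
    · rw [mul_zero]
  rw [h1, norm_mk_C_mul, map_mul χ, map_pow χ, map_sub, map_one, map_mul (PowerSeries.rescale _),
    map_pow (PowerSeries.rescale _), PowerSeries.rescale_X, mul_pow, h3, map_mul,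
    ← map_pow PowerSeries.C]
  ring

end resc

/-- **the number of twists with a zero on the central circle at a point of order dividing `e`** -/
theorem main_countE {k : Type} [Field k] [Fintype k] {q r : ℕ} (hk : Fintype.card k = q)
    (hcount : CountGen k q r) (B : k[X]) (hB : B ≠ 0) (b : Fin (r + 1) → k[X])
    (hbi : Function.Injective b) (d : ℕ) (hb : ∀ i, (b i).natDegree ≤ d)
    (m : Fin (r + 1) → ℕ) (hm : ∀ i, 0 < m i)
    (hinv : ∀ i : ℕ, i < ∑ l, m l → ((i : k) + 1) ≠ 0) (f ρ M N e : ℕ) (he : e ∣ q - 1)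
    (hf : B.natDegree + d * ∑ i, m i ≤ f) (hmq : ∑ i, m i < q - 1)
    (h1 : r * f + 3 * r ^ 2 + 6 * r + 8 ≤ q) (h2 : r + 1 ≤ ρ) (h3 : ρ + f ≤ q - 1)
    (h4 : 4 * r ^ 2 + 8 ≤ M) (h5 : N + 1 = (q - 1) * M + ρ) :
    {D : k[X] | D.natDegree ≤ N ∧ ∃ χ : MulChar k ℂ, orderOf χ = q - 1 ∧ ∃ ζ : ℂ, ζ ^ e = 1 ∧
      ∃ G : ℂ[X], LG χ (D * B) b m =
        (((1 - C ((q : ℂ) * ζ) * X) * G : ℂ[X]) : PowerSeries ℂ)}.ncard ≤
        2 * r * e * q ^ N := by
  classical
  set V := {D : k[X] | D.natDegree ≤ N ∧ ∃ χ : MulChar k ℂ, orderOf χ = q - 1 ∧ ∃ G : ℂ[X],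
      LG χ (D * B) b m = (((1 - C (q : ℂ) * X) * G : ℂ[X]) : PowerSeries ℂ)} with hV
  have hVc := main_countG hk hcount B hB b hbi d hb m hm hinv f ρ M N hf hmq h1 h2 h3 h4 h5
  rw [← hV] at hVc
  have hq1 : 0 < q - 1 := by omega
  have hnz : NeZero (q - 1) := ⟨hq1.ne'⟩
  have he0 : 0 < e := Nat.pos_of_dvd_of_pos he hq1
  set S : Finset k := (Polynomial.nthRoots e (1 : k)).toFinset with hS
  have hSc : S.card ≤ e := (Multiset.toFinset_card_le _).trans (card_nthRoots e 1)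
  have hsub : {D : k[X] | D.natDegree ≤ N ∧ ∃ χ : MulChar k ℂ, orderOf χ = q - 1 ∧
      ∃ ζ : ℂ, ζ ^ e = 1 ∧ ∃ G : ℂ[X], LG χ (D * B) b m =
        (((1 - C ((q : ℂ) * ζ) * X) * G : ℂ[X]) : PowerSeries ℂ)} ⊆
      ⋃ u ∈ S, (fun D => C u * D) '' V := by
    rintro D ⟨hD, χ, hχ, ζ, hζ, G, hG⟩
    obtain ⟨g, hg⟩ := IsCyclic.exists_generator (α := kˣ)
    have hprim := prim_of_order χ hq1 hχ hg
    have hζ0 : ζ ≠ 0 := by
      intro h
      rw [h, zero_pow he0.ne'] at hζ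
      exact zero_ne_one hζ
    have hζ' : ζ ^ (q - 1) = 1 := by
      obtain ⟨c, hc⟩ := he
      rw [hc, pow_mul, hζ, one_pow]
    obtain ⟨i, _, hi⟩ := hprim.eq_pow_of_pow_eq_one hζ'
    -- `u = g ^ i` has `χ u = ζ`
    have hgq : ((g : k)) ^ (i * e) = 1 := by
      have h6 : (χ (g : k)) ^ (i * e) = 1 := by rw [pow_mul, hi, hζ]
      have h7 := hprim.dvd_of_pow_eq_one _ h6
      obtain ⟨c, hc⟩ := h7
      rw [hc, pow_mul, ← hk, FiniteField.pow_card_sub_one_eq_one _ g.ne_zero, one_pow]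
    have hu0 : ((g : k)) ^ i ≠ 0 := pow_ne_zero _ g.ne_zero
    rw [Set.mem_iUnion₂]
    refine ⟨(g : k) ^ i, ?_, C (((g : k) ^ i)⁻¹) * D, ?_, ?_⟩
    · rw [hS, Multiset.mem_toFinset, Polynomial.mem_nthRoots he0, ← pow_mul]
      exact hgq
    · refine ⟨(natDegree_C_mul_le _ _).trans hD, χ, hχ, G.comp (C ζ⁻¹ * X), ?_⟩
      have h6 : χ (((g : k) ^ i)⁻¹) = ζ⁻¹ := by
        have h7 : χ (((g : k) ^ i)⁻¹) * χ ((g : k) ^ i) = 1 := by
          rw [← map_mul, inv_mul_cancel₀ hu0, map_one]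
        rw [map_pow, hi] at h7
        exact eq_inv_of_mul_eq_one_left h7
      rw [mul_assoc, LG_C_mul, hG, h6]
      have h8 : ∀ H : ℂ[X], PowerSeries.rescale ζ⁻¹ (H : PowerSeries ℂ) =
          ((H.comp (C ζ⁻¹ * X) : ℂ[X]) : PowerSeries ℂ) := by
        intro H
        ext n
        rw [PowerSeries.coeff_rescale, Polynomial.coeff_coe, Polynomial.coeff_coe,
          comp_C_mul_X_coeff, mul_comm]
      rw [h8]
      congr 1
      rw [mul_comp, sub_comp, one_comp, mul_comp, C_comp, X_comp, C_mul]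
      congr 2
      rw [mul_assoc, ← mul_assoc (C ζ), ← C_mul, mul_inv_cancel₀ hζ0, C_1, one_mul]
    · show C ((g : k) ^ i) * (C (((g : k) ^ i)⁻¹) * D) = D
      rw [← mul_assoc, ← C_mul, mul_inv_cancel₀ hu0, C_1, one_mul]
  have hVf : V.Finite := (finite_natDegree_le N).subset fun D hD => hD.1
  have hfin : (⋃ u ∈ S, (fun D => C u * D) '' V).Finite :=
    S.finite_toSet.biUnion fun u _ => hVf.image _
  refine (Set.ncard_le_ncard hsub hfin).trans ?_
  have h6 : (⋃ u ∈ S, (fun D => C u * D) '' V).ncard ≤ ∑ u ∈ S, V.ncard := by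
    refine (Finset.set_ncard_biUnion_le S _).trans (Finset.sum_le_sum fun u _ => ?_)
    exact Set.ncard_image_le hVf
  refine h6.trans ?_
  rw [Finset.sum_const, smul_eq_mul]
  calc S.card * V.ncard ≤ e * (2 * r * q ^ N) := Nat.mul_le_mul hSc hVc
    _ = 2 * r * e * q ^ N := by ring

end Pool.Agent.Y709.Gen
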