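import Pool.Agent.Y709.Gen.Resc
import Pool.Agent.Y709.GStm2

/-!
The family `x ^ a (x - 1) ^ b (x - t) ^ c`.
-/

set_option autoImplicit false
set_option linter.unusedSectionVars false

open Polynomial

namespace Pool.Agent.Y709.Gen

open Pool.Agent.W313.Hyp Pool.Agent.W343.BSD

section low

variable {k : Type} [Field k]

/-- lower bound of the weighted order -/
def LB (D : ℕ) (H : k[X][X]) : Prop := ∀ e, X ^ (D - e) ∣ H.coeff e

theorem LB.mul {D D' : ℕ} {H H' : k[X][X]} (h : LB D H) (h' : LB D' H') : LB (D + D') (H * H') := by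
  intro e
  rw [coeff_mul]
  refine Finset.dvd_sum fun x hx => ?_
  rw [Finset.HasAntidiagonal.mem_antidiagonal] at hx
  refine dvd_trans (pow_dvd_pow _ ?_) (mul_dvd_mul (h x.1) (h' x.2) |> fun t => by
    rw [← pow_add] at t; exact t)
  omega

theorem LB.mono {D D' : ℕ} {H : k[X][X]} (h : LB D H) (hD : D' ≤ D) : LB D' H := fun e =>
  (pow_dvd_pow _ (by omega)).trans (h e)

theorem LB.zero (H : k[X][X]) : LB 0 H := by
  intro e
  rw [Nat.zero_sub, pow_zero]
  exact one_dvd _

theorem LB.pow {D : ℕ} {H : k[X][X]} (h : LB D H) (n : ℕ) : LB (n * D) (H ^ n) := by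
  induction n with
  | zero =>
    rw [Nat.zero_mul]
    exact LB.zero _
  | succ n ih =>
    rw [pow_succ, Nat.succ_mul]
    exact ih.mul h

theorem LB.X_sub {b : k[X]} (hb : X ∣ b) : LB 1 (X - C b : k[X][X]) := by
  intro e
  rcases e with _ | e
  · rw [Nat.sub_zero, pow_one, coeff_sub, coeff_X_zero, coeff_C_zero, zero_sub]
    exact (dvd_neg).2 hb
  · have h1 : 1 - (e + 1) = 0 := by omega
    rw [h1, pow_zero]
    exact one_dvd _

theorem LB.intg {D : ℕ} {H : k[X][X]} (h : LB D H) : LB (D + 1) (intg k H) := by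
  intro e
  rcases e with _ | e
  · rw [coeff_intg_zero]
    exact dvd_zero _
  · rw [coeff_intg_succ]
    have h1 : D + 1 - (e + 1) = D - e := by omega
    rw [h1]
    exact (h e).mul_left _

theorem LB.eval {D : ℕ} {H : k[X][X]} (h : LB D H) {b : k[X]} (hb : X ∣ b) :
    X ^ D ∣ H.eval b := by
  rw [eval_eq_sum_range]
  refine Finset.dvd_sum fun e _ => ?_
  refine dvd_trans (pow_dvd_pow _ (by omega : D ≤ (D - e) + e)) ?_
  rw [pow_add]
  exact mul_dvd_mul (h e) (pow_dvd_pow_of_dvd hb e)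

end low

section rows

variable {k : Type} [Field k]

/-- the sections `0, 1, t` -/
noncomputable def bt (k : Type) [Field k] : Fin 3 → k[X] := ![0, 1, X]

theorem bt_inj : Function.Injective (bt k) := by
  intro i j h
  have h01 : (0 : k[X]) ≠ 1 := zero_ne_one
  have h0X : (0 : k[X]) ≠ X := X_ne_zero.symm
  have h1X : (1 : k[X]) ≠ X := by
    intro h
    have := congrArg natDegree h
    rw [natDegree_one, natDegree_X] at this
    exact zero_ne_one this
  fin_cases i <;> fin_cases j <;> first | rfl | (exfalso; revert h; simp [bt, h01, h0X, h1X, h01.symm, h0X.symm, h1X.symm])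

theorem phi_one (m : Fin 3 → ℕ) (hm : ∀ i, 0 < m i) (j : Fin 3) :
    (phi k (bt k) m 0 1 j).natDegree ≤ m 2 := by
  have hX : ∀ i, WB 0 (if i = 2 then 1 else 0) (X - C (bt k i)) := by
    intro i e
    rw [zero_mul, add_zero]
    right
    rw [coeff_sub, coeff_X, coeff_C]
    have h1 : (bt k i).natDegree ≤ if i = 2 then 1 else 0 := by
      fin_cases i <;> simp [bt]
    rcases e with _ | e
    · rw [if_neg one_ne_zero, if_pos rfl, zero_sub, natDegree_neg]
      exact h1
    · rcases e with _ | e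
      · rw [if_pos rfl, if_neg (by omega), sub_zero, natDegree_one]
        exact Nat.zero_le _
      · rw [if_neg (by omega), if_neg (by omega), sub_zero, natDegree_zero]
        exact Nat.zero_le _
  have h1 : WB 0 ((if j = 2 then 1 else 0) * (m j - 1) +
      ∑ i ∈ Finset.univ.erase j, (if i = 2 then 1 else 0) * m i) (gj (bt k) m j) :=
    ((hX j).pow _).mul (WB.prod _ fun i => (hX i).pow _)
  have h2 : (if j = 2 then 1 else 0) * (m j - 1) +
      ∑ i ∈ Finset.univ.erase j, (if i = 2 then 1 else 0) * m i + 0 ≤ m 2 := by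
    have h3 := Finset.add_sum_erase Finset.univ (fun i : Fin 3 => (if i = 2 then 1 else 0) * m i)
      (Finset.mem_univ j)
    have h4 : ∑ i : Fin 3, (if i = 2 then 1 else 0) * m i = m 2 := by
      rw [Fin.sum_univ_three]
      simp
    rw [h4] at h3
    have h5 : (if j = 2 then 1 else 0) * (m j - 1) ≤ (if j = 2 then 1 else 0) * m j :=
      Nat.mul_le_mul_left _ (Nat.sub_le _ _)
    omega
  have h3 := h1.intg
  have he : ∀ b : k[X], b.natDegree ≤ 0 → ((intg k (gj (bt k) m j)).eval b).natDegree ≤ m 2 :=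
    fun b hb => (h3.eval hb).trans h2
  unfold phi
  rw [Matrix.of_apply, natDegree_neg]
  refine natDegree_mul_le.trans ?_
  rw [natDegree_natCast, zero_add]
  refine (natDegree_sub_le _ _).trans (max_le (he _ ?_) (he _ ?_))
  · simp [bt]
  · simp [bt]

theorem phi_two_dvd (m : Fin 3 → ℕ) (hm : ∀ i, 0 < m i) (j : Fin 3) :
    X ^ (m 0 + m 2) ∣ phi k (bt k) m 0 2 j := by
  have h0 : LB 1 (X - C (bt k 0)) := LB.X_sub (by simp [bt])
  have h2 : LB 1 (X - C (bt k 2)) := LB.X_sub (by simp [bt])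
  have hm0 := hm 0
  have hm2 := hm 2
  have h1 : LB (m 0 + m 2 - 1) (gj (bt k) m j) := by
    unfold gj
    fin_cases j
    · have h3 : (Finset.univ.erase (0 : Fin 3)) = {1, 2} := by decide
      show LB _ ((X - C (bt k 0)) ^ (m 0 - 1) *
        ∏ i ∈ Finset.univ.erase (0 : Fin 3), (X - C (bt k i)) ^ m i)
      rw [h3, Finset.prod_pair (by decide)]
      refine ((h0.pow (m 0 - 1)).mul ((LB.zero ((X - C (bt k 1)) ^ m 1)).mul (h2.pow (m 2)))).mono ?_
      omega
    · have h3 : (Finset.univ.erase (1 : Fin 3)) = {0, 2} := by decide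
      show LB _ ((X - C (bt k 1)) ^ (m 1 - 1) *
        ∏ i ∈ Finset.univ.erase (1 : Fin 3), (X - C (bt k i)) ^ m i)
      rw [h3, Finset.prod_pair (by decide)]
      refine ((LB.zero ((X - C (bt k 1)) ^ (m 1 - 1))).mul
        ((h0.pow (m 0)).mul (h2.pow (m 2)))).mono ?_
      omega
    · have h3 : (Finset.univ.erase (2 : Fin 3)) = {0, 1} := by decide
      show LB _ ((X - C (bt k 2)) ^ (m 2 - 1) *
        ∏ i ∈ Finset.univ.erase (2 : Fin 3), (X - C (bt k i)) ^ m i)
      rw [h3, Finset.prod_pair (by decide)]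
      refine ((h2.pow (m 2 - 1)).mul ((h0.pow (m 0)).mul (LB.zero ((X - C (bt k 1)) ^ m 1)))).mono ?_
      omega
  have h3 : LB (m 0 + m 2) (intg k (gj (bt k) m j)) := h1.intg.mono (by omega)
  unfold phi
  rw [Matrix.of_apply]
  refine (dvd_neg).2 (Dvd.dvd.mul_left ?_ _)
  exact dvd_sub (h3.eval (by simp [bt])) (h3.eval (by simp [bt]))

end rows

end Pool.Agent.Y709.Gen
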